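import Mathlib
import Pool.Agent.P.MP_858e15_gt.Geo

-- part Pool.Agent.P.MP_858e15_gt.Defs
section

namespace Pool.Agent.P.MP_858e15_gt

open Complex

noncomputable def lob (x : ℝ) : ℝ := -∫ t in (0 : ℝ)..x, Real.log |2 * Real.sin t|

noncomputable def tetVol (z : ℂ) : ℝ :=
  lob (arg z) + lob (arg (1 / (1 - z))) + lob (arg (1 - 1 / z))

def Filling (p q : ℤ) (z w : ℂ) : Prop :=
  0 < z.im ∧ 0 < w.im ∧ z * (z - 1) * w * (w - 1) = 1 ∧
    (p : ℂ) * (log w + log (1 - z)) + (q : ℂ) * (2 * (log z + log (1 - z))) = 2 * Real.pi * I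

def FillVol (p q : ℤ) (v : ℝ) : Prop := ∃ z w : ℂ, Filling p q z w ∧ v = tetVol z + tetVol w

end Pool.Agent.P.MP_858e15_gt
end

-- part Pool.Agent.P.MP_858e15_gt.Concave
section

namespace Pool.Agent.P.MP_858e15_gt

open Complex Set

theorem lob_hasDerivAt {x : ℝ} (h0 : 0 < x) (h1 : x < Real.pi) :
    HasDerivAt lob (-Real.log (2 * Real.sin x)) x := by
  have hs : 0 < Real.sin x := Real.sin_pos_of_pos_of_lt_pi h0 h1
  have hint : IntervalIntegrable (fun t => Real.log |2 * Real.sin t|) MeasureTheory.volume 0 x := by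
    have h2 : IntervalIntegrable (fun t => Real.log 2 + (Real.log ∘ Real.sin) t)
        MeasureTheory.volume 0 x :=
      (intervalIntegrable_const).add intervalIntegrable_log_sin
    refine h2.congr ?_
    intro t ht
    rw [uIoc_of_le h0.le] at ht
    have : 0 < Real.sin t := Real.sin_pos_of_pos_of_lt_pi ht.1 (lt_of_le_of_lt ht.2 h1)
    simp only [Function.comp]
    rw [Real.log_abs, Real.log_mul (by norm_num) this.ne']
  have hc : ContinuousAt (fun t => Real.log |2 * Real.sin t|) x := by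
    apply ContinuousAt.log
    · fun_prop
    · have : 0 < 2 * Real.sin x := by positivity
      exact (abs_pos.mpr this.ne').ne'
  have hm : StronglyMeasurableAtFilter (fun t => Real.log |2 * Real.sin t|) (nhds x)
      MeasureTheory.volume := by
    apply MeasureTheory.StronglyMeasurable.stronglyMeasurableAtFilter
    apply Measurable.stronglyMeasurable
    fun_prop
  have := (intervalIntegral.integral_hasDerivAt_right hint hm hc).neg
  simp only [Real.log_abs] at this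
  unfold lob
  simp only [Real.log_abs]
  exact this

noncomputable def F (a b : ℝ) : ℝ := lob a + lob b + lob (Real.pi - a - b)

noncomputable def G (a b da db : ℝ) : ℝ :=
  -da * (Real.log (Real.sin a) - Real.log (Real.sin (Real.pi - a - b)))
    - db * (Real.log (Real.sin b) - Real.log (Real.sin (Real.pi - a - b)))

theorem F_hasDerivAt {a b : ℝ → ℝ} {da db t : ℝ} (ha : HasDerivAt a da t) (hb : HasDerivAt b db t)
    (h1 : 0 < a t) (h2 : 0 < b t) (h3 : a t + b t < Real.pi) :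
    HasDerivAt (fun s => F (a s) (b s)) (G (a t) (b t) da db) t := by
  have e1 := (lob_hasDerivAt h1 (by linarith)).comp t ha
  have e2 := (lob_hasDerivAt h2 (by linarith)).comp t hb
  have hc : HasDerivAt (fun s => Real.pi - a s - b s) (0 - da - db) t :=
    ((hasDerivAt_const t Real.pi).sub ha).sub hb
  have e3 := (lob_hasDerivAt (x := Real.pi - a t - b t) (by linarith) (by linarith)).comp t hc
  have s1 : 0 < Real.sin (a t) := Real.sin_pos_of_pos_of_lt_pi h1 (by linarith)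
  have s2 : 0 < Real.sin (b t) := Real.sin_pos_of_pos_of_lt_pi h2 (by linarith)
  have s3 : 0 < Real.sin (Real.pi - a t - b t) :=
    Real.sin_pos_of_pos_of_lt_pi (by linarith) (by linarith)
  have e := (e1.add e2).add e3
  refine HasDerivAt.congr_deriv e ?_
  unfold G
  rw [Real.log_mul (by norm_num) s1.ne', Real.log_mul (by norm_num) s2.ne',
    Real.log_mul (by norm_num) s3.ne']
  ring

theorem quad_pos {a b da db : ℝ} (h1 : 0 < a) (h2 : 0 < b) (h3 : a + b < Real.pi)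
    (hd : da ≠ 0 ∨ db ≠ 0) :
    0 < da ^ 2 * (Real.cos a / Real.sin a) + db ^ 2 * (Real.cos b / Real.sin b)
      + (da + db) ^ 2 * (Real.cos (Real.pi - a - b) / Real.sin (Real.pi - a - b)) := by
  have s1 : 0 < Real.sin a := Real.sin_pos_of_pos_of_lt_pi h1 (by linarith)
  have s2 : 0 < Real.sin b := Real.sin_pos_of_pos_of_lt_pi h2 (by linarith)
  have s3 : 0 < Real.sin (Real.pi - a - b) :=
    Real.sin_pos_of_pos_of_lt_pi (by linarith) (by linarith)
  have hs : Real.sin (Real.pi - a - b) = Real.sin a * Real.cos b + Real.cos a * Real.sin b := by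
    rw [sub_sub, Real.sin_pi_sub, Real.sin_add]
  have hc : Real.cos (Real.pi - a - b) = Real.sin a * Real.sin b - Real.cos a * Real.cos b := by
    rw [sub_sub, Real.cos_pi_sub, Real.cos_add]; ring
  set X := Real.cos a / Real.sin a with hX
  set Y := Real.cos b / Real.sin b with hY
  set Z := Real.cos (Real.pi - a - b) / Real.sin (Real.pi - a - b) with hZ
  have e1 : X * Y + Y * Z + Z * X = 1 := by
    rw [hX, hY, hZ]
    field_simp
    rw [hs, hc]; ring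
  have e2 : X + Z = Real.sin b / (Real.sin a * Real.sin (Real.pi - a - b)) := by
    rw [hX, hZ]
    field_simp
    rw [hs, hc]
    have := Real.sin_sq_add_cos_sq a
    linear_combination (Real.sin b) * this
  have e3 : 0 < X + Z := by rw [e2]; positivity
  have e4 : (X + Z) * (da ^ 2 * X + db ^ 2 * Y + (da + db) ^ 2 * Z)
      = ((X + Z) * da + Z * db) ^ 2 + db ^ 2 := by
    linear_combination (db ^ 2) * e1
  have e5 : 0 < ((X + Z) * da + Z * db) ^ 2 + db ^ 2 := by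
    by_cases hb : db = 0
    · have ha : da ≠ 0 := by
        rcases hd with h | h
        · exact h
        · exact absurd hb h
      subst hb
      have : (X + Z) * da ≠ 0 := mul_ne_zero e3.ne' ha
      simp only [mul_zero, add_zero]
      positivity
    · positivity
  rw [← e4] at e5
  exact (mul_pos_iff_of_pos_left e3).mp e5

theorem F_concave {a b a' b' : ℝ} (h1 : 0 < a) (h2 : 0 < b) (h3 : a + b < Real.pi)
    (h1' : 0 < a') (h2' : 0 < b') (h3' : a' + b' < Real.pi) (hd : a' ≠ a ∨ b' ≠ b) :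
    F a' b' - F a b < G a b (a' - a) (b' - b) := by
  set da := a' - a with hda
  set db := b' - b with hdb
  have hd' : da ≠ 0 ∨ db ≠ 0 := by
    rcases hd with h | h
    · exact Or.inl (sub_ne_zero.mpr h)
    · exact Or.inr (sub_ne_zero.mpr h)
  have hA : ∀ t : ℝ, HasDerivAt (fun s => a + s * da) da t := fun t => by
    simpa using ((hasDerivAt_id t).mul_const da).const_add a
  have hB : ∀ t : ℝ, HasDerivAt (fun s => b + s * db) db t := fun t => by
    simpa using ((hasDerivAt_id t).mul_const db).const_add b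
  have hin : ∀ t ∈ Icc (0 : ℝ) 1, 0 < a + t * da ∧ 0 < b + t * db ∧
      (a + t * da) + (b + t * db) < Real.pi := by
    intro t ht
    obtain ⟨t0, t1⟩ := ht
    rw [hda, hdb]
    rcases eq_or_lt_of_le t0 with h | h
    · subst h; refine ⟨by linarith, by linarith, by linarith⟩
    · refine ⟨by nlinarith, by nlinarith, by nlinarith⟩
  have hF : ∀ t ∈ Icc (0 : ℝ) 1, HasDerivAt (fun s => F (a + s * da) (b + s * db))
      (G (a + t * da) (b + t * db) da db) t := fun t ht =>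
    F_hasDerivAt (hA t) (hB t) (hin t ht).1 (hin t ht).2.1 (hin t ht).2.2
  have hG : ∀ t ∈ Icc (0 : ℝ) 1, HasDerivAt (fun s => G (a + s * da) (b + s * db) da db)
      (-(da ^ 2 * (Real.cos (a + t * da) / Real.sin (a + t * da))
        + db ^ 2 * (Real.cos (b + t * db) / Real.sin (b + t * db))
        + (da + db) ^ 2 * (Real.cos (Real.pi - (a + t * da) - (b + t * db))
          / Real.sin (Real.pi - (a + t * da) - (b + t * db))))) t := by
    intro t ht
    obtain ⟨i1, i2, i3⟩ := hin t ht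
    have s1 : 0 < Real.sin (a + t * da) := Real.sin_pos_of_pos_of_lt_pi i1 (by linarith)
    have s2 : 0 < Real.sin (b + t * db) := Real.sin_pos_of_pos_of_lt_pi i2 (by linarith)
    have s3 : 0 < Real.sin (Real.pi - (a + t * da) - (b + t * db)) :=
      Real.sin_pos_of_pos_of_lt_pi (by linarith) (by linarith)
    have hc : HasDerivAt (fun s => Real.pi - (a + s * da) - (b + s * db)) (0 - da - db) t :=
      ((hasDerivAt_const t Real.pi).sub (hA t)).sub (hB t)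
    have l1 := ((hA t).sin).log s1.ne'
    have l2 := ((hB t).sin).log s2.ne'
    have l3 := (hc.sin).log s3.ne'
    have e := ((l1.sub l3).const_mul (-da)).sub ((l2.sub l3).const_mul db)
    refine HasDerivAt.congr_deriv e ?_
    ring
  obtain ⟨x, hx, hx2⟩ := exists_hasDerivAt_eq_slope (fun s => F (a + s * da) (b + s * db))
    (fun t => G (a + t * da) (b + t * db) da db) (zero_lt_one' ℝ)
    (fun t ht => (hF t ht).continuousAt.continuousWithinAt)
    (fun t ht => hF t (Ioo_subset_Icc_self ht))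
  have hsub : Icc (0 : ℝ) x ⊆ Icc 0 1 := Icc_subset_Icc le_rfl hx.2.le
  obtain ⟨y, hy, hy2⟩ := exists_hasDerivAt_eq_slope (fun s => G (a + s * da) (b + s * db) da db)
    _ hx.1 (fun t ht => (hG t (hsub ht)).continuousAt.continuousWithinAt)
    (fun t ht => hG t (hsub (Ioo_subset_Icc_self ht)))
  obtain ⟨i1, i2, i3⟩ := hin y (hsub (Ioo_subset_Icc_self hy))
  have hq := quad_pos i1 i2 i3 hd'
  have hneg : (G (a + x * da) (b + x * db) da db - G (a + 0 * da) (b + 0 * db) da db) / (x - 0)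
      < 0 := by rw [← hy2]; linarith
  have hx0 : 0 < x - 0 := by linarith [hx.1]
  have hlt := (div_neg_iff.mp hneg)
  have e1 : a + 1 * da = a' := by rw [hda]; ring
  have e2 : b + 1 * db = b' := by rw [hdb]; ring
  simp only [e1, e2, zero_mul, add_zero, sub_zero, div_one] at hx2 hlt
  rcases hlt with h | h
  · linarith [h.2, hx.1]
  · linarith [h.1]

theorem F_concave_le {a b a' b' : ℝ} (h1 : 0 < a) (h2 : 0 < b) (h3 : a + b < Real.pi)
    (h1' : 0 < a') (h2' : 0 < b') (h3' : a' + b' < Real.pi) :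
    F a' b' - F a b ≤ G a b (a' - a) (b' - b) := by
  by_cases hd : a' ≠ a ∨ b' ≠ b
  · exact (F_concave h1 h2 h3 h1' h2' h3' hd).le
  · push Not at hd
    rw [hd.1, hd.2]; simp [G]

theorem arg_pos_of_im {z : ℂ} (h : 0 < z.im) : 0 < arg z ∧ arg z < Real.pi := by
  refine ⟨lt_of_le_of_ne (arg_nonneg_iff.mpr h.le) ?_, arg_lt_pi_iff.mpr (Or.inr h.ne')⟩
  intro h0
  exact h.ne' (arg_eq_zero_iff.mp h0.symm).2

theorem tet_facts {z : ℂ} (h : 0 < z.im) :
    0 < (log z).im ∧ 0 < -(log (1 - z)).im ∧ (log z).im + -(log (1 - z)).im < Real.pi ∧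
    tetVol z = F (log z).im (-(log (1 - z)).im) ∧
    ∀ da db : ℝ, G (log z).im (-(log (1 - z)).im) da db
      = -da * (log (1 - z)).re - db * (log z).re := by
  have hz : z ≠ 0 := fun h0 => by rw [h0] at h; simp at h
  have hz1 : 1 - z ≠ 0 := fun h0 => by
    have := congrArg Complex.im h0
    simp at this; linarith
  have nz : 0 < ‖z‖ := norm_pos_iff.mpr hz
  have nz1 : 0 < ‖1 - z‖ := norm_pos_iff.mpr hz1
  have a1 := arg_pos_of_im h
  have hne : arg (1 - z) ≠ Real.pi := by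
    intro h0
    have := (arg_eq_pi_iff.mp h0).2
    simp at this; linarith
  have b0 : arg (1 / (1 - z)) = -arg (1 - z) := by
    rw [one_div, arg_inv, if_neg hne]
  have bim : 0 < (1 / (1 - z)).im := by
    rw [one_div, inv_im]
    have : 0 < normSq (1 - z) := normSq_pos.mpr hz1
    simp only [sub_im, one_im, zero_sub, neg_neg]
    positivity
  have b1 := arg_pos_of_im bim
  have cim : 0 < (1 - 1 / z).im := by
    rw [one_div, sub_im, inv_im]
    have : 0 < normSq z := normSq_pos.mpr hz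
    simp only [one_im, zero_sub, neg_div, neg_neg]
    positivity
  have c1 := arg_pos_of_im cim
  have c0 : arg (1 - 1 / z) = Real.pi - arg z - -arg (1 - z) := by
    have e1 := norm_mul_exp_arg_mul_I z
    have e2 := norm_mul_exp_arg_mul_I (1 - z)
    have e3 : (1 - 1 / z) = ((‖1 - z‖ / ‖z‖ : ℝ) : ℂ) *
        (cos ((Real.pi - arg z - -arg (1 - z) : ℝ) : ℂ)
          + sin ((Real.pi - arg z - -arg (1 - z) : ℝ) : ℂ) * I) := by
      rw [← exp_mul_I]
      have : (((Real.pi - arg z - -arg (1 - z) : ℝ) : ℂ)) * I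
          = Real.pi * I + (arg (1 - z) * I) - arg z * I := by push_cast; ring
      rw [this, exp_sub, exp_add, exp_pi_mul_I]
      have hn : ((‖z‖ : ℝ) : ℂ) ≠ 0 := by exact_mod_cast nz.ne'
      have he : cexp (arg z * I) ≠ 0 := exp_ne_zero _
      push_cast
      field_simp
      rw [mul_comm I]
      linear_combination (z - 1) * e1 + z * e2
    rw [e3]
    apply arg_mul_cos_add_sin_mul_I (by positivity)
    rw [b0] at b1
    constructor <;> linarith [a1.1, a1.2, b1.1, b1.2]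
  rw [log_im, log_im]
  rw [b0] at b1
  rw [c0] at c1
  refine ⟨a1.1, b1.1, by linarith [c1.1], ?_, ?_⟩
  · unfold tetVol F
    rw [b0, c0]
  · intro da db
    unfold G
    rw [← c0, ← b0, sin_arg, sin_arg, sin_arg, log_re, log_re]
    have n1 : ‖1 / (1 - z)‖ = 1 / ‖1 - z‖ := by simp
    have n2 : ‖1 - 1 / z‖ = ‖1 - z‖ / ‖z‖ := by
      have : 1 - 1 / z = -((1 - z) / z) := by field_simp; ring
      rw [this, norm_neg, norm_div]
    have i1 : (1 / (1 - z)).im = z.im / ‖1 - z‖ ^ 2 := by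
      rw [one_div, inv_im, normSq_eq_norm_sq]; simp
    have i2 : (1 - 1 / z).im = z.im / ‖z‖ ^ 2 := by
      rw [one_div, sub_im, inv_im, normSq_eq_norm_sq]; simp [neg_div]
    have s1 : (1 / (1 - z)).im / ‖1 / (1 - z)‖ = z.im / ‖1 - z‖ := by
      rw [i1, n1]; field_simp
    have s2 : (1 - 1 / z).im / ‖1 - 1 / z‖ = z.im / (‖z‖ * ‖1 - z‖) := by
      rw [i2, n2]; field_simp
    rw [s1, s2, Real.log_div h.ne' nz.ne', Real.log_div h.ne' nz1.ne',
      Real.log_div h.ne' (by positivity), Real.log_mul nz.ne' nz1.ne']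
    ring

theorem tet_le {z z' : ℂ} (h : 0 < z.im) (h' : 0 < z'.im) :
    tetVol z' - tetVol z ≤ -((log z').im - (log z).im) * (log (1 - z)).re
      + ((log (1 - z')).im - (log (1 - z)).im) * (log z).re := by
  obtain ⟨a1, a2, a3, a4, a5⟩ := tet_facts h
  obtain ⟨b1, b2, b3, b4, -⟩ := tet_facts h'
  have := F_concave_le a1 a2 a3 b1 b2 b3
  rw [a5, ← a4, ← b4] at this
  linarith

theorem edge_log {z w : ℂ} (hz : 0 < z.im) (hw : 0 < w.im) (h : z * (z - 1) * w * (w - 1) = 1) :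
    log z + log (1 - z) + log w + log (1 - w) = 0 := by
  obtain ⟨a1, a2, a3, -, -⟩ := tet_facts hz
  obtain ⟨b1, b2, b3, -, -⟩ := tet_facts hw
  have ne0 : ∀ x : ℂ, 0 < x.im → x ≠ 0 ∧ 1 - x ≠ 0 := fun x hx =>
    ⟨fun h0 => by rw [h0] at hx; simp at hx, fun h0 => by
      have := congrArg Complex.im h0
      simp at this; linarith⟩
  have e : cexp (log z + log (1 - z) + log w + log (1 - w)) = 1 := by
    rw [exp_add, exp_add, exp_add, exp_log (ne0 z hz).1, exp_log (ne0 z hz).2,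
      exp_log (ne0 w hw).1, exp_log (ne0 w hw).2]
    linear_combination h
  obtain ⟨n, hn⟩ := exp_eq_one_iff.mp e
  have him := congrArg Complex.im hn
  simp only [add_im] at him
  have h2 : ((n : ℂ) * (2 * Real.pi * I)).im = n * (2 * Real.pi) := by simp
  rw [h2] at him
  have hp := Real.pi_pos
  have n1 : (n : ℝ) < 1 := by
    by_contra hc; push Not at hc; nlinarith
  have n2 : (-1 : ℝ) < n := by
    by_contra hc; push Not at hc; nlinarith
  have n1' : n < 1 := by exact_mod_cast n1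
  have n2' : -1 < n := by exact_mod_cast n2
  have : n = 0 := by omega
  rw [hn, this]; simp

theorem fillVol_le {p q : ℤ} {v v' : ℝ} (h : FillVol p q v) (h' : FillVol p q v') : v' ≤ v := by
  obtain ⟨z, w, ⟨hz, hw, he, hf⟩, rfl⟩ := h
  obtain ⟨z', w', ⟨hz', hw', he', hf'⟩, rfl⟩ := h'
  have t1 := tet_le hz hz'
  have t2 := tet_le hw hw'
  have e1 := edge_log hz hw he
  have e2 := edge_log hz' hw' he'
  have r1 := congrArg Complex.re e1
  have i1 := congrArg Complex.im e1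
  have i2 := congrArg Complex.im e2
  have fr := congrArg Complex.re hf
  have fi := congrArg Complex.im hf
  have fi' := congrArg Complex.im hf'
  simp at r1 i1 i2 fr fi fi'
  set x1 := (log z).re
  set y1 := (log (1 - z)).re
  set x2 := (log w).re
  set y2 := (log (1 - w)).re
  set a1 := (log z).im
  set b1 := (log (1 - z)).im
  set a2 := (log w).im
  set b2 := (log (1 - w)).im
  set a1' := (log z').im
  set b1' := (log (1 - z')).im
  set a2' := (log w').im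
  set b2' := (log (1 - w')).im
  have key : (x1 + y1) * ((a2' + b1') - (a2 + b1)) - (x2 + y1) * ((a1' + b1') - (a1 + b1)) = 0 := by
    have hp := Real.pi_pos
    by_cases hp0 : (p : ℝ) = 0
    · have hq0 : (q : ℝ) ≠ 0 := by
        intro h0; rw [hp0, h0] at fi; linarith
      apply mul_left_cancel₀ hq0
      rw [hp0] at fr fi fi'
      linear_combination (1 / 2) * ((a2' + b1') - (a2 + b1)) * fr - (1 / 2) * (x2 + y1) * (fi' - fi)
    · apply mul_left_cancel₀ hp0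
      linear_combination (x1 + y1) * (fi' - fi) - ((a1' + b1') - (a1 + b1)) * fr
  have hy2 : y2 = -(x1 + y1 + x2) := by linarith
  have hb2 : b2 = -(a1 + b1 + a2) := by linarith
  have hb2' : b2' = -(a1' + b1' + a2') := by linarith
  rw [hy2, hb2, hb2'] at t2
  nlinarith

theorem fillVol_unique {p q : ℤ} {v v' : ℝ} (h : FillVol p q v) (h' : FillVol p q v') : v' = v :=
  le_antisymm (fillVol_le h h') (fillVol_le h' h)

noncomputable def V0 : ℝ := 2 * F (Real.pi / 3) (Real.pi / 3)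

theorem G_reg (da db : ℝ) : G (Real.pi / 3) (Real.pi / 3) da db = 0 := by
  unfold G
  have : Real.pi - Real.pi / 3 - Real.pi / 3 = Real.pi / 3 := by ring
  rw [this]; ring

theorem fillVol_lt {p q : ℤ} {v : ℝ} (h : FillVol p q v) : v < V0 := by
  obtain ⟨z, w, ⟨hz, hw, he, hf⟩, rfl⟩ := h
  obtain ⟨a1, a2, a3, a4, -⟩ := tet_facts hz
  obtain ⟨b1, b2, b3, b4, -⟩ := tet_facts hw
  have hp := Real.pi_pos
  have r1 : 0 < Real.pi / 3 := by linarith
  have r3 : Real.pi / 3 + Real.pi / 3 < Real.pi := by linarith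
  have l1 := F_concave_le r1 r1 r3 a1 a2 a3
  have l2 := F_concave_le r1 r1 r3 b1 b2 b3
  rw [G_reg] at l1 l2
  have fi := congrArg Complex.im hf
  simp at fi
  unfold V0
  rw [a4, b4]
  by_cases c1 : (log z).im ≠ Real.pi / 3 ∨ -(log (1 - z)).im ≠ Real.pi / 3
  · have := F_concave r1 r1 r3 a1 a2 a3 c1
    rw [G_reg] at this
    linarith
  · by_cases c2 : (log w).im ≠ Real.pi / 3 ∨ -(log (1 - w)).im ≠ Real.pi / 3
    · have := F_concave r1 r1 r3 b1 b2 b3 c2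
      rw [G_reg] at this
      linarith
    · exfalso
      push Not at c1 c2
      have e : (log (1 - z)).im = -(Real.pi / 3) := by linarith [c1.2]
      rw [c1.1, c2.1, e] at fi
      linarith

end Pool.Agent.P.MP_858e15_gt
end

-- part Pool.Agent.P.MP_858e15_gt.Local
section

namespace Pool.Agent.P.MP_858e15_gt

open Complex Set Filter Topology Asymptotics

noncomputable def s3 : ℝ := √3

theorem s3_sq : s3 ^ 2 = 3 := Real.sq_sqrt (by norm_num)

theorem s3_sqC : (s3 : ℂ) ^ 2 = 3 := by exact_mod_cast s3_sq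

theorem s3_pos : 0 < s3 := Real.sqrt_pos.mpr (by norm_num)

theorem s3_lt : s3 < 2 := by nlinarith [s3_sq, s3_pos]

theorem s3_gt : 1 < s3 := by nlinarith [s3_sq, s3_pos]

noncomputable def RR (u : ℂ) : ℂ := 3 + 4 * cosh u - 4 * cosh u ^ 2

noncomputable def SS (u : ℂ) : ℂ := cexp (log (RR u) / 2)

noncomputable def zf (u : ℂ) : ℂ := 1 / 2 - sinh u + I / 2 * SS u

noncomputable def wf (u : ℂ) : ℂ := 1 / 2 + sinh u + I / 2 * SS u

noncomputable def vf (u : ℂ) : ℂ := 2 * (log (zf u) + log (1 - zf u))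

noncomputable def tau : ℂ := 2 * s3 * I

noncomputable def P1 (u : ℂ) : ℂ := tau * (u + u ^ 3 / 3 + 23 / 180 * u ^ 5)

noncomputable def P0 (u : ℂ) : ℂ := tau * (u ^ 2 / 2 + u ^ 4 / 12 + 23 / 1080 * u ^ 6)

noncomputable def Vf (u : ℂ) : ℝ := tetVol (zf u) + tetVol (wf u)

theorem RR_zero : RR 0 = 3 := by simp [RR]

theorem SS_zero : SS 0 = s3 := by
  unfold SS s3
  rw [RR_zero]
  have : log (3 : ℂ) / 2 = ((Real.log 3 / 2 : ℝ) : ℂ) := by
    push_cast
    rw [Complex.ofReal_log (by norm_num)]; simp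
  rw [this, ← ofReal_exp, Real.exp_half, Real.exp_log (by norm_num)]

theorem RR_cont : Continuous RR := by unfold RR; fun_prop

theorem SS_contAt : ContinuousAt SS 0 := by
  unfold SS
  have h1 : ContinuousAt (fun u => log (RR u)) 0 := by
    apply ContinuousAt.clog RR_cont.continuousAt
    rw [RR_zero]; exact Or.inl (by simp)
  exact (h1.div_const 2).cexp

theorem SS_sq {u : ℂ} (h : 0 < (RR u).re) : SS u ^ 2 = RR u := by
  unfold SS
  have : RR u ≠ 0 := fun h0 => by rw [h0] at h; simp at h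
  rw [sq, ← exp_add, add_halves, exp_log this]

theorem SS_ne (u : ℂ) : SS u ≠ 0 := exp_ne_zero _

theorem SS_deriv {u : ℂ} (h : 0 < (RR u).re) :
    HasDerivAt SS ((2 - 4 * cosh u) * sinh u / SS u) u := by
  have h1 : HasDerivAt RR (4 * sinh u - 4 * (2 * cosh u * sinh u)) u := by
    unfold RR
    have hc := hasDerivAt_cosh u
    have := ((hc.const_mul 4).const_add 3).sub ((hc.pow 2).const_mul 4)
    refine HasDerivAt.congr_deriv this ?_
    simp
  have h2 := ((h1.clog (Or.inl h)).div_const 2).cexp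
  refine HasDerivAt.congr_deriv h2 ?_
  have e : cexp (log (RR u) / 2) = SS u := rfl
  rw [e, ← SS_sq h]
  have := SS_ne u
  field_simp
  ring

theorem exp_inj {a b : ℂ} (h : cexp a = cexp b) (h2 : |a.im - b.im| < 2 * Real.pi) : a = b := by
  obtain ⟨n, hn⟩ := exp_eq_exp_iff_exists_int.mp h
  have him := congrArg Complex.im hn
  have h3 : (b + (n : ℂ) * (2 * Real.pi * I)).im = b.im + n * (2 * Real.pi) := by simp
  rw [h3] at him
  have hp := Real.pi_pos
  rw [abs_lt] at h2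
  have n1 : (n : ℝ) < 1 := by
    by_contra hc; push Not at hc; nlinarith [h2.2]
  have n2 : (-1 : ℝ) < n := by
    by_contra hc; push Not at hc; nlinarith [h2.1]
  have n1' : n < 1 := by exact_mod_cast n1
  have n2' : -1 < n := by exact_mod_cast n2
  have : n = 0 := by omega
  rw [hn, this]; simp

theorem ne_of_im {x : ℂ} (hx : 0 < x.im) : x ≠ 0 ∧ 1 - x ≠ 0 :=
  ⟨fun h0 => by rw [h0] at hx; simp at hx, fun h0 => by
    have := congrArg Complex.im h0
    simp at this; linarith⟩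

def Good (u : ℂ) : Prop := 0 < (RR u).re ∧ 0 < (zf u).im ∧ 0 < (wf u).im ∧ ‖u‖ < 1

theorem good_ev : ∀ᶠ u in 𝓝 (0 : ℂ), Good u := by
  have h1 : ∀ᶠ u in 𝓝 (0 : ℂ), 0 < (RR u).re := by
    have : ContinuousAt (fun u => (RR u).re) 0 := (continuous_re.comp RR_cont).continuousAt
    apply this.eventually (lt_mem_nhds _)
    simp [RR_zero]
  have hS := SS_contAt
  have h2 : ∀ᶠ u in 𝓝 (0 : ℂ), 0 < (zf u).im := by
    have : ContinuousAt (fun u => (zf u).im) 0 := by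
      apply continuous_im.continuousAt.comp
      unfold zf; fun_prop
    apply this.eventually (lt_mem_nhds _)
    simp [zf, SS_zero, s3_pos]
  have h3 : ∀ᶠ u in 𝓝 (0 : ℂ), 0 < (wf u).im := by
    have : ContinuousAt (fun u => (wf u).im) 0 := by
      apply continuous_im.continuousAt.comp
      unfold wf; fun_prop
    apply this.eventually (lt_mem_nhds _)
    simp [wf, SS_zero, s3_pos]
  have h4 : ∀ᶠ u in 𝓝 (0 : ℂ), ‖u‖ < 1 := by
    have : ContinuousAt (fun u : ℂ => ‖u‖) 0 := continuous_norm.continuousAt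
    apply this.eventually (gt_mem_nhds _)
    simp
  filter_upwards [h1, h2, h3, h4] with u a b c d using ⟨a, b, c, d⟩

theorem good_edge {u : ℂ} (h : Good u) : zf u * (zf u - 1) * wf u * (wf u - 1) = 1 := by
  have e1 := SS_sq h.1
  have e2 := cosh_sq u
  have e3 := I_sq
  unfold RR at e1
  unfold zf wf
  set S := SS u
  set s := sinh u
  set c := cosh u
  have a1 : (1 / 2 - s + I / 2 * S) * (1 / 2 - s + I / 2 * S - 1)
      = -((2 + c - 2 * c ^ 2) + I * s * S) := by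
    linear_combination (S ^ 2 / 4) * e3 - (1 / 4) * e1 - e2
  have a2 : (1 / 2 + s + I / 2 * S) * (1 / 2 + s + I / 2 * S - 1)
      = -((2 + c - 2 * c ^ 2) - I * s * S) := by
    linear_combination (S ^ 2 / 4) * e3 - (1 / 4) * e1 - e2
  rw [mul_assoc, a1, a2]
  linear_combination (-(s ^ 2 * S ^ 2)) * e3 + s ^ 2 * e1 - (3 + 4 * c - 4 * c ^ 2) * e2

theorem good_u {u : ℂ} (h : Good u) : log (wf u) + log (1 - zf u) = u := by
  obtain ⟨a1, a2, a3, -, -⟩ := tet_facts h.2.1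
  obtain ⟨b1, b2, b3, -, -⟩ := tet_facts h.2.2.1
  apply exp_inj
  · rw [exp_add, exp_log (ne_of_im h.2.2.1).1, exp_log (ne_of_im h.2.1).2, ← cosh_add_sinh]
    have e1 := SS_sq h.1
    have e2 := cosh_sq u
    have e3 := I_sq
    unfold RR at e1
    unfold zf wf
    linear_combination (-(SS u ^ 2) / 4) * e3 + (1 / 4) * e1 - e2
  · have := abs_im_le_norm u
    have h4 := h.2.2.2
    have hp := Real.pi_gt_three
    rw [abs_le] at this
    rw [add_im, abs_lt]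
    constructor <;> linarith [this.1, this.2]

theorem zf_deriv {u : ℂ} (h : Good u) :
    HasDerivAt zf (-cosh u + I / 2 * ((2 - 4 * cosh u) * sinh u / SS u)) u := by
  unfold zf
  have := ((hasDerivAt_sinh u).const_sub (1 / 2)).add ((SS_deriv h.1).const_mul (I / 2))
  exact this

theorem vf_deriv {u : ℂ} (h : Good u) : HasDerivAt vf (2 * I * ((4 * cosh u - 1) / SS u)) u := by
  have hz := zf_deriv h
  have l1 := hz.clog (Or.inr h.2.1.ne')
  have l2 := (hz.const_sub 1).clog (Or.inr (by have := h.2.1; simp; linarith))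
  have := (l1.add l2).const_mul 2
  refine HasDerivAt.congr_deriv this ?_
  have n1 := (ne_of_im h.2.1).1
  have n2 := (ne_of_im h.2.1).2
  have n3 := SS_ne u
  have e1 := SS_sq h.1
  have e2 := cosh_sq u
  have e3 := I_sq
  unfold RR at e1
  field_simp
  unfold zf
  set S := SS u
  set s := sinh u
  set c := cosh u
  linear_combination (I * S ^ 2 * (4 * c - 1) / 2 - 4 * s * S * c) * e3
    + (I / 2) * e1 + (-(2 * I)) * e2

theorem cosh_taylor : (fun u : ℂ => cosh u - (1 + u ^ 2 / 2 + u ^ 4 / 24)) =O[𝓝 0]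
    fun u : ℂ => u ^ 6 := by
  apply IsBigO.of_bound 1
  filter_upwards [good_ev] with u hu
  have h1 := Complex.exp_bound hu.2.2.2.le (n := 6) (by norm_num)
  have h2 := Complex.exp_bound (x := -u) (by rw [norm_neg]; exact hu.2.2.2.le) (n := 6)
    (by norm_num)
  simp only [Finset.sum_range_succ, Finset.sum_range_zero, Nat.factorial] at h1 h2
  rw [norm_neg] at h2
  have e : cosh u - (1 + u ^ 2 / 2 + u ^ 4 / 24)
      = ((cexp u - (0 + u ^ 0 / 1 + u ^ 1 / 1 + u ^ 2 / 2 + u ^ 3 / 6 + u ^ 4 / 24 + u ^ 5 / 120))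
        + (cexp (-u) - (0 + (-u) ^ 0 / 1 + (-u) ^ 1 / 1 + (-u) ^ 2 / 2 + (-u) ^ 3 / 6
          + (-u) ^ 4 / 24 + (-u) ^ 5 / 120))) / 2 := by
    unfold Complex.cosh; ring
  rw [e, norm_div, norm_pow]
  norm_num at h1 h2 ⊢
  have h3 := norm_add_le (cexp u - (1 + u + u ^ 2 / 2 + u ^ 3 / 6 + u ^ 4 / 24 + u ^ 5 / 120))
    (cexp (-u) - (1 + -u + u ^ 2 / 2 + (-u) ^ 3 / 6 + u ^ 4 / 24 + (-u) ^ 5 / 120))
  have h4 : 0 ≤ ‖u‖ ^ 6 := by positivity
  linarith

theorem deriv_taylor : (fun u : ℂ => 2 * I * ((4 * cosh u - 1) / SS u)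
    - tau * (1 + u ^ 2 + 23 / 36 * u ^ 4)) =O[𝓝 0] fun u : ℂ => u ^ 6 := by
  have hS := SS_contAt
  set den : ℂ → ℂ := fun u => SS u * ((4 * cosh u - 1) + s3 * (1 + u ^ 2 + 23 / 36 * u ^ 4) * SS u)
    with hden
  have hd : ContinuousAt den 0 := by rw [hden]; fun_prop
  have hd0 : den 0 ≠ 0 := by
    have h3 : (s3 : ℂ) ≠ 0 := by exact_mod_cast s3_pos.ne'
    have : den 0 = s3 * 6 := by
      simp only [hden, SS_zero, cosh_zero]
      linear_combination (s3 : ℂ) * s3_sqC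
    rw [this]; exact mul_ne_zero h3 (by norm_num)
  set g1 : ℂ → ℂ := fun u => 2 * I * (31 / 3 + 937 / 72 * u ^ 2 + 875 / 108 * u ^ 4
    + 2741 / 1296 * u ^ 6 + 299 / 1296 * u ^ 8 + 529 / 62208 * u ^ 10) / den u with hg1
  set g2 : ℂ → ℂ := fun u => 2 * I * (16 * (cosh u + (1 + u ^ 2 / 2 + u ^ 4 / 24)) - 8
    - 3 * (1 + u ^ 2 + 23 / 36 * u ^ 4) ^ 2 * (4 - 4 * (cosh u + (1 + u ^ 2 / 2 + u ^ 4 / 24))))
      / den u with hg2
  have c1 : ContinuousAt g1 0 := by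
    rw [hg1]; apply ContinuousAt.div _ hd hd0; fun_prop
  have c2 : ContinuousAt g2 0 := by
    rw [hg2]; apply ContinuousAt.div _ hd hd0; fun_prop
  have o1 : (fun u : ℂ => u ^ 6 * g1 u) =O[𝓝 0] fun u : ℂ => u ^ 6 := by
    simpa using (isBigO_refl (fun u : ℂ => u ^ 6) (𝓝 0)).mul (c1.tendsto.isBigO_one ℂ)
  have o2 : (fun u : ℂ => (cosh u - (1 + u ^ 2 / 2 + u ^ 4 / 24)) * g2 u) =O[𝓝 0]
      fun u : ℂ => u ^ 6 := by
    simpa using cosh_taylor.mul (c2.tendsto.isBigO_one ℂ)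
  refine (o1.add o2).congr' ?_ EventuallyEq.rfl
  filter_upwards [good_ev, hd.eventually_ne hd0] with u hu hne
  have e1 := SS_sq hu.1
  unfold RR at e1
  have n3 := SS_ne u
  have n4 : (4 * cosh u - 1) + s3 * (1 + u ^ 2 + 23 / 36 * u ^ 4) * SS u ≠ 0 :=
    right_ne_zero_of_mul hne
  have key : 2 * I * ((4 * cosh u - 1) / SS u) - tau * (1 + u ^ 2 + 23 / 36 * u ^ 4)
      = 2 * I * ((4 * cosh u - 1) ^ 2 - 3 * (1 + u ^ 2 + 23 / 36 * u ^ 4) ^ 2
        * (3 + 4 * cosh u - 4 * cosh u ^ 2)) / den u := by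
    rw [eq_div_iff hne, ← e1, ← s3_sqC]
    simp only [hden, tau]
    field_simp
    ring
  rw [key]
  simp only [hg1, hg2]
  rw [← mul_div_assoc, ← mul_div_assoc, ← add_div]
  congr 1
  ring

theorem zf_zero_norm : ‖zf 0‖ = 1 ∧ ‖1 - zf 0‖ = 1 := by
  have h := s3_sq
  constructor
  · rw [← sq_eq_sq₀ (norm_nonneg _) zero_le_one, ← normSq_eq_norm_sq, normSq_apply]
    simp [zf, SS_zero]; nlinarith
  · rw [← sq_eq_sq₀ (norm_nonneg _) zero_le_one, ← normSq_eq_norm_sq, normSq_apply]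
    simp [zf, SS_zero]; nlinarith

theorem good_zero : Good 0 := good_ev.self_of_nhds

theorem vf_zero : vf 0 = 0 := by
  have h := good_u good_zero
  have : wf 0 = zf 0 := by simp [wf, zf]
  rw [this] at h
  unfold vf
  rw [h, mul_zero]

theorem Vf_zero : Vf 0 = V0 := by
  have hw : wf 0 = zf 0 := by simp [wf, zf]
  obtain ⟨a1, a2, a3, a4, a5⟩ := tet_facts good_zero.2.1
  have hp := Real.pi_pos
  have r1 : 0 < Real.pi / 3 := by linarith
  have r3 : Real.pi / 3 + Real.pi / 3 < Real.pi := by linarith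
  have l1 := F_concave_le r1 r1 r3 a1 a2 a3
  have l2 := F_concave_le a1 a2 a3 r1 r1 r3
  rw [G_reg] at l1
  rw [a5, log_re, log_re, zf_zero_norm.1, zf_zero_norm.2, Real.log_one] at l2
  unfold Vf V0
  rw [hw, a4]
  linarith

theorem im_deriv {f : ℂ → ℂ} {f' u : ℂ} {t : ℝ} (h : HasDerivAt f f' (t * u)) :
    HasDerivAt (fun s : ℝ => (f (s * u)).im) (f' * u).im t := by
  have h1 : HasDerivAt (fun x : ℂ => f (x * u)) (f' * u) (t : ℂ) := by
    have := h.comp (t : ℂ) ((hasDerivAt_id (t : ℂ)).mul_const u)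
    simpa [Function.comp_def] using this
  exact imCLM.hasFDerivAt.comp_hasDerivAt t h1.comp_ofReal

theorem re_deriv {f : ℂ → ℂ} {f' u : ℂ} {t : ℝ} (h : HasDerivAt f f' (t * u)) :
    HasDerivAt (fun s : ℝ => (f (s * u)).re) (f' * u).re t := by
  have h1 : HasDerivAt (fun x : ℂ => f (x * u)) (f' * u) (t : ℂ) := by
    have := h.comp (t : ℂ) ((hasDerivAt_id (t : ℂ)).mul_const u)
    simpa [Function.comp_def] using this
  exact reCLM.hasFDerivAt.comp_hasDerivAt t h1.comp_ofReal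

theorem good_logs {u : ℂ} (h : Good u) :
    log (1 - zf u) = vf u / 2 - log (zf u) ∧ log (wf u) = log (zf u) + u - vf u / 2 ∧
      log (1 - wf u) = -(log (zf u) + u) := by
  have e1 := good_u h
  have e2 := edge_log h.2.1 h.2.2.1 (good_edge h)
  unfold vf
  refine ⟨by ring, by linear_combination e1, by linear_combination e2 - e1⟩

theorem Vf_eq {u : ℂ} (h : Good u) :
    Vf u = F (log (zf u)).im (log (zf u) - vf u / 2).im
      + F (log (zf u) + u - vf u / 2).im (log (zf u) + u).im := by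
  obtain ⟨-, -, -, a4, -⟩ := tet_facts h.2.1
  obtain ⟨-, -, -, b4, -⟩ := tet_facts h.2.2.1
  obtain ⟨e1, e2, e3⟩ := good_logs h
  unfold Vf
  rw [a4, b4, e1, e2, e3]
  congr 2
  · simp
  · simp

theorem Vf_deriv {u : ℂ} {t : ℝ} {v' : ℂ} (hg : ∀ᶠ s : ℝ in 𝓝 t, Good (s * u))
    (hv : HasDerivAt vf v' (t * u)) :
    HasDerivAt (fun s : ℝ => Vf (s * u))
      ((u.im * (vf (t * u)).re - (v' * u).im * ((t : ℂ) * u).re) / 2) t := by
  have h := hg.self_of_nhds
  have hz := (zf_deriv h).clog (Or.inr h.2.1.ne')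
  set l' := (-cosh (t * u) + I / 2 * ((2 - 4 * cosh (t * u)) * sinh (t * u) / SS (t * u)))
    / zf (t * u)
  have d1 := im_deriv hz
  have d2 := im_deriv (hz.sub (hv.div_const 2))
  have d3 := im_deriv ((hz.add (hasDerivAt_id _)).sub (hv.div_const 2))
  have d4 := im_deriv (hz.add (hasDerivAt_id _))
  obtain ⟨a1, a2, a3, -, a5⟩ := tet_facts h.2.1
  obtain ⟨b1, b2, b3, -, b5⟩ := tet_facts h.2.2.1
  obtain ⟨e1, e2, e3⟩ := good_logs h
  have f1 : -(log (1 - zf (t * u))).im = (log (zf (t * u)) - vf (t * u) / 2).im := by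
    rw [e1]; simp
  have f2 : -(log (1 - wf (t * u))).im = (log (zf (t * u)) + t * u).im := by
    rw [e3]; simp
  rw [f1] at a2 a3 a5
  rw [f2, e2] at b3 b5
  rw [f2] at b2
  rw [e2] at b1
  have k1 := F_hasDerivAt d1 d2 a1 a2 a3
  have k2 := F_hasDerivAt d3 d4 b1 b2 b3
  have k := k1.add k2
  have heq : (fun s : ℝ => Vf (s * u)) =ᶠ[𝓝 t] _ := hg.mono fun s hs => Vf_eq hs
  refine HasDerivAt.congr_deriv (k.congr_of_eventuallyEq heq) ?_
  simp only [Pi.sub_apply, Pi.add_apply, id]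
  rw [a5, b5, e1, e3]
  simp only [sub_mul, add_mul, one_mul, add_im, sub_im, add_re, sub_re, neg_re, div_ofNat_re,
    div_mul_eq_mul_div, div_ofNat_im]
  ring

theorem norm_tau : ‖tau‖ ≤ 4 := by
  unfold tau
  rw [norm_mul, norm_mul, norm_I, norm_real, Real.norm_eq_abs, abs_of_pos s3_pos]
  simp; linarith [s3_lt]

theorem P1_deriv (u : ℂ) : HasDerivAt P1 (tau * (1 + u ^ 2 + 23 / 36 * u ^ 4)) u := by
  unfold P1
  have h := hasDerivAt_id u
  have := (((h.add ((h.pow 3).div_const 3)).add ((h.pow 5).const_mul (23 / 180)))).const_mul tau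
  refine HasDerivAt.congr_deriv this ?_
  simp only [id]; push_cast; ring

theorem P0_deriv (u : ℂ) : HasDerivAt P0 (P1 u) u := by
  unfold P0 P1
  have h := hasDerivAt_id u
  have := (((((h.pow 2).div_const 2).add ((h.pow 4).div_const 12)).add
    ((h.pow 6).const_mul (23 / 1080)))).const_mul tau
  refine HasDerivAt.congr_deriv this ?_
  simp only [id]; push_cast; ring

theorem local_data : ∃ r C : ℝ, 0 < r ∧ r ≤ 1 ∧ 0 < C ∧
    (∀ u : ℂ, ‖u‖ < r → Good u ∧ ‖vf u - P1 u‖ ≤ C * ‖u‖ ^ 7 ∧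
      |Vf u - V0 - ((P0 u).im - u.re * (vf u).im) / 2| ≤ C * ‖u‖ ^ 8) ∧
    (∀ (ρ : ℝ) (x y : ℂ), ρ < r → ‖x‖ ≤ ρ → ‖y‖ ≤ ρ →
      ‖(vf y - tau * y) - (vf x - tau * x)‖ ≤ C * ρ ^ 2 * ‖y - x‖) := by
  obtain ⟨C, hC, hb⟩ := deriv_taylor.exists_pos
  obtain ⟨r0, hr0, hr⟩ := Metric.eventually_nhds_iff.mp (good_ev.and hb.bound)
  have hr' : ∀ u : ℂ, ‖u‖ < r0 → Good u ∧ ‖2 * I * ((4 * cosh u - 1) / SS u)
      - tau * (1 + u ^ 2 + 23 / 36 * u ^ 4)‖ ≤ C * ‖u‖ ^ 6 := by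
    intro u hu
    have := hr (y := u) (by simpa using hu)
    rw [norm_pow] at this
    exact this
  have h7 : ∀ u : ℂ, ‖u‖ < r0 → ‖vf u - P1 u‖ ≤ C * ‖u‖ ^ 7 := by
    intro u hu
    have := (convex_closedBall (0 : ℂ) ‖u‖).norm_image_sub_le_of_norm_hasDerivWithin_le
      (f := fun x => vf x - P1 x) (C := C * ‖u‖ ^ 6) (x := 0) (y := u)
      (f' := fun x => 2 * I * ((4 * cosh x - 1) / SS x) - tau * (1 + x ^ 2 + 23 / 36 * x ^ 4))
      (fun x hx => by
        have hx' : ‖x‖ ≤ ‖u‖ := by simpa using hx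
        exact ((vf_deriv (hr' x (by linarith)).1).sub (P1_deriv x)).hasDerivWithinAt)
      (fun x hx => by
        have hx' : ‖x‖ ≤ ‖u‖ := by simpa using hx
        refine (hr' x (by linarith)).2.trans ?_
        gcongr)
      (by simp) (by simp)
    simp only [vf_zero, P1, sub_zero] at this ⊢
    norm_num at this
    calc _ ≤ C * ‖u‖ ^ 6 * ‖u‖ := this
      _ = C * ‖u‖ ^ 7 := by ring
  refine ⟨min r0 1, C + 8, lt_min hr0 one_pos, min_le_right _ _, by linarith, ?_, ?_⟩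
  · intro u hu
    have hu0 : ‖u‖ < r0 := lt_of_lt_of_le hu (min_le_left _ _)
    refine ⟨(hr' u hu0).1, (h7 u hu0).trans (by gcongr; linarith), ?_⟩
    have hn : ∀ t : ℝ, ‖(t : ℂ) * u‖ = |t| * ‖u‖ := fun t => by simp
    have hle : ∀ t ∈ Icc (0 : ℝ) 1, ‖(t : ℂ) * u‖ ≤ ‖u‖ := fun t ht => by
      rw [hn, abs_of_nonneg ht.1]
      exact mul_le_of_le_one_left (norm_nonneg _) ht.2
    have hd : ∀ t ∈ Icc (0 : ℝ) 1, HasDerivWithinAt
        (fun s : ℝ => Vf (s * u) - ((P0 (s * u)).im - ((s : ℂ) * u).re * (vf (s * u)).im) / 2)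
        (((vf (t * u) - P1 (t * u)) * u).im / 2) (Icc 0 1) t := by
      intro t ht
      have hlt : ‖(t : ℂ) * u‖ < r0 := lt_of_le_of_lt (hle t ht) hu0
      have hev : ∀ᶠ s : ℝ in 𝓝 t, Good (s * u) := by
        have hc : ContinuousAt (fun s : ℝ => ‖(s : ℂ) * u‖) t := by fun_prop
        exact (hc.eventually (gt_mem_nhds hlt)).mono fun s hs => (hr' _ hs).1
      have hv := vf_deriv (hr' _ hlt).1
      have d1 := Vf_deriv hev hv
      have d2 := im_deriv (P0_deriv (t * u))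
      have d3 := re_deriv (hasDerivAt_id ((t : ℂ) * u))
      have d4 := im_deriv hv
      have d := d1.sub ((d2.sub (d3.mul d4)).div_const 2)
      refine (HasDerivAt.congr_deriv d ?_).hasDerivWithinAt
      simp only [id, one_mul, sub_mul, sub_im, mul_im (vf (t * u)) u]
      ring
    have hm := norm_image_sub_le_of_norm_deriv_le_segment_01' (C := C * ‖u‖ ^ 8) hd (by
      intro t ht
      have h1 := hle t (Ico_subset_Icc_self ht)
      have h2 := h7 _ (lt_of_le_of_lt h1 hu0)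
      have h3 := abs_im_le_norm ((vf (t * u) - P1 (t * u)) * u)
      rw [norm_mul] at h3
      have h4 : ‖vf (t * u) - P1 (t * u)‖ * ‖u‖ ≤ C * ‖u‖ ^ 7 * ‖u‖ := by
        refine mul_le_mul_of_nonneg_right (h2.trans ?_) (norm_nonneg _)
        gcongr
      rw [Real.norm_eq_abs, abs_div, abs_two]
      have h5 : C * ‖u‖ ^ 7 * ‖u‖ = C * ‖u‖ ^ 8 := by ring
      have h6 : 0 ≤ C * ‖u‖ ^ 8 := by positivity
      linarith)
    simp only [ofReal_one, one_mul, ofReal_zero, zero_mul, Vf_zero, P0, Real.norm_eq_abs] at hm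
    norm_num at hm
    have h6 : C * ‖u‖ ^ 8 ≤ (C + 8) * ‖u‖ ^ 8 := by gcongr; linarith
    refine le_trans (le_of_eq ?_) (hm.trans h6)
    congr 1
    simp only [P0]
    norm_num
    ring
  · intro ρ x y hρ hx hy
    have hρ0 : ρ < r0 := lt_of_lt_of_le hρ (min_le_left _ _)
    have hρ1 : ρ ≤ 1 := (lt_of_lt_of_le hρ (min_le_right _ _)).le
    have hρn : 0 ≤ ρ := (norm_nonneg _).trans hx
    exact (convex_closedBall (0 : ℂ) ρ).norm_image_sub_le_of_norm_hasDerivWithin_le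
      (f := fun x => vf x - tau * x) (C := (C + 8) * ρ ^ 2) (x := x) (y := y)
      (f' := fun x => 2 * I * ((4 * cosh x - 1) / SS x) - tau * 1)
      (fun a ha => by
        have ha' : ‖a‖ ≤ ρ := by simpa using ha
        exact ((vf_deriv (hr' a (by linarith)).1).sub
          ((hasDerivAt_id a).const_mul tau)).hasDerivWithinAt)
      (fun a ha => by
        have ha' : ‖a‖ ≤ ρ := by simpa using ha
        have h1 := (hr' a (by linarith)).2
        have e : 2 * I * ((4 * cosh a - 1) / SS a) - tau * 1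
            = (2 * I * ((4 * cosh a - 1) / SS a) - tau * (1 + a ^ 2 + 23 / 36 * a ^ 4))
              + tau * (a ^ 2 + 23 / 36 * a ^ 4) := by ring
        have h2 : ‖a‖ ^ 2 ≤ ρ ^ 2 := by gcongr
        have h3 : ‖a‖ ^ 4 ≤ ρ ^ 2 :=
          (pow_le_pow_of_le_one (norm_nonneg _) (ha'.trans hρ1) (by norm_num)).trans h2
        have h4 : ‖a‖ ^ 6 ≤ ρ ^ 2 :=
          (pow_le_pow_of_le_one (norm_nonneg _) (ha'.trans hρ1) (by norm_num)).trans h2
        have h5 : ‖a ^ 2 + 23 / 36 * a ^ 4‖ ≤ 2 * ρ ^ 2 := by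
          refine (norm_add_le _ _).trans ?_
          rw [norm_mul, norm_pow, norm_pow]
          have : ‖(23 / 36 : ℂ)‖ = 23 / 36 := by simp
          rw [this]
          have : 0 ≤ ‖a‖ ^ 4 := by positivity
          linarith
        have h6 : ‖tau * (a ^ 2 + 23 / 36 * a ^ 4)‖ ≤ 4 * (2 * ρ ^ 2) := by
          rw [norm_mul]
          exact mul_le_mul norm_tau h5 (norm_nonneg _) (by norm_num)
        have h7 : C * ‖a‖ ^ 6 ≤ C * ρ ^ 2 := by gcongr
        rw [e]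
        refine (norm_add_le _ _).trans ?_
        linarith)
      (by simpa using hx) (by simpa using hy)

end Pool.Agent.P.MP_858e15_gt
end

-- part Pool.Agent.P.MP_858e15_gt.Expand
section

namespace Pool.Agent.P.MP_858e15_gt

open Complex Set

noncomputable def MM (n k : ℝ) : ℝ :=
  -1 / n + 2 * Real.pi ^ 2 / 3 * (2 * k ^ 2 - 1) / n ^ 2
    - 32 * Real.pi ^ 4 * (-7 / 1080 * (4 * k ^ 3 - 3 * k) + (8 * k ^ 4 - 8 * k ^ 2 + 1) / 36) / n ^ 3

theorem rem_bound {u0 e η lam : ℂ} {C ρ : ℝ} (hC : 1 ≤ C) (h0 : ‖u0‖ ≤ ρ)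
    (h1 : ‖u0 - e‖ ≤ ρ) (he : ‖e‖ ≤ C * ρ ^ 3) (hη : ‖η‖ ≤ 9 * C * ρ ^ 4) (hl : ‖lam‖ ≤ 1) :
    ‖tau * (e ^ 2 * (6 * u0 ^ 2 - 4 * u0 * e + e ^ 2)) / 12
      + tau * (23 / 1080 * ((u0 - e) ^ 6 - u0 ^ 6)) + lam * η ^ 2 / 2‖ ≤ 48 * C ^ 2 * ρ ^ 8 := by
  have hρ : 0 ≤ ρ := (norm_nonneg _).trans h0
  have he2 : ‖e‖ ≤ 2 * ρ := by
    have : e = u0 - (u0 - e) := by ring
    rw [this]; refine (norm_sub_le _ _).trans ?_; linarith
  have ht := norm_tau
  have b1 : ‖6 * u0 ^ 2 - 4 * u0 * e + e ^ 2‖ ≤ 18 * ρ ^ 2 := by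
    refine (norm_add_le _ _).trans ?_
    refine (add_le_add_left (norm_sub_le _ _) _).trans ?_
    simp only [norm_mul, norm_pow, Complex.norm_ofNat]
    have x1 : ‖u0‖ ^ 2 ≤ ρ ^ 2 := by gcongr
    have x2 : ‖u0‖ * ‖e‖ ≤ ρ * (2 * ρ) := by gcongr
    have x3 : ‖e‖ ^ 2 ≤ (2 * ρ) ^ 2 := by gcongr
    nlinarith
  have t1 : ‖tau * (e ^ 2 * (6 * u0 ^ 2 - 4 * u0 * e + e ^ 2)) / 12‖ ≤ 6 * C ^ 2 * ρ ^ 8 := by
    rw [norm_div, norm_mul, norm_mul, norm_pow, Complex.norm_ofNat]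
    calc _ ≤ 4 * ((C * ρ ^ 3) ^ 2 * (18 * ρ ^ 2)) / 12 := by gcongr
      _ = 6 * C ^ 2 * ρ ^ 8 := by ring
  have b2 : ‖(u0 - e) ^ 6 - u0 ^ 6‖ ≤ C * ρ ^ 3 * (6 * ρ ^ 5) := by
    set u := u0 - e with hu
    have : u ^ 6 - u0 ^ 6 = -e * (u ^ 5 + u ^ 4 * u0 + u ^ 3 * u0 ^ 2 + u ^ 2 * u0 ^ 3
        + u * u0 ^ 4 + u0 ^ 5) := by rw [hu]; ring
    rw [this, norm_mul, norm_neg]
    refine mul_le_mul he ?_ (norm_nonneg _) (by positivity)
    calc _ ≤ ‖u ^ 5‖ + ‖u ^ 4 * u0‖ + ‖u ^ 3 * u0 ^ 2‖ + ‖u ^ 2 * u0 ^ 3‖ + ‖u * u0 ^ 4‖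
          + ‖u0 ^ 5‖ := by
          refine (norm_add_le _ _).trans (add_le_add_left ?_ _)
          refine (norm_add_le _ _).trans (add_le_add_left ?_ _)
          refine (norm_add_le _ _).trans (add_le_add_left ?_ _)
          refine (norm_add_le _ _).trans (add_le_add_left ?_ _)
          exact norm_add_le _ _
      _ ≤ ρ ^ 5 + ρ ^ 4 * ρ + ρ ^ 3 * ρ ^ 2 + ρ ^ 2 * ρ ^ 3 + ρ * ρ ^ 4 + ρ ^ 5 := by
          simp only [norm_mul, norm_pow]
          gcongr
      _ = 6 * ρ ^ 5 := by ring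
  have t2 : ‖tau * (23 / 1080 * ((u0 - e) ^ 6 - u0 ^ 6))‖ ≤ C ^ 2 * ρ ^ 8 := by
    rw [norm_mul, norm_mul]
    have : ‖(23 / 1080 : ℂ)‖ = 23 / 1080 := by simp
    rw [this]
    have x : C * ρ ^ 8 ≤ C ^ 2 * ρ ^ 8 := by gcongr; nlinarith
    have y : 0 ≤ C * ρ ^ 8 := by positivity
    calc _ ≤ 4 * (23 / 1080 * (C * ρ ^ 3 * (6 * ρ ^ 5))) := by gcongr
      _ = 552 / 1080 * (C * ρ ^ 8) := by ring
      _ ≤ _ := by linarith
  have t3 : ‖lam * η ^ 2 / 2‖ ≤ 81 / 2 * C ^ 2 * ρ ^ 8 := by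
    rw [norm_div, norm_mul, norm_pow, Complex.norm_ofNat]
    calc _ ≤ 1 * (9 * C * ρ ^ 4) ^ 2 / 2 := by gcongr
      _ = _ := by ring
  have y : 0 ≤ C ^ 2 * ρ ^ 8 := by positivity
  refine (norm_add_le _ _).trans ?_
  refine (add_le_add_left (norm_add_le _ _) _).trans ?_
  linarith

theorem main_im {a b t : ℝ} (hn : a ^ 2 + b ^ 2 ≠ 0) {u0 B : ℂ} (hB : B = a - b * I)
    (hu : u0 = ((t / (a ^ 2 + b ^ 2) : ℝ) : ℂ) * I * B) :
    (I * u0 ^ 4 / 12 + I * (23 / 1080 * u0 ^ 6)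
      + ((b / (a ^ 2 + b ^ 2) : ℝ) : ℂ) * B * u0 ^ 6 / 18).im
    = t ^ 4 * (2 * ((a ^ 2 - b ^ 2) / (a ^ 2 + b ^ 2)) ^ 2 - 1) / (12 * (a ^ 2 + b ^ 2) ^ 2)
      - t ^ 6 * (-7 / 1080 * (4 * ((a ^ 2 - b ^ 2) / (a ^ 2 + b ^ 2)) ^ 3
          - 3 * ((a ^ 2 - b ^ 2) / (a ^ 2 + b ^ 2)))
        + (8 * ((a ^ 2 - b ^ 2) / (a ^ 2 + b ^ 2)) ^ 4
          - 8 * ((a ^ 2 - b ^ 2) / (a ^ 2 + b ^ 2)) ^ 2 + 1) / 36) / (a ^ 2 + b ^ 2) ^ 3 := by
  have r4 : (B ^ 4).re = a ^ 4 - 6 * a ^ 2 * b ^ 2 + b ^ 4 := by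
    rw [hB]; simp [pow_succ]; ring
  have r6 : (B ^ 6).re = a ^ 6 - 15 * a ^ 4 * b ^ 2 + 15 * a ^ 2 * b ^ 4 - b ^ 6 := by
    rw [hB]; simp [pow_succ]; ring
  have i7 : (B ^ 7).im = -(7 * a ^ 6 * b - 35 * a ^ 4 * b ^ 3 + 21 * a ^ 2 * b ^ 5 - b ^ 7) := by
    rw [hB]; simp [pow_succ]; ring
  set n := a ^ 2 + b ^ 2 with hn'
  have e : I * u0 ^ 4 / 12 + I * (23 / 1080 * u0 ^ 6) + ((b / n : ℝ) : ℂ) * B * u0 ^ 6 / 18
      = (((t / n) ^ 4 / 12 : ℝ) : ℂ) * (I * B ^ 4) - ((23 / 1080 * (t / n) ^ 6 : ℝ) : ℂ) * (I * B ^ 6)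
        - ((b / n * (t / n) ^ 6 / 18 : ℝ) : ℂ) * B ^ 7 := by
    have i4 : I ^ 4 = 1 := I_pow_four
    have i6 : I ^ 6 = -1 := by
      rw [show (6 : ℕ) = 4 + 2 from rfl, pow_add, i4, I_sq]; ring
    rw [hu]
    simp only [mul_pow, i4, i6]
    push_cast
    ring
  rw [e, sub_im, sub_im, im_ofReal_mul, im_ofReal_mul, im_ofReal_mul, I_mul_im, I_mul_im, r4, r6,
    i7]
  field_simp
  rw [hn']
  ring

theorem id_aux {t u0 e η lam h u : ℂ} (hu : u = u0 - e) (he : e = lam * h)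
    (hη : η = h - t * u0 ^ 3 / 3) :
    t * (u ^ 2 / 2 + u ^ 4 / 12 + 23 / 1080 * u ^ 6) = t * u ^ 2 / 2 - e * h / 2
      + ((t * u0 ^ 4 / 12 + t * (23 / 1080 * u0 ^ 6) - lam * t ^ 2 * u0 ^ 6 / 18)
        + (t * (e ^ 2 * (6 * u0 ^ 2 - 4 * u0 * e + e ^ 2)) / 12
          + t * (23 / 1080 * ((u0 - e) ^ 6 - u0 ^ 6)) + lam * η ^ 2 / 2)) := by
  subst hu hη
  linear_combination (-(t * u0 ^ 3 / 3) + h / 2) * he

theorem lin_aux {p q n : ℝ} {u v u0 e : ℂ} (hn : n = p ^ 2 + 12 * q ^ 2) (n0 : n ≠ 0)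
    (hre : p * u.re + q * v.re = 0) (him : p * u.im + q * v.im = 2 * Real.pi)
    (hX : u0.re * n = 2 * Real.pi * (2 * s3 * q)) (hY : u0.im * n = 2 * Real.pi * p)
    (hu : u = u0 - e) :
    (tau * u ^ 2 / 2 - e * (v - tau * u) / 2).im - u.re * v.im = -(4 * s3 * Real.pi ^ 2 / n) := by
  have e1 : e = u0 - u := by rw [hu]; ring
  have tr : tau.re = 0 := by simp [tau]
  have ti : tau.im = 2 * s3 := by simp [tau]
  rw [e1]
  simp only [sq, sub_im, div_ofNat_im, mul_im, mul_re, sub_re, tr, ti]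
  apply mul_left_cancel₀ (mul_ne_zero two_ne_zero n0)
  have e2 : 2 * n * -(4 * s3 * (Real.pi * Real.pi) / n) = -(8 * s3 * Real.pi ^ 2) := by
    field_simp; ring
  rw [e2]
  linear_combination (12 * q * u.im - p * v.im) * hre
    + (p * v.re - 12 * q * u.re - 4 * Real.pi * s3) * him + 8 * Real.pi * q * u.re * s3_sq
    - (v.im - 2 * s3 * u.re) * hX - (v.re + 2 * s3 * u.im) * hY
    + (u.im * v.re - u.re * v.im) * hn

set_option maxHeartbeats 1000000 in
theorem expansion : ∃ C N0 : ℝ, 0 < C ∧ 1 ≤ N0 ∧ ∀ p q : ℤ, N0 ≤ (p : ℝ) ^ 2 + 12 * (q : ℝ) ^ 2 →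
    ∃ v : ℝ, FillVol p q v ∧
      |(v - V0) / (2 * s3 * Real.pi ^ 2)
        - MM ((p : ℝ) ^ 2 + 12 * (q : ℝ) ^ 2)
          (((p : ℝ) ^ 2 - 12 * (q : ℝ) ^ 2) / ((p : ℝ) ^ 2 + 12 * (q : ℝ) ^ 2))|
        ≤ C / ((p : ℝ) ^ 2 + 12 * (q : ℝ) ^ 2) ^ 4 := by
  obtain ⟨r, C0, hr, hr1, hC0, hA, hL⟩ := local_data
  obtain ⟨C, hCdef⟩ : ∃ C, C = C0 + 1 := ⟨_, rfl⟩
  have hC : 1 ≤ C := by linarith
  have hp := Real.pi_pos
  have hp3 := Real.pi_gt_three
  have hp4 := Real.pi_lt_four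
  refine ⟨49 * C ^ 2 * 16 ^ 8, max (256 * C) (256 / r ^ 2 + 1), by positivity,
    le_max_of_le_left (by linarith), ?_⟩
  intro p q hN
  obtain ⟨n, hn⟩ : ∃ n : ℝ, n = (p : ℝ) ^ 2 + 12 * (q : ℝ) ^ 2 := ⟨_, rfl⟩
  rw [← hn] at hN ⊢
  have hN1 : 256 * C ≤ n := (le_max_left _ _).trans hN
  have hN2 : 256 / r ^ 2 + 1 ≤ n := (le_max_right _ _).trans hN
  have n0 : 0 < n := by linarith
  obtain ⟨a, ha⟩ : ∃ a : ℝ, a = (p : ℝ) := ⟨_, rfl⟩
  obtain ⟨b, hb⟩ : ∃ b : ℝ, b = 2 * s3 * q := ⟨_, rfl⟩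
  have hb2 : b ^ 2 = 12 * (q : ℝ) ^ 2 := by rw [hb]; linear_combination 4 * (q : ℝ) ^ 2 * s3_sq
  have hab : a ^ 2 + b ^ 2 = n := by rw [hb2, ha, hn]
  obtain ⟨B, hB⟩ : ∃ B : ℂ, B = a - b * I := ⟨_, rfl⟩
  obtain ⟨A, hAdef⟩ : ∃ A : ℂ, A = p + tau * q := ⟨_, rfl⟩
  have hAB : A * B = n := by
    rw [hAdef, hB, ← hab, ha, hb]; unfold tau; push_cast
    linear_combination (-(2 * (s3 : ℂ) * q) ^ 2) * I_sq
  have nC : (n : ℂ) ≠ 0 := by exact_mod_cast n0.ne'
  have hBn : ‖B‖ ^ 2 = n := by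
    rw [← normSq_eq_norm_sq, normSq_apply, ← hab, hB]; simp; ring
  obtain ⟨ρ, hρ⟩ : ∃ ρ : ℝ, ρ = 16 / √n := ⟨_, rfl⟩
  have sn : 0 < √n := Real.sqrt_pos.mpr n0
  have sn2 : √n ^ 2 = n := Real.sq_sqrt n0.le
  have hBn' : ‖B‖ = √n := by rw [← hBn, Real.sqrt_sq (norm_nonneg _)]
  have ρ0 : 0 < ρ := by rw [hρ]; positivity
  have ρ2 : ρ ^ 2 = 256 / n := by rw [hρ, div_pow, sn2]; norm_num
  have ρr : ρ < r := by
    apply lt_of_pow_lt_pow_left₀ 2 hr.le
    rw [ρ2, div_lt_iff₀ n0]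
    have : 256 / r ^ 2 < n := by linarith
    rw [div_lt_iff₀ (by positivity)] at this
    linarith
  have ρ1 : ρ ≤ 1 := by linarith
  have Cρ : C * ρ ^ 2 ≤ 1 := by
    rw [ρ2, ← mul_div_assoc, div_le_one n0]; linarith
  have C0ρ : C0 * ρ ^ 2 ≤ 1 := by nlinarith [sq_nonneg ρ]
  obtain ⟨u0, hu0⟩ : ∃ u0 : ℂ, u0 = ((2 * Real.pi / n : ℝ) : ℂ) * I * B := ⟨_, rfl⟩
  obtain ⟨lam, hlam⟩ : ∃ lam : ℂ, lam = ((q / n : ℝ) : ℂ) * B := ⟨_, rfl⟩
  have nu0 : ‖u0‖ ≤ ρ / 2 := by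
    rw [hu0, norm_mul, norm_mul, norm_I, norm_real, Real.norm_eq_abs, abs_of_pos (by positivity),
      hBn', hρ]
    have : 2 * Real.pi / n * 1 * √n = 2 * Real.pi / √n := by
      field_simp; rw [sn2]
    rw [this, div_div, div_le_div_iff₀ sn (by positivity)]
    nlinarith
  have nlam : ‖lam‖ ≤ 1 / 2 := by
    apply le_of_sq_le_sq _ (by norm_num) |> fun h => h
    rw [hlam, norm_mul, norm_real, mul_pow, hBn, Real.norm_eq_abs, sq_abs]
    have : (q / n) ^ 2 * n = (q : ℝ) ^ 2 / n := by field_simp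
    rw [this, div_le_iff₀ n0]
    nlinarith [sq_nonneg (p : ℝ), sq_nonneg (q : ℝ)]
  set T : ℂ → ℂ := fun u => u0 - lam * (vf u - tau * u) with hT
  have hh : ∀ u : ℂ, ‖u‖ ≤ ρ → ‖vf u - tau * u‖ ≤ C0 * ρ ^ 2 * ρ := by
    intro u hu
    have := hL ρ 0 u ρr (by simpa using ρ0.le) hu
    simp only [vf_zero, mul_zero, sub_zero] at this
    refine this.trans ?_
    gcongr
  have hmaps : MapsTo T (Metric.closedBall 0 ρ) (Metric.closedBall 0 ρ) := by
    intro u hu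
    have hu' : ‖u‖ ≤ ρ := by simpa using hu
    rw [mem_closedBall_zero_iff]
    refine (norm_sub_le _ _).trans ?_
    rw [norm_mul lam]
    have x1 : ‖vf u - tau * u‖ ≤ 1 * ρ := (hh u hu').trans (by gcongr)
    have x2 : ‖lam‖ * ‖vf u - tau * u‖ ≤ 1 / 2 * (1 * ρ) := by gcongr
    linarith
  have hcontr : ContractingWith (1 / 2) (hmaps.restrict T _ _) := by
    refine ⟨by norm_num, LipschitzWith.of_dist_le_mul ?_⟩
    rintro ⟨x, hx⟩ ⟨y, hy⟩
    have hx' : ‖x‖ ≤ ρ := by simpa using hx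
    have hy' : ‖y‖ ≤ ρ := by simpa using hy
    have := hL ρ y x ρr hy' hx'
    simp only [Subtype.dist_eq, MapsTo.val_restrict_apply, dist_eq_norm, hT]
    have e : u0 - lam * (vf x - tau * x) - (u0 - lam * (vf y - tau * y))
        = -(lam * ((vf x - tau * x) - (vf y - tau * y))) := by ring
    rw [e, norm_neg, norm_mul]
    have x1 : ‖(vf x - tau * x) - (vf y - tau * y)‖ ≤ 1 * ‖x - y‖ := this.trans (by gcongr)
    calc _ ≤ 1 / 2 * (1 * ‖x - y‖) := by gcongr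
      _ = _ := by push_cast; ring
  obtain ⟨u, hu, hfix, -⟩ := hcontr.exists_fixedPoint' Metric.isClosed_closedBall.isComplete hmaps
    (x := 0) (by simpa using ρ0.le) (edist_ne_top _ _)
  have hu' : ‖u‖ ≤ ρ := by simpa using hu
  have hfix' : u0 - lam * (vf u - tau * u) = u := hfix
  obtain ⟨hg, h7, h8⟩ := hA u (by linarith)
  have hAu0 : A * u0 = 2 * Real.pi * I := by
    rw [hu0]; push_cast; field_simp; linear_combination hAB
  have hAl : A * lam = q := by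
    rw [hlam]; push_cast; field_simp; linear_combination (q : ℂ) * hAB
  have hfill : (p : ℂ) * u + q * vf u = 2 * Real.pi * I := by
    have : A * u = 2 * Real.pi * I - q * (vf u - tau * u) := by
      rw [← hAu0, ← hAl]; linear_combination (-A) * hfix'
    rw [hAdef] at this
    linear_combination this
  refine ⟨Vf u, ⟨zf u, wf u, ⟨hg.2.1, hg.2.2.1, good_edge hg, ?_⟩, rfl⟩, ?_⟩
  · rw [good_u hg]; exact hfill
  set h : ℂ := vf u - tau * u with hhdef
  set e : ℂ := lam * h with he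
  set η : ℂ := h - tau * u0 ^ 3 / 3 with hη
  have hue : u = u0 - e := hfix'.symm
  have ne : ‖e‖ ≤ C * ρ ^ 3 := by
    rw [he, norm_mul]
    have x1 := hh u hu'
    have x2 : ‖lam‖ * ‖h‖ ≤ 1 * (C0 * ρ ^ 2 * ρ) :=
      mul_le_mul (by linarith) x1 (norm_nonneg _) (by norm_num)
    have x3 : C0 * ρ ^ 3 ≤ C * ρ ^ 3 := by gcongr; linarith
    linarith
  have nu0' : ‖u0‖ ≤ ρ := by linarith
  have nη : ‖η‖ ≤ 9 * C * ρ ^ 4 := by
    have e1 : η = (vf u - P1 u) + tau * (-e * (u ^ 2 + u * u0 + u0 ^ 2) / 3 + 23 / 180 * u ^ 5) := by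
      have : e = u0 - u := by rw [hue]; ring
      rw [hη, hhdef, this]; unfold P1; ring
    have x1 : ‖vf u - P1 u‖ ≤ C * ρ ^ 4 := by
      refine h7.trans ?_
      have : ‖u‖ ^ 7 ≤ ρ ^ 4 :=
        (pow_le_pow_left₀ (norm_nonneg _) hu' 7).trans (pow_le_pow_of_le_one ρ0.le ρ1 (by norm_num))
      gcongr; linarith
    have x2 : ‖u ^ 2 + u * u0 + u0 ^ 2‖ ≤ 3 * ρ ^ 2 := by
      calc _ ≤ ‖u ^ 2‖ + ‖u * u0‖ + ‖u0 ^ 2‖ :=
            (norm_add_le _ _).trans (add_le_add_left (norm_add_le _ _) _)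
        _ ≤ ρ ^ 2 + ρ * ρ + ρ ^ 2 := by simp only [norm_mul, norm_pow]; gcongr
        _ = _ := by ring
    have r5 : ρ ^ 5 ≤ ρ ^ 4 := pow_le_pow_of_le_one ρ0.le ρ1 (by norm_num)
    have x3 : ‖-e * (u ^ 2 + u * u0 + u0 ^ 2) / 3‖ ≤ C * ρ ^ 4 := by
      rw [norm_div, norm_mul, norm_neg, Complex.norm_ofNat]
      calc _ ≤ C * ρ ^ 3 * (3 * ρ ^ 2) / 3 := by gcongr
        _ = C * ρ ^ 5 := by ring
        _ ≤ _ := by gcongr
    have x4 : ‖23 / 180 * u ^ 5‖ ≤ C * ρ ^ 4 := by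
      rw [norm_mul, norm_pow]
      have : ‖(23 / 180 : ℂ)‖ = 23 / 180 := by simp
      rw [this]
      have y : ‖u‖ ^ 5 ≤ ρ ^ 4 := (pow_le_pow_left₀ (norm_nonneg _) hu' 5).trans r5
      exact mul_le_mul (by linarith) y (by positivity) (by linarith)
    have x5 : ‖tau * (-e * (u ^ 2 + u * u0 + u0 ^ 2) / 3 + 23 / 180 * u ^ 5)‖
        ≤ 4 * (C * ρ ^ 4 + C * ρ ^ 4) := by
      rw [norm_mul]
      exact mul_le_mul norm_tau ((norm_add_le _ _).trans (add_le_add x3 x4)) (norm_nonneg _)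
        (by norm_num)
    rw [e1]
    refine (norm_add_le _ _).trans ?_
    linarith
  have hrem := rem_bound hC nu0' (by rw [← hue]; exact hu') ne nη (lam := lam) (by linarith)
  set Rm := tau * (e ^ 2 * (6 * u0 ^ 2 - 4 * u0 * e + e ^ 2)) / 12
      + tau * (23 / 1080 * ((u0 - e) ^ 6 - u0 ^ 6)) + lam * η ^ 2 / 2 with hRm
  have hmain := main_im (a := a) (b := b) (t := 2 * Real.pi) (by rw [hab]; exact n0.ne') hB
    (u0 := u0) (by rw [hab, hu0])
  rw [hab] at hmain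
  set Mn := I * u0 ^ 4 / 12 + I * (23 / 1080 * u0 ^ 6) + ((b / n : ℝ) : ℂ) * B * u0 ^ 6 / 18
    with hMn
  have hlt : lam * tau ^ 2 = -(2 * s3) * (((b / n : ℝ) : ℂ) * B) := by
    rw [hlam, hb]; unfold tau; push_cast
    linear_combination (q / n * B * (2 * (s3 : ℂ)) ^ 2) * I_sq
  have hid : P0 u = tau * u ^ 2 / 2 - e * h / 2 + (((2 * s3 : ℝ) : ℂ) * Mn + Rm) := by
    have e1 : ((2 * s3 : ℝ) : ℂ) * Mn
        = tau * u0 ^ 4 / 12 + tau * (23 / 1080 * u0 ^ 6) - lam * tau ^ 2 * u0 ^ 6 / 18 := by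
      rw [hlt, hMn]; unfold tau; push_cast; ring
    rw [e1]
    exact id_aux hue he hη
  have hre := congrArg Complex.re hfill
  have him := congrArg Complex.im hfill
  simp at hre him
  have hlin : (tau * u ^ 2 / 2 - e * h / 2).im - u.re * (vf u).im = -(4 * s3 * Real.pi ^ 2 / n) := by
    refine lin_aux hn n0.ne' hre him ?_ ?_ hue
    · rw [hu0, hB, ← hb]
      simp only [mul_re, mul_im, ofReal_re, ofReal_im, I_re, I_im, sub_re, sub_im]
      field_simp; ring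
    · rw [hu0, hB, ← ha]
      simp only [mul_re, mul_im, ofReal_re, ofReal_im, I_re, I_im, sub_re, sub_im]
      field_simp; ring
  have hkap : a ^ 2 - b ^ 2 = (p : ℝ) ^ 2 - 12 * (q : ℝ) ^ 2 := by rw [hb2, ha]
  rw [hkap] at hmain
  generalize ((p : ℝ) ^ 2 - 12 * (q : ℝ) ^ 2) / n = k at hmain ⊢
  have s0 := s3_pos
  have hval : ((P0 u).im - u.re * (vf u).im) / 2 = 2 * s3 * Real.pi ^ 2 * MM n k + Rm.im / 2 := by
    rw [hid, add_im, add_im, im_ofReal_mul, hmain]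
    unfold MM
    linear_combination (1 / 2) * hlin
  have hden : 1 ≤ 2 * s3 * Real.pi ^ 2 := by nlinarith [s3_gt]
  have e5 : (Vf u - V0) / (2 * s3 * Real.pi ^ 2) - MM n k
      = ((Vf u - V0 - ((P0 u).im - u.re * (vf u).im) / 2) + Rm.im / 2) / (2 * s3 * Real.pi ^ 2) := by
    rw [hval]; field_simp; ring
  rw [e5, abs_div, abs_of_pos (a := 2 * s3 * Real.pi ^ 2) (by positivity)]
  refine (div_le_self (abs_nonneg _) hden).trans ?_
  refine (abs_add_le _ _).trans ?_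
  have y1 : |Rm.im / 2| ≤ 48 * C ^ 2 * ρ ^ 8 := by
    rw [abs_div, abs_two]
    have := abs_im_le_norm Rm
    have := abs_nonneg Rm.im
    linarith
  have y2 : C0 * ‖u‖ ^ 8 ≤ C ^ 2 * ρ ^ 8 := by gcongr; nlinarith
  have y3 : ρ ^ 8 = 16 ^ 8 / n ^ 4 := by
    rw [show ρ ^ 8 = (ρ ^ 2) ^ 4 by ring, ρ2, div_pow]; norm_num
  have y4 : 49 * C ^ 2 * 16 ^ 8 / n ^ 4 = 49 * C ^ 2 * ρ ^ 8 := by rw [y3]; ring
  rw [y4]
  linarith

end Pool.Agent.P.MP_858e15_gt
end

-- part Pool.Agent.P.MP_858e15_gt.Compare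
section

namespace Pool.Agent.P.MP_858e15_gt

theorem pi_sq_bounds : 9.8 < Real.pi ^ 2 ∧ Real.pi ^ 2 < 9.9 := by
  have h1 := Real.pi_gt_d2
  have h2 := Real.pi_lt_d4
  constructor <;> nlinarith

theorem MM_split (n k : ℝ) (hk : |k| ≤ 1) : ∃ a b : ℝ, a = 2 * Real.pi ^ 2 / 3 * (2 * k ^ 2 - 1) ∧
    |a| ≤ 6.6 ∧ |b| ≤ 2000 ∧ MM n k = -1 / n + a / n ^ 2 - b / n ^ 3 := by
  obtain ⟨p1, p2⟩ := pi_sq_bounds
  obtain ⟨k1, k2⟩ := abs_le.mp hk
  have k3 : k ^ 2 ≤ 1 := by nlinarith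
  have k4 : 0 ≤ k ^ 2 := sq_nonneg k
  refine ⟨_, 32 * Real.pi ^ 4 * (-7 / 1080 * (4 * k ^ 3 - 3 * k) + (8 * k ^ 4 - 8 * k ^ 2 + 1) / 36),
    rfl, ?_, ?_, rfl⟩
  · rw [abs_le]; constructor <;> nlinarith
  · have q1 : Real.pi ^ 4 ≤ 100 := by nlinarith
    have q0 : 0 ≤ Real.pi ^ 4 := by positivity
    have c1 : -1 ≤ k ^ 3 ∧ k ^ 3 ≤ 1 := by
      have := abs_le.mp (show |k ^ 3| ≤ 1 by rw [abs_pow]; exact pow_le_one₀ (abs_nonneg _) hk)
      exact this
    have c2 : 0 ≤ k ^ 4 ∧ k ^ 4 ≤ 1 := ⟨by positivity, by nlinarith⟩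
    have : |-7 / 1080 * (4 * k ^ 3 - 3 * k) + (8 * k ^ 4 - 8 * k ^ 2 + 1) / 36| ≤ 1 / 2 := by
      rw [abs_le]; constructor <;> linarith [c1.1, c1.2, c2.1, c2.2]
    rw [abs_mul, abs_of_nonneg (by positivity)]
    nlinarith [abs_nonneg (-7 / 1080 * (4 * k ^ 3 - 3 * k) + (8 * k ^ 4 - 8 * k ^ 2 + 1) / 36)]

theorem gap_lt {n m a a' D : ℝ} (hD : 0 < D) (hn : 40 * (D + 10) ≤ n) (ha : |a| ≤ 6.6)
    (ha' : |a'| ≤ 6.6) (h : |1 / m - 1 / n + a / n ^ 2 - a' / m ^ 2| ≤ D / n ^ 3 + D / m ^ 3) :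
    m < n + 14 := by
  by_contra hc
  push Not at hc
  have n0 : 0 < n := by linarith
  have m0 : 0 < m := by linarith
  have nm : n ≤ m := by linarith
  have h1 : 1 / m ≤ 1 / (n + 14) := one_div_le_one_div_of_le (by linarith) hc
  have h2 : a / n ^ 2 ≤ 6.6 / n ^ 2 := by gcongr; exact (abs_le.mp ha).2
  have h3 : -a' / m ^ 2 ≤ 6.6 / n ^ 2 := by
    calc _ ≤ 6.6 / m ^ 2 := by gcongr; linarith [(abs_le.mp ha').1]
      _ ≤ _ := by gcongr
  have h4 : D / m ^ 3 ≤ D / n ^ 3 := by gcongr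
  have h5 := (abs_le.mp h).1
  have h6 : 1 / n - 1 / (n + 14) ≤ 2 * (6.6 / n ^ 2) + 2 * (D / n ^ 3) := by
    rw [neg_div] at h3; linarith
  have e1 : 1 / n - 1 / (n + 14) = 14 * n ^ 2 / (n ^ 3 * (n + 14)) := by field_simp; ring
  have e2 : 2 * (6.6 / n ^ 2) + 2 * (D / n ^ 3) = (13.2 * n + 2 * D) * (n + 14) / (n ^ 3 * (n + 14)) := by
    field_simp; ring
  rw [e1, e2, div_le_div_iff_of_pos_right (by positivity)] at h6
  nlinarith

theorem near_of {n m a a' D : ℝ} (hD : 0 < D) (hn : 40 ≤ n) (hm : |m - n| ≤ 14)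
    (ha' : |a'| ≤ 6.6) (h : |1 / m - 1 / n + a / n ^ 2 - a' / m ^ 2| ≤ D / n ^ 3 + D / m ^ 3) :
    |a - a' - (m - n)| ≤ (9 * D + 1000) / n := by
  obtain ⟨m1, m2⟩ := abs_le.mp hm
  have n0 : 0 < n := by linarith
  have m0 : 0 < m := by linarith
  have e : a - a' - (m - n) = n ^ 2 * (1 / m - 1 / n + a / n ^ 2 - a' / m ^ 2)
      - (m - n) * ((m - n) / m) - a' * ((m - n) / m) * (n / m + 1) := by
    field_simp; ring
  have b0 : 1 / m ≤ 2 / n := by rw [div_le_div_iff₀ m0 n0]; linarith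
  have b1 : |(m - n) / m| ≤ 28 / n := by
    rw [abs_div, abs_of_pos m0, div_eq_mul_one_div]
    calc _ ≤ 14 * (2 / n) := by gcongr
      _ = _ := by ring
  have b2 : |n / m + 1| ≤ 3 := by
    rw [abs_of_pos (by positivity)]
    have : n / m ≤ 2 := by rw [div_le_iff₀ m0]; linarith
    linarith
  have b3 : D / m ^ 3 ≤ 8 * D / n ^ 3 := by
    calc D / m ^ 3 = D * (1 / m) ^ 3 := by field_simp
      _ ≤ D * (2 / n) ^ 3 := by gcongr
      _ = _ := by field_simp; norm_num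
  have t1 : |n ^ 2 * (1 / m - 1 / n + a / n ^ 2 - a' / m ^ 2)| ≤ 9 * D / n := by
    rw [abs_mul, abs_of_pos (by positivity)]
    calc _ ≤ n ^ 2 * (D / n ^ 3 + 8 * D / n ^ 3) := by gcongr; linarith
      _ = _ := by field_simp; norm_num
  have t2 : |(m - n) * ((m - n) / m)| ≤ 14 * (28 / n) := by rw [abs_mul]; gcongr
  have t3 : |a' * ((m - n) / m) * (n / m + 1)| ≤ 6.6 * (28 / n) * 3 := by
    rw [abs_mul, abs_mul]; gcongr
  rw [e]
  refine (abs_sub _ _).trans ?_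
  refine (add_le_add_left (abs_sub _ _) _).trans ?_
  have e3 : (9 * D + 1000) / n = 9 * D / n + 1000 * (1 / n) := by ring
  have e4 : (28 : ℝ) / n = 28 * (1 / n) := by ring
  have : 0 < 1 / n := by positivity
  rw [e3]; rw [e4] at t2 t3
  linarith

theorem sq_le_diff {x y : ℤ} (h : x ^ 2 ≠ y ^ 2) : x ^ 2 ≤ (x ^ 2 - y ^ 2) ^ 2 := by
  have h1 : x - y ≠ 0 := fun h0 => h (by rw [sub_eq_zero.mp h0])
  have h2 : x + y ≠ 0 := fun h0 => h (by rw [eq_neg_of_add_eq_zero_left h0]; ring)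
  have a1 : 1 ≤ (x - y) ^ 2 := by
    have := sq_pos_of_ne_zero h1; omega
  have a2 : 1 ≤ (x + y) ^ 2 := by
    have := sq_pos_of_ne_zero h2; omega
  have e : (x ^ 2 - y ^ 2) ^ 2 = (x - y) ^ 2 * (x + y) ^ 2 := by ring
  rw [e]
  nlinarith [sq_nonneg y]

theorem not_twelve {x y : ℤ} (h : x ^ 2 = 12 * y ^ 2) : y = 0 := by
  by_contra hy
  have h3 : Irrational (√3) := by simpa using (Nat.prime_three).irrational_sqrt
  apply h3
  refine ⟨|(x : ℚ) / (2 * y)|, ?_⟩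
  have hy' : (y : ℝ) ≠ 0 := by exact_mod_cast hy
  have h' : (x : ℝ) ^ 2 = 12 * (y : ℝ) ^ 2 := by exact_mod_cast h
  push_cast
  rw [← Real.sqrt_sq_eq_abs]
  congr 1
  field_simp
  linarith

theorem pell_b {a b : ℤ} (h : a ^ 2 - 12 * b ^ 2 = 1) (hb : b ≠ 0) : 2 ≤ |b| := by
  by_contra hc
  have h1 : 0 < |b| := abs_pos.mpr hb
  have h2 : |b| = 1 := by omega
  have h3 : b ^ 2 = 1 := by rw [← sq_abs, h2]; norm_num
  have h4 : |a| ^ 2 = 13 := by rw [sq_abs]; omega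
  have h5 := abs_nonneg a
  rcases le_or_gt |a| 3 with h6 | h6 <;> nlinarith

theorem pell_case {p q p' q' : ℤ} (h1 : p ^ 2 - 12 * q' ^ 2 = 1) (h2 : p' ^ 2 - 12 * q ^ 2 = 1)
    (hd : q ^ 2 ≠ q' ^ 2) : 192 * (p ^ 2 * q ^ 2) ≤ (p ^ 2 + 12 * q ^ 2) ^ 2 := by
  have e : (p * q - p' * q') * (p * q + p' * q') = q ^ 2 - q' ^ 2 := by
    linear_combination q ^ 2 * h1 - q' ^ 2 * h2
  have ne : (p * q - p' * q') * (p * q + p' * q') ≠ 0 := by rw [e]; exact sub_ne_zero.mpr hd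
  have b1 : 2 ≤ |p * q - p' * q'| := pell_b (a := p * p' - 12 * q * q')
    (by linear_combination (p' ^ 2 - 12 * q ^ 2) * h1 + h2) (left_ne_zero_of_mul ne)
  have b2 : 2 ≤ |p * q + p' * q'| := pell_b (a := p * p' + 12 * q * q')
    (by linear_combination (p' ^ 2 - 12 * q ^ 2) * h1 + h2) (right_ne_zero_of_mul ne)
  have b3 : |2 * (p * q)| ≤ |p * q - p' * q'| + |p * q + p' * q'| := by
    refine le_trans (le_of_eq ?_) (abs_add_le _ _)
    congr 1; ring
  have b4 : |2 * (p * q)| ≤ |q ^ 2 - q' ^ 2| := by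
    rw [← e, abs_mul (p * q - p' * q')]
    nlinarith
  have b5 : (2 * (p * q)) ^ 2 ≤ (q ^ 2 - q' ^ 2) ^ 2 := sq_le_sq.mpr b4
  have e2 : p ^ 2 + 12 * q ^ 2 = 12 * (q ^ 2 + q' ^ 2) + 1 := by linarith
  rw [e2]
  nlinarith [sq_nonneg q, sq_nonneg q', mul_nonneg (sq_nonneg q) (sq_nonneg q'),
    mul_nonneg (sq_nonneg p) (sq_nonneg q)]

theorem same_real {n k k' E d C : ℝ} (hC : 0 < C) (hn : 10000 ≤ n) (hk : |k| ≤ 1) (hk' : |k'| ≤ 1)
    (hs : k + k' = 2 * E / n) (hd : k - k' = 24 * d / n) (hdC : C ≤ |d|)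
    (h : |MM n k - MM n k'| ≤ 2 * (C / n ^ 4)) :
    |E - 7 * Real.pi ^ 2 / 90 * (3 - 4 * k ^ 2)| ≤ 1 / 10 := by
  obtain ⟨p1, p2⟩ := pi_sq_bounds
  have n0 : 0 < n := by linarith
  have d0 : 0 < |d| := by linarith
  set w := 12 * Real.pi ^ 2 * (-7 / 1080 * (4 * k') + 2 / 9 * (k ^ 2 + k' ^ 2 - 1)) with hw
  have e : MM n k - MM n k' = d * (64 * Real.pi ^ 2 / n ^ 4)
      * (E - 7 * Real.pi ^ 2 / 90 * (3 - 4 * k ^ 2) - 2 * E / n * w) := by
    have e1 : MM n k - MM n k' = (k - k') * (4 * Real.pi ^ 2 / 3 * (k + k') / n ^ 2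
        - 32 * Real.pi ^ 4 * (-7 / 1080 * (4 * k ^ 2 - 3)
          + (k + k') * (-7 / 1080 * (4 * k') + 2 / 9 * (k ^ 2 + k' ^ 2 - 1))) / n ^ 3) := by
      unfold MM; ring
    rw [e1, hs, hd, hw]
    field_simp
    ring
  rw [e, abs_mul, abs_mul, abs_of_pos (a := 64 * Real.pi ^ 2 / n ^ 4) (by positivity)] at h
  set X := |E - 7 * Real.pi ^ 2 / 90 * (3 - 4 * k ^ 2) - 2 * E / n * w| with hX
  have X0 : 0 ≤ X := abs_nonneg _
  have hX1 : X ≤ 1 / 100 := by
    have h1 : |d| * (64 * Real.pi ^ 2) * X ≤ 2 * C := by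
      have := mul_le_mul_of_nonneg_right h (show 0 ≤ n ^ 4 by positivity)
      have e1 : |d| * (64 * Real.pi ^ 2 / n ^ 4) * X * n ^ 4 = |d| * (64 * Real.pi ^ 2) * X := by
        field_simp
      have e2 : 2 * (C / n ^ 4) * n ^ 4 = 2 * C := by field_simp
      rwa [e1, e2] at this
    have h2 : C * 200 * X ≤ |d| * (64 * Real.pi ^ 2) * X := by gcongr; linarith
    nlinarith
  obtain ⟨k1, k2⟩ := abs_le.mp hk
  obtain ⟨k1', k2'⟩ := abs_le.mp hk'
  have k3 : k ^ 2 ≤ 1 := by nlinarith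
  have k3' : k' ^ 2 ≤ 1 := by nlinarith
  have k4 := sq_nonneg k
  have k4' := sq_nonneg k'
  have hw1 : |w| ≤ 36 := by
    rw [hw, abs_mul, abs_of_pos (by positivity)]
    have : |-7 / 1080 * (4 * k') + 2 / 9 * (k ^ 2 + k' ^ 2 - 1)| ≤ 3 / 10 := by
      rw [abs_le]; constructor <;> linarith
    nlinarith [abs_nonneg (-7 / 1080 * (4 * k') + 2 / 9 * (k ^ 2 + k' ^ 2 - 1))]
  have hY : |7 * Real.pi ^ 2 / 90 * (3 - 4 * k ^ 2)| ≤ 3 := by
    rw [abs_le]; constructor <;> nlinarith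
  have hZ : |2 * E / n * w| ≤ |E| / 100 := by
    rw [abs_mul, abs_div, abs_mul, abs_two, abs_of_pos n0]
    have := abs_nonneg E
    calc _ ≤ 2 * |E| / 10000 * 36 := by gcongr
      _ ≤ _ := by linarith
  have t1 : |E - 7 * Real.pi ^ 2 / 90 * (3 - 4 * k ^ 2)| ≤ X + |2 * E / n * w| := by
    refine le_trans (le_of_eq ?_) (abs_add_le _ _)
    congr 1; ring
  have t2 : |E| ≤ |E - 7 * Real.pi ^ 2 / 90 * (3 - 4 * k ^ 2)|
      + |7 * Real.pi ^ 2 / 90 * (3 - 4 * k ^ 2)| := by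
    refine le_trans (le_of_eq ?_) (abs_add_le _ _)
    congr 1; ring
  linarith

theorem kap_le {p q : ℝ} (h : 0 < p ^ 2 + 12 * q ^ 2) :
    |(p ^ 2 - 12 * q ^ 2) / (p ^ 2 + 12 * q ^ 2)| ≤ 1 := by
  rw [abs_div, abs_of_pos h, div_le_one h, abs_le]
  constructor <;> nlinarith [sq_nonneg p, sq_nonneg q]

theorem same_norm {C : ℝ} (hC : 0 < C) {p q p' q' : ℤ}
    (hN : p' ^ 2 + 12 * q' ^ 2 = p ^ 2 + 12 * q ^ 2)
    (h1 : 10000 ≤ (p : ℝ) ^ 2 + 12 * (q : ℝ) ^ 2)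
    (h2 : 156 * C ^ 2 ≤ (p : ℝ) ^ 2 + 12 * (q : ℝ) ^ 2)
    (h : |MM ((p : ℝ) ^ 2 + 12 * (q : ℝ) ^ 2)
          (((p : ℝ) ^ 2 - 12 * (q : ℝ) ^ 2) / ((p : ℝ) ^ 2 + 12 * (q : ℝ) ^ 2))
        - MM ((p : ℝ) ^ 2 + 12 * (q : ℝ) ^ 2)
          (((p' : ℝ) ^ 2 - 12 * (q' : ℝ) ^ 2) / ((p : ℝ) ^ 2 + 12 * (q : ℝ) ^ 2))|
        ≤ 2 * (C / ((p : ℝ) ^ 2 + 12 * (q : ℝ) ^ 2) ^ 4)) : q ^ 2 = q' ^ 2 := by
  by_contra hq
  obtain ⟨p1, p2⟩ := pi_sq_bounds
  have hNr : (p' : ℝ) ^ 2 + 12 * (q' : ℝ) ^ 2 = (p : ℝ) ^ 2 + 12 * (q : ℝ) ^ 2 := by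
    exact_mod_cast hN
  have n0 : 0 < (p : ℝ) ^ 2 + 12 * (q : ℝ) ^ 2 := by linarith
  have hp : p ^ 2 ≠ p' ^ 2 := fun h0 => hq (by omega)
  have s1 := sq_le_diff hq
  have s2 := sq_le_diff hp
  have s3' : p ^ 2 + 12 * q ^ 2 ≤ 156 * (q' ^ 2 - q ^ 2) ^ 2 := by
    have : p ^ 2 - p' ^ 2 = 12 * (q' ^ 2 - q ^ 2) := by linarith
    rw [this] at s2
    nlinarith
  have s4 : (p : ℝ) ^ 2 + 12 * (q : ℝ) ^ 2 ≤ 156 * ((q' : ℝ) ^ 2 - (q : ℝ) ^ 2) ^ 2 := by
    exact_mod_cast s3'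
  have hdC : C ≤ |(q' : ℝ) ^ 2 - (q : ℝ) ^ 2| := by
    apply le_of_sq_le_sq _ (abs_nonneg _) |> fun h => h
    rw [sq_abs]; linarith
  have k1 := kap_le n0
  have k2 := kap_le (p := p') (q := q') (by rw [hNr]; exact n0)
  rw [hNr] at k2
  have key := same_real (E := (p : ℝ) ^ 2 - 12 * (q' : ℝ) ^ 2) hC h1 k1 k2
    (by rw [← add_div]; congr 1; linarith) (by rw [← sub_div]; congr 1; linarith) hdC h
  set k := ((p : ℝ) ^ 2 - 12 * (q : ℝ) ^ 2) / ((p : ℝ) ^ 2 + 12 * (q : ℝ) ^ 2) with hk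
  obtain ⟨k3, k4⟩ := abs_le.mp k1
  have k5 : k ^ 2 ≤ 1 := by nlinarith
  have k6 := sq_nonneg k
  obtain ⟨y1, y2⟩ := abs_le.mp key
  have E1 : (-1 : ℝ) < (p : ℝ) ^ 2 - 12 * (q' : ℝ) ^ 2 := by nlinarith
  have E2 : (p : ℝ) ^ 2 - 12 * (q' : ℝ) ^ 2 < 3 := by nlinarith
  have E1' : -1 < p ^ 2 - 12 * q' ^ 2 := by exact_mod_cast E1
  have E2' : p ^ 2 - 12 * q' ^ 2 < 3 := by exact_mod_cast E2
  have hE : p ^ 2 - 12 * q' ^ 2 = 0 ∨ p ^ 2 - 12 * q' ^ 2 = 1 ∨ p ^ 2 - 12 * q' ^ 2 = 2 := by omega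
  rcases hE with hE | hE | hE
  · have a1 : q' = 0 := not_twelve (x := p) (by linarith)
    have a2 : q = 0 := not_twelve (x := p') (by linarith)
    exact hq (by rw [a1, a2])
  · have a1 := pell_case hE (p' := p') (by linarith) hq
    have a2 : 192 * ((p : ℝ) ^ 2 * (q : ℝ) ^ 2) ≤ ((p : ℝ) ^ 2 + 12 * (q : ℝ) ^ 2) ^ 2 := by
      exact_mod_cast a1
    have a3 : 3 / 4 ≤ k ^ 2 := by
      rw [hk, div_pow, le_div_iff₀ (by positivity)]
      nlinarith
    have a4 : (p : ℝ) ^ 2 - 12 * (q' : ℝ) ^ 2 = 1 := by exact_mod_cast hE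
    nlinarith
  · have : p % 2 = 0 ∨ p % 2 = 1 := by omega
    rcases this with h0 | h0
    · obtain ⟨m, hm⟩ : ∃ m, p = 2 * m := ⟨p / 2, by omega⟩
      have : 4 * (m ^ 2 - 3 * q' ^ 2) = 2 := by rw [hm] at hE; linarith
      omega
    · obtain ⟨m, hm⟩ : ∃ m, p = 2 * m + 1 := ⟨p / 2, by omega⟩
      have : 4 * (m ^ 2 + m - 3 * q' ^ 2) = 1 := by rw [hm] at hE; linarith
      omega

theorem finite_gap (s : Finset (ℤ × ℤ)) :
    ∃ η : ℝ, 0 < η ∧ ∀ x ∈ s, ∀ v, FillVol x.1 x.2 v → v ≤ V0 - η := by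
  induction s using Finset.induction_on with
  | empty => exact ⟨1, one_pos, by simp⟩
  | insert x s _ ih =>
    obtain ⟨η, hη, h⟩ := ih
    by_cases hx : ∃ v, FillVol x.1 x.2 v
    · obtain ⟨v0, hv0⟩ := hx
      have := fillVol_lt hv0
      refine ⟨min η (V0 - v0), lt_min hη (by linarith), ?_⟩
      intro y hy v hv
      rcases Finset.mem_insert.mp hy with rfl | hy
      · rw [fillVol_unique hv0 hv]; linarith [min_le_right η (V0 - v0)]
      · linarith [h y hy v hv, min_le_left η (V0 - v0)]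
    · refine ⟨η, hη, ?_⟩
      intro y hy v hv
      rcases Finset.mem_insert.mp hy with rfl | hy
      · exact absurd ⟨v, hv⟩ hx
      · exact h y hy v hv

theorem small_gap (M : ℝ) : ∃ η : ℝ, 0 < η ∧ ∀ p q : ℤ, (p : ℝ) ^ 2 + 12 * (q : ℝ) ^ 2 < M →
    ∀ v, FillVol p q v → v ≤ V0 - η := by
  obtain ⟨η, hη, h⟩ := finite_gap (Finset.Icc (-⌈M⌉) ⌈M⌉ ×ˢ Finset.Icc (-⌈M⌉) ⌈M⌉)
  refine ⟨η, hη, fun p q hM v hv => h (p, q) ?_ v hv⟩
  have h1 : ((p ^ 2 + 12 * q ^ 2 : ℤ) : ℝ) ≤ (⌈M⌉ : ℝ) := by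
    push_cast; linarith [Int.le_ceil M]
  have h2 : p ^ 2 + 12 * q ^ 2 ≤ ⌈M⌉ := by exact_mod_cast h1
  simp only [Finset.mem_product, Finset.mem_Icc]
  refine ⟨⟨?_, ?_⟩, ?_, ?_⟩ <;> nlinarith [sq_nonneg (p - 1), sq_nonneg (p + 1), sq_nonneg (q - 1),
    sq_nonneg (q + 1), sq_nonneg p, sq_nonneg q]

noncomputable def c4 (p q : ℤ) : ℝ :=
  1 - 96 * ((p : ℝ) ^ 2 * (q : ℝ) ^ 2) / ((p : ℝ) ^ 2 + 12 * (q : ℝ) ^ 2) ^ 2

theorem c4_eq {p q : ℤ} (h : 0 < (p : ℝ) ^ 2 + 12 * (q : ℝ) ^ 2) :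
    c4 p q = 2 * (((p : ℝ) ^ 2 - 12 * (q : ℝ) ^ 2) / ((p : ℝ) ^ 2 + 12 * (q : ℝ) ^ 2)) ^ 2 - 1 := by
  unfold c4
  obtain ⟨n, hn⟩ : ∃ n : ℝ, n = (p : ℝ) ^ 2 + 12 * (q : ℝ) ^ 2 := ⟨_, rfl⟩
  rw [← hn] at h ⊢
  field_simp
  rw [hn]; ring

theorem compare : ∃ K N1 : ℝ, 0 < K ∧ 40 ≤ N1 ∧ ∀ p q : ℤ, N1 ≤ (p : ℝ) ^ 2 + 12 * (q : ℝ) ^ 2 →
    (∃ v, FillVol p q v) ∧ ∀ (p' q' : ℤ) (v : ℝ), FillVol p q v → FillVol p' q' v →
      (|p'| = |p| ∧ |q'| = |q|) ∨ ∃ k : ℤ, k ≠ 0 ∧ |k| ≤ 13 ∧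
        p' ^ 2 + 12 * q' ^ 2 = p ^ 2 + 12 * q ^ 2 + k ∧
        |c4 p q - c4 p' q' - 3 * k / (2 * Real.pi ^ 2)| ≤ K / ((p : ℝ) ^ 2 + 12 * (q : ℝ) ^ 2) := by
  obtain ⟨C, N0, hC, hN0, hE⟩ := expansion
  obtain ⟨p1, p2⟩ := pi_sq_bounds
  obtain ⟨D, hD⟩ : ∃ D, D = C + 2000 := ⟨_, rfl⟩
  have D0 : 0 < D := by linarith
  obtain ⟨M, hM⟩ : ∃ M, M = N0 + 40 * (D + 10) + 156 * C ^ 2 + 10000 := ⟨_, rfl⟩
  have C2 : 0 ≤ C ^ 2 := sq_nonneg C
  obtain ⟨η, hη, hs⟩ := small_gap M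
  have hq : 0 < 40 * (D + 8) / η := by positivity
  refine ⟨9 * D + 1000, M + 40 * (D + 8) / η + 1, by positivity, by linarith, ?_⟩
  intro p q hN
  obtain ⟨v0, hv0, e0⟩ := hE p q (by linarith)
  refine ⟨⟨v0, hv0⟩, ?_⟩
  intro p' q' v hv hv'
  rw [← fillVol_unique hv0 hv] at e0
  have split : ∀ n k : ℝ, 1 ≤ n → |k| ≤ 1 →
      |(v - V0) / (2 * s3 * Real.pi ^ 2) - MM n k| ≤ C / n ^ 4 →
      ∃ a : ℝ, a = 2 * Real.pi ^ 2 / 3 * (2 * k ^ 2 - 1) ∧ |a| ≤ 6.6 ∧
        |(v - V0) / (2 * s3 * Real.pi ^ 2) - (-1 / n + a / n ^ 2)| ≤ D / n ^ 3 := by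
    intro n k hn hk h
    obtain ⟨a, b, ha, ha1, hb, e⟩ := MM_split n k hk
    refine ⟨a, ha, ha1, ?_⟩
    have n0 : 0 < n := by linarith
    have t1 : C / n ^ 4 ≤ C / n ^ 3 := by
      gcongr; norm_num
    have t2 : |b / n ^ 3| ≤ 2000 / n ^ 3 := by
      rw [abs_div, abs_of_pos (a := n ^ 3) (by positivity)]; gcongr
    have t3 : (v - V0) / (2 * s3 * Real.pi ^ 2) - (-1 / n + a / n ^ 2)
        = ((v - V0) / (2 * s3 * Real.pi ^ 2) - MM n k) - b / n ^ 3 := by rw [e]; ring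
    rw [t3, hD, add_div]
    refine (abs_sub _ _).trans ?_
    linarith
  obtain ⟨n, hn⟩ : ∃ n : ℝ, n = (p : ℝ) ^ 2 + 12 * (q : ℝ) ^ 2 := ⟨_, rfl⟩
  obtain ⟨m, hm⟩ : ∃ m : ℝ, m = (p' : ℝ) ^ 2 + 12 * (q' : ℝ) ^ 2 := ⟨_, rfl⟩
  have n0 : 0 < (p : ℝ) ^ 2 + 12 * (q : ℝ) ^ 2 := by linarith
  obtain ⟨a, ha, ha1, ha2⟩ := split _ _ (by linarith) (kap_le n0) e0
  have hbig : M ≤ (p' : ℝ) ^ 2 + 12 * (q' : ℝ) ^ 2 := by
    by_contra hc
    push Not at hc
    have h1 := hs p' q' hc v hv'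
    rw [← hn] at ha2 hN n0
    have n1 : 1 ≤ n := by linarith
    have t1 : D / n ^ 3 ≤ D / n := by
      gcongr; exact le_self_pow₀ n1 (by norm_num)
    have t2 : -a / n ^ 2 ≤ 7 / n := by
      calc _ ≤ 7 / n ^ 2 := by gcongr; linarith [(abs_le.mp ha1).1]
        _ ≤ _ := by gcongr; exact le_self_pow₀ n1 (by norm_num)
    have t3 := (abs_le.mp ha2).1
    have t4 : (V0 - v) / (2 * s3 * Real.pi ^ 2) ≤ (D + 8) / n := by
      have e1 : (V0 - v) / (2 * s3 * Real.pi ^ 2) = -((v - V0) / (2 * s3 * Real.pi ^ 2)) := by ring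
      have e2 : (D + 8) / n = D / n + 7 / n - -1 / n := by ring
      rw [neg_div] at t2
      rw [e1, e2]; linarith
    have s0 := s3_pos
    have t5 : 2 * s3 * Real.pi ^ 2 ≤ 40 := by nlinarith [s3_lt]
    have t6 : η / 40 ≤ (V0 - v) / (2 * s3 * Real.pi ^ 2) := by
      gcongr <;> linarith
    have t7 : η / 40 ≤ (D + 8) / n := t6.trans t4
    rw [div_le_div_iff₀ (by norm_num) n0] at t7
    have t8 : 40 * (D + 8) / η < n := by linarith
    rw [div_lt_iff₀ hη] at t8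
    linarith
  obtain ⟨v1, hv1, e1⟩ := hE p' q' (by linarith)
  rw [← fillVol_unique hv1 hv'] at e1
  have m0 : 0 < (p' : ℝ) ^ 2 + 12 * (q' : ℝ) ^ 2 := by linarith
  obtain ⟨a', ha', ha1', ha2'⟩ := split _ _ (by linarith) (kap_le m0) e1
  rw [← hn] at ha2
  rw [← hm] at ha2'
  have w1 : |1 / m - 1 / n + a / n ^ 2 - a' / m ^ 2| ≤ D / n ^ 3 + D / m ^ 3 := by
    have : 1 / m - 1 / n + a / n ^ 2 - a' / m ^ 2
        = ((v - V0) / (2 * s3 * Real.pi ^ 2) - (-1 / m + a' / m ^ 2))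
          - ((v - V0) / (2 * s3 * Real.pi ^ 2) - (-1 / n + a / n ^ 2)) := by ring
    rw [this]
    refine (abs_sub _ _).trans ?_
    linarith
  have w2 : |1 / n - 1 / m + a' / m ^ 2 - a / n ^ 2| ≤ D / m ^ 3 + D / n ^ 3 := by
    rw [← abs_neg]
    refine le_trans (le_of_eq ?_) (w1.trans (le_of_eq (add_comm _ _)))
    congr 1; ring
  have g1 := gap_lt D0 (by linarith) ha1 ha1' w1
  have g2 := gap_lt D0 (by linarith) ha1' ha1 w2
  obtain ⟨k, hk⟩ : ∃ k : ℤ, k = (p' ^ 2 + 12 * q' ^ 2) - (p ^ 2 + 12 * q ^ 2) := ⟨_, rfl⟩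
  have hkr : (k : ℝ) = m - n := by rw [hk, hm, hn]; push_cast; ring
  by_cases k0 : k = 0
  · left
    have hNN : p' ^ 2 + 12 * q' ^ 2 = p ^ 2 + 12 * q ^ 2 := by omega
    have hNr : (p' : ℝ) ^ 2 + 12 * (q' : ℝ) ^ 2 = (p : ℝ) ^ 2 + 12 * (q : ℝ) ^ 2 := by
      exact_mod_cast hNN
    rw [hNr] at e1
    have hqq : q ^ 2 = q' ^ 2 := by
      apply same_norm hC hNN (by linarith) (by linarith)
      rw [two_mul]
      refine le_trans (le_of_eq ?_) ((abs_sub _ _).trans (add_le_add e1 e0))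
      congr 1; ring
    have hpp : p' ^ 2 = p ^ 2 := by omega
    exact ⟨sq_eq_sq_iff_abs_eq_abs _ _ |>.mp hpp, sq_eq_sq_iff_abs_eq_abs _ _ |>.mp hqq.symm⟩
  · right
    have k1 : (k : ℝ) < 14 := by linarith
    have k2 : (-14 : ℝ) < k := by linarith
    have k1' : k < 14 := by exact_mod_cast k1
    have k2' : -14 < k := by exact_mod_cast k2
    refine ⟨k, k0, abs_le.mpr ⟨by omega, by omega⟩, by omega, ?_⟩
    have w3 := near_of D0 (by linarith) (abs_le.mpr ⟨by linarith, by linarith⟩) ha1' w1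
    rw [c4_eq n0, c4_eq m0, ← hn]
    rw [← hn] at ha n0
    have e : 2 * (((p : ℝ) ^ 2 - 12 * (q : ℝ) ^ 2) / n) ^ 2 - 1
        - (2 * (((p' : ℝ) ^ 2 - 12 * (q' : ℝ) ^ 2) / ((p' : ℝ) ^ 2 + 12 * (q' : ℝ) ^ 2)) ^ 2 - 1)
        - 3 * k / (2 * Real.pi ^ 2) = (a - a' - (m - n)) / (2 * Real.pi ^ 2 / 3) := by
      rw [ha, ha', hkr]
      have := Real.pi_pos
      field_simp
    rw [e, abs_div, abs_of_pos (a := 2 * Real.pi ^ 2 / 3) (by linarith)]
    exact (div_le_self (abs_nonneg _) (by linarith)).trans w3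

end Pool.Agent.P.MP_858e15_gt
end

-- part Pool.Agent.P.MP_858e15_gt.Milnor
section

namespace Pool.Agent.P.MP_858e15_gt

open Set MeasureTheory Real

theorem ls_int (a b : ℝ) : IntervalIntegrable (fun t => log |2 * sin t|) volume a b := by
  have h : IntervalIntegrable (log ∘ fun t => 2 * sin t) volume a b :=
    ((analyticOnNhd_const.mul analyticOnNhd_sin).meromorphicOn.intervalIntegrable_log)
  simpa only [Function.comp_def, log_abs] using h

theorem lob_pi : lob π = 0 := by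
  unfold lob
  rw [neg_eq_zero, intervalIntegral.integral_congr_ae (g := fun t => log 2 + log (sin t))]
  · rw [intervalIntegral.integral_add (g := fun t => log (sin t)) intervalIntegrable_const
      intervalIntegrable_log_sin, integral_log_sin_zero_pi]
    simp; ring
  · filter_upwards [compl_mem_ae_iff.mpr (measure_singleton π)] with t h1 h2
    rw [uIoc_of_le pi_pos.le] at h2
    have : 0 < sin t := sin_pos_of_pos_of_lt_pi h2.1 (lt_of_le_of_ne h2.2 h1)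
    rw [log_abs, log_mul two_ne_zero this.ne']

theorem lob_sub (a b : ℝ) : ∫ t in a..b, log |2 * sin t| = lob a - lob b := by
  unfold lob
  rw [← intervalIntegral.integral_interval_sub_left (ls_int 0 b) (ls_int 0 a)]; ring

theorem lob_pi_sub (x : ℝ) : lob (π - x) = -lob x := by
  have h := intervalIntegral.integral_comp_sub_left (a := 0) (b := x)
    (fun t => log |2 * sin t|) π
  simp only [sin_pi_sub, sub_zero] at h
  rw [lob_sub (π - x) π, lob_pi, sub_zero] at h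
  rw [← h, lob, neg_neg]

theorem vert_int {g : ℝ} (hg : 0 < g) :
    ∫⁻ h in {h : ℝ | 0 < h ∧ g ≤ h ^ 2}, ENNReal.ofReal (1 / h ^ 3)
      = ENNReal.ofReal (1 / (2 * g)) := by
  have s0 : 0 < √g := sqrt_pos.mpr hg
  have e : {h : ℝ | 0 < h ∧ g ≤ h ^ 2} = Ici √g := by
    ext h
    simp only [mem_ofPred_eq, mem_Ici]
    exact ⟨fun h1 => sqrt_le_iff.mpr ⟨h1.1.le, h1.2⟩,
      fun h1 => ⟨s0.trans_le h1, (sqrt_le_iff.mp h1).2⟩⟩
  have c : EqOn (fun h : ℝ => h ^ (-3 : ℝ)) (fun h => 1 / h ^ 3) (Ioi √g) := by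
    intro h hh
    have : 0 < h := s0.trans hh
    simp only
    rw [rpow_neg this.le, one_div, ← rpow_natCast]; norm_num
  rw [e, setLIntegral_congr Ioi_ae_eq_Ici.symm, ← ofReal_integral_eq_lintegral_ofReal
    ((integrableOn_Ioi_rpow_of_lt (by norm_num) s0).congr_fun c measurableSet_Ioi)
    (ae_restrict_of_forall_mem measurableSet_Ioi fun h hh => by
      have : 0 < h := s0.trans hh
      positivity),
    ← setIntegral_congr_fun measurableSet_Ioi c, integral_Ioi_rpow_of_lt (by norm_num) s0]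
  congr 1
  rw [show (-3 : ℝ) + 1 = -(2 : ℕ) by norm_num, rpow_neg s0.le, rpow_natCast, sq_sqrt hg.le]
  push_cast
  field_simp

theorem rad_int {ρ l : ℝ} (h0 : 0 < ρ) (h1 : ρ < l) :
    ∫⁻ r in Ioc 0 ρ, ENNReal.ofReal (1 / (2 * (l - r)))
      = ENNReal.ofReal (1 / 2 * (log l - log (l - ρ))) := by
  have hc : ContinuousOn (fun r => 1 / (2 * (l - r))) (uIcc 0 ρ) := by
    apply ContinuousOn.div continuousOn_const (by fun_prop)
    intro r hr
    rw [uIcc_of_le h0.le] at hr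
    have : 0 < l - r := by linarith [hr.2]
    positivity
  rw [← ofReal_integral_eq_lintegral_ofReal
    ((intervalIntegrable_iff_integrableOn_Ioc_of_le h0.le).mp hc.intervalIntegrable)
    (ae_restrict_of_forall_mem measurableSet_Ioc fun r hr => by
      have : 0 < l - r := by linarith [hr.2]
      positivity), ← intervalIntegral.integral_of_le h0.le,
    intervalIntegral.integral_eq_sub_of_hasDerivAt (f := fun r => -(1 / 2) * log (l - r)) ?_
      hc.intervalIntegrable]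
  · congr 1; rw [sub_zero]; ring
  · intro r hr
    rw [uIcc_of_le h0.le] at hr
    have : 0 < l - r := by linarith [hr.2]
    refine ((((hasDerivAt_id r).const_sub l).log this.ne').const_mul (-(1 / 2))).congr_deriv ?_
    simp only [id]
    field_simp

theorem ang_int {α β γ : ℝ} (ha : 0 < α) (hb : 0 < β) (hc : 0 < γ) (h : α + β + γ = π) :
    ∫⁻ φ in Ioo 0 α, ENNReal.ofReal (1 / 2 * (log (sin (γ + φ) / sin γ)
      - log (sin (γ + φ) / sin γ - sin β / sin (β + φ))))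
      = ENNReal.ofReal (lob α + lob β + lob γ) ∧ 0 ≤ lob α + lob β + lob γ := by
  obtain ⟨G, hG⟩ : ∃ G : ℝ → ℝ, G = fun φ => 1 / 2 * (log |2 * sin (γ + φ)| + log |2 * sin (β + φ)|
    - log |2 * sin φ| - log |2 * sin (α - φ)|) := ⟨_, rfl⟩
  have i1 : IntervalIntegrable (fun φ => log |2 * sin (γ + φ)|) volume 0 α := by
    simpa using (ls_int γ (γ + α)).comp_add_left γ
  have i2 : IntervalIntegrable (fun φ => log |2 * sin (β + φ)|) volume 0 α := by
    simpa using (ls_int β (β + α)).comp_add_left β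
  have i3 := ls_int 0 α
  have i4 : IntervalIntegrable (fun φ => log |2 * sin (α - φ)|) volume 0 α := by
    simpa using (ls_int α 0).comp_sub_left α
  have iG : IntervalIntegrable G volume 0 α := by
    rw [hG]; exact (((i1.add i2).sub i3).sub i4).const_mul _
  have vG : ∫ φ in (0 : ℝ)..α, G φ = lob α + lob β + lob γ := by
    rw [hG, intervalIntegral.integral_const_mul,
      intervalIntegral.integral_sub ((i1.add i2).sub i3) i4,
      intervalIntegral.integral_sub (i1.add i2) i3, intervalIntegral.integral_add i1 i2,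
      intervalIntegral.integral_comp_add_left (fun t => log |2 * sin t|),
      intervalIntegral.integral_comp_add_left (fun t => log |2 * sin t|),
      intervalIntegral.integral_comp_sub_left (fun t => log |2 * sin t|)]
    simp only [lob_sub, add_zero, sub_self, sub_zero]
    rw [show γ + α = π - β by linarith, show β + α = π - γ by linarith, lob_pi_sub, lob_pi_sub]
    have : lob 0 = 0 := by simp [lob]
    rw [this]; ring
  have key : ∀ φ ∈ Ioo 0 α, 1 / 2 * (log (sin (γ + φ) / sin γ)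
      - log (sin (γ + φ) / sin γ - sin β / sin (β + φ))) = G φ ∧ 0 ≤ G φ := by
    intro φ ⟨h1, h2⟩
    have s1 : 0 < sin (γ + φ) := sin_pos_of_pos_of_lt_pi (by linarith) (by linarith)
    have s2 : 0 < sin (β + φ) := sin_pos_of_pos_of_lt_pi (by linarith) (by linarith)
    have s3 : 0 < sin φ := sin_pos_of_pos_of_lt_pi (by linarith) (by linarith)
    have s4 : 0 < sin (α - φ) := sin_pos_of_pos_of_lt_pi (by linarith) (by linarith)
    have s5 : 0 < sin γ := sin_pos_of_pos_of_lt_pi (by linarith) (by linarith)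
    have s6 : 0 < sin β := sin_pos_of_pos_of_lt_pi (by linarith) (by linarith)
    have e : sin (γ + φ) / sin γ - sin β / sin (β + φ)
        = sin φ * sin (α - φ) / (sin γ * sin (β + φ)) := by
      rw [show α - φ = π - (β + γ + φ) by linarith, sin_pi_sub]
      field_simp
      simp only [sin_add, cos_add]
      linear_combination (sin β * sin γ) * sin_sq_add_cos_sq φ
    have e2 : 1 / 2 * (log (sin (γ + φ) / sin γ)
        - log (sin (γ + φ) / sin γ - sin β / sin (β + φ))) = G φ := by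
      rw [e, hG]
      simp only [log_abs]
      rw [log_div s1.ne' s5.ne', log_div (by positivity) (by positivity), log_mul s3.ne' s4.ne',
        log_mul s5.ne' s2.ne', log_mul two_ne_zero s1.ne', log_mul two_ne_zero s2.ne',
        log_mul two_ne_zero s3.ne', log_mul two_ne_zero s4.ne']
      ring
    refine ⟨e2, ?_⟩
    rw [← e2]
    have : log (sin (γ + φ) / sin γ - sin β / sin (β + φ)) ≤ log (sin (γ + φ) / sin γ) :=
      log_le_log (by rw [e]; positivity) (sub_le_self _ (by positivity))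
    linarith
  have nn : 0 ≤ᵐ[volume.restrict (Ioo 0 α)] G :=
    ae_restrict_of_forall_mem measurableSet_Ioo fun φ hφ => (key φ hφ).2
  rw [← vG, intervalIntegral.integral_of_le ha.le, integral_Ioc_eq_integral_Ioo]
  refine ⟨?_, integral_nonneg_of_ae nn⟩
  rw [ofReal_integral_eq_lintegral_ofReal
    ((intervalIntegrable_iff_integrableOn_Ioo_of_le ha.le).mp iG) nn]
  exact setLIntegral_congr_fun measurableSet_Ioo fun φ hφ => by simp only [(key φ hφ).1]

theorem tet_eq {z : ℂ} (h : 0 < z.im) {b : ℝ} (hb : z.re + b * z.im = z.re ^ 2 + z.im ^ 2) :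
    idealTet z = {x | (0 ≤ x.1.im ∧ x.1.im * z.re ≤ x.1.re * z.im ∧
      x.1.re * z.im - x.1.im * z.re + x.1.im ≤ z.im) ∧ 0 < x.2 ∧
      x.1.re + b * x.1.im - (x.1.re ^ 2 + x.1.im ^ 2) ≤ x.2 ^ 2} := by
  have nn : ∀ u v : ℂ, ‖u‖ = ‖v‖ ↔ u.re ^ 2 + u.im ^ 2 = v.re ^ 2 + v.im ^ 2 := by
    intro u v
    rw [← sq_eq_sq₀ (norm_nonneg _) (norm_nonneg _), Complex.sq_norm, Complex.sq_norm,
      Complex.normSq_apply, Complex.normSq_apply, sq, sq, sq, sq]
  ext ⟨w, r⟩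
  simp only [idealTet, mem_ofPred_eq, nn, Complex.sq_norm, Complex.normSq_apply, Complex.sub_re,
    Complex.sub_im, Complex.one_re, Complex.one_im]
  refine and_congr ⟨?_, ?_⟩ (and_congr_right fun _ => ⟨fun H => ?_, fun H c h1 h2 => ?_⟩)
  · rintro ⟨s, t, h1, h2, h3, rfl⟩
    simp only [Complex.add_re, Complex.add_im, Complex.mul_re, Complex.mul_im, Complex.ofReal_re,
      Complex.ofReal_im]
    refine ⟨by nlinarith, by nlinarith, by nlinarith⟩
  · rintro ⟨h1, h2, h3⟩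
    refine ⟨(w.re * z.im - w.im * z.re) / z.im, w.im / z.im, div_nonneg (by linarith) h.le,
      div_nonneg h1 h.le, by rw [← add_div, div_le_one h]; linarith, ?_⟩
    apply Complex.ext <;>
      simp only [Complex.add_re, Complex.add_im, Complex.mul_re, Complex.mul_im, Complex.ofReal_re,
        Complex.ofReal_im] <;> field_simp <;> ring
  · have := H ⟨1 / 2, b / 2⟩ (by simp only; ring) (by simp only; linarith)
    simp only at this
    linarith
  · have e1 : c.re = 1 / 2 := by linarith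
    have e2 : c.im = b / 2 := by
      apply mul_left_cancel₀ h.ne'
      rw [e1] at h2
      linarith
    rw [e1, e2]; linarith

theorem milnor {z : ℂ} (h : 0 < z.im) : hypVol z = tetVol z := by
  obtain ⟨a0, b0, ab, hv, -⟩ := tet_facts h
  rw [Complex.log_im] at a0 b0
  rw [Complex.log_im, Complex.log_im] at ab hv
  have hz : z ≠ 0 := fun h0 => by rw [h0] at h; simp at h
  have hz1 : 1 - z ≠ 0 := fun h0 => by
    have := congrArg Complex.im h0
    simp at this; linarith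
  have R0 : 0 < ‖z‖ := norm_pos_iff.mpr hz
  have x1 : z.re = ‖z‖ * cos z.arg := by rw [Complex.cos_arg hz]; field_simp
  have x2 : z.im = ‖z‖ * sin z.arg := by rw [Complex.sin_arg]; field_simp
  have x3 : 1 - z.re = ‖1 - z‖ * cos (-(1 - z).arg) := by
    rw [cos_neg, Complex.cos_arg hz1]; simp only [Complex.sub_re, Complex.one_re]; field_simp
  have x4 : z.im = ‖1 - z‖ * sin (-(1 - z).arg) := by
    rw [sin_neg, Complex.sin_arg]
    simp only [Complex.sub_im, Complex.one_im]; field_simp; ring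
  rw [hv, F]
  generalize z.arg = α, -(1 - z).arg = β, ‖1 - z‖ = R', ‖z‖ = R at *
  obtain ⟨γ, hγ⟩ : ∃ γ, γ = π - α - β := ⟨_, rfl⟩
  rw [← hγ]
  have c0 : 0 < γ := by linarith
  have sα : 0 < sin α := sin_pos_of_pos_of_lt_pi a0 (by linarith)
  have sβ : 0 < sin β := sin_pos_of_pos_of_lt_pi b0 (by linarith)
  have sγ : 0 < sin γ := sin_pos_of_pos_of_lt_pi c0 (by linarith)
  have g1 : sin γ = sin α * cos β + cos α * sin β := by
    rw [hγ, show π - α - β = π - (α + β) by ring, sin_pi_sub, sin_add]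
  have g2 : sin β = sin α * cos γ + cos α * sin γ := by
    rw [show β = π - (α + γ) by linarith, sin_pi_sub, sin_add]
  have g3 : R * sin γ = sin β := by
    rw [g1]; linear_combination (-cos β) * x2 + cos β * x4 - sin β * x1 - sin β * x3
  obtain ⟨b, hb⟩ : ∃ b, b = cos γ / sin γ := ⟨_, rfl⟩
  have b1 : b * sin γ = cos γ := by rw [hb]; field_simp
  have b2 : z.re + b * z.im = z.re ^ 2 + z.im ^ 2 := by
    apply mul_left_cancel₀ sγ.ne'
    rw [x1, x2]
    linear_combination R * sin α * b1 - R * g2 - R * g3 - R ^ 2 * sin γ * sin_sq_add_cos_sq α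
  obtain ⟨I1, I2⟩ := ang_int a0 b0 c0 (by linarith)
  have mT : MeasurableSet (idealTet z) := by
    rw [tet_eq h b2]
    simp only [ofPred_and]
    refine ((?_ : MeasurableSet _).inter ((?_ : MeasurableSet _).inter ?_)).inter
      ((measurableSet_lt ?_ ?_).inter ?_) <;> first | fun_prop | (apply measurableSet_le <;> fun_prop)
  have mf : Measurable fun x : ℂ × ℝ => ENNReal.ofReal (1 / x.2 ^ 3) := by fun_prop
  obtain ⟨A, hA⟩ : ∃ A : Set (ℝ × ℝ),
      A = {p | p.2 ∈ Ioo 0 α ∧ p.1 ∈ Ioc 0 (sin β / sin (β + p.2))} := ⟨_, rfl⟩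
  have mA : MeasurableSet A := by
    rw [hA]
    simp only [mem_Ioo, mem_Ioc, ofPred_and]
    refine ((measurableSet_lt ?_ ?_).inter (measurableSet_lt ?_ ?_)).inter
      ((measurableSet_lt ?_ ?_).inter (measurableSet_le ?_ ?_)) <;> fun_prop
  obtain ⟨Ψ, hΨ⟩ : ∃ Ψ : ℝ × ℝ → ENNReal,
      Ψ = fun p => ENNReal.ofReal (1 / (2 * (sin (γ + p.2) / sin γ - p.1))) := ⟨_, rfl⟩
  have mΨ : Measurable Ψ := by rw [hΨ]; fun_prop
  have lt : ∀ φ ∈ Ioo 0 α, 0 < sin (β + φ) ∧ sin β / sin (β + φ) < sin (γ + φ) / sin γ := by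
    intro φ ⟨h1, h2⟩
    have s2 : 0 < sin (β + φ) := sin_pos_of_pos_of_lt_pi (by linarith) (by linarith)
    have s3 : 0 < sin φ := sin_pos_of_pos_of_lt_pi (by linarith) (by linarith)
    have s4 : 0 < sin (β + γ + φ) := sin_pos_of_pos_of_lt_pi (by linarith) (by linarith)
    refine ⟨s2, ?_⟩
    rw [div_lt_div_iff₀ s2 sγ]
    have := mul_pos s3 s4
    simp only [sin_add, cos_add] at this ⊢
    linear_combination this - (sin β * sin γ) * sin_sq_add_cos_sq φ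
  rw [hypVol, integral_eq_lintegral_of_nonneg_ae
    (ae_restrict_of_forall_mem mT fun x hx => by have := hx.2.1; positivity)
    (Measurable.aestronglyMeasurable (by fun_prop)),
    ← lintegral_indicator mT, Measure.volume_eq_prod,
    lintegral_prod _ (mf.indicator mT).aemeasurable, ← Complex.lintegral_comp_polarCoord_symm,
    ← lintegral_indicator polarCoord.open_target.measurableSet,
    lintegral_congr_ae (g := A.indicator Ψ), Measure.volume_eq_prod,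
    lintegral_prod_symm _ (mΨ.indicator mA).aemeasurable,
    lintegral_congr (g := (Ioo 0 α).indicator fun φ => ENNReal.ofReal (1 / 2 *
      (log (sin (γ + φ) / sin γ) - log (sin (γ + φ) / sin γ - sin β / sin (β + φ))))),
    lintegral_indicator measurableSet_Ioo, I1, ENNReal.toReal_ofReal I2]
  · intro φ
    by_cases hφ : φ ∈ Ioo 0 α
    · rw [indicator_of_mem hφ, ← rad_int (div_pos sβ (lt φ hφ).1) (lt φ hφ).2,
        ← lintegral_indicator measurableSet_Ioc]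
      apply lintegral_congr
      intro r
      simp only [indicator, hA, hΨ, mem_ofPred_eq, hφ, true_and]
    · rw [indicator_of_notMem hφ]
      simp only [indicator, hA, mem_ofPred_eq, hφ, false_and, if_false, lintegral_zero]
  · have ae : ∀ᵐ φ : ℝ, φ ≠ 0 ∧ φ ≠ α := (Measure.ae_ne _ _).and (Measure.ae_ne _ _)
    filter_upwards [Measure.quasiMeasurePreserving_snd.ae ae]
    rintro ⟨r, φ⟩ ⟨n1, n2⟩
    simp only at n1 n2
    by_cases ht : (r, φ) ∈ polarCoord.target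
    swap
    · rw [indicator_of_notMem ht, indicator_of_notMem]
      rw [hA]
      rintro ⟨⟨h1, h2⟩, h3, -⟩
      exact ht ⟨h3, by simp only at h1 ⊢; linarith [pi_pos], by simp only at h2 ⊢; linarith⟩
    rw [indicator_of_mem ht]
    obtain ⟨r0, f1, f2⟩ := ht
    simp only [mem_Ioi] at r0 f1 f2
    obtain ⟨w, hw⟩ : ∃ w, w = Complex.polarCoord.symm (r, φ) := ⟨_, rfl⟩
    have w1 : w.re = r * cos φ := by
      rw [hw, Complex.polarCoord_symm_apply]; simp [-Complex.ofReal_cos, -Complex.ofReal_sin]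
    have w2 : w.im = r * sin φ := by
      rw [hw, Complex.polarCoord_symm_apply]; simp [-Complex.ofReal_cos, -Complex.ofReal_sin]
    rw [← hw]
    have e1 : w.re * z.im - w.im * z.re = r * R * sin (α - φ) := by
      rw [w1, w2, x1, x2, sin_sub]; ring
    have e2 : sin γ * (w.re * z.im - w.im * z.re + w.im - z.im)
        = sin α * (r * sin (β + φ) - sin β) := by
      rw [e1, w2, x2, sin_sub, sin_add]
      linear_combination (r * (sin α * cos φ - cos α * sin φ) - sin α) * g3 + r * sin φ * g1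
    have e3 : w.re + b * w.im - (w.re ^ 2 + w.im ^ 2) = r * (sin (γ + φ) / sin γ - r) := by
      rw [w1, w2, hb, sin_add]
      field_simp
      linear_combination (-r * sin γ) * sin_sq_add_cos_sq φ
    have iff : (0 ≤ w.im ∧ w.im * z.re ≤ w.re * z.im ∧
        w.re * z.im - w.im * z.re + w.im ≤ z.im) ↔ (r, φ) ∈ A := by
      rw [hA]
      simp only [mem_ofPred_eq, mem_Ioo, mem_Ioc]
      constructor
      · rintro ⟨h1, h2, h3⟩
        have p1 : 0 < φ := by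
          by_contra hc
          have := sin_neg_of_neg_of_neg_pi_lt (lt_of_le_of_ne (not_lt.mp hc) n1) f1
          linarith [mul_neg_of_pos_of_neg r0 this]
        have p2 : φ < α := by
          by_contra hc
          have := sin_neg_of_neg_of_neg_pi_lt (x := α - φ)
            (by linarith [lt_of_le_of_ne (not_lt.mp hc) n2.symm]) (by linarith)
          linarith [mul_neg_of_pos_of_neg (mul_pos r0 R0) this]
        refine ⟨⟨p1, p2⟩, r0, ?_⟩
        rw [le_div_iff₀ (lt φ ⟨p1, p2⟩).1, ← sub_nonpos]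
        apply nonpos_of_mul_nonpos_right _ sα
        rw [← e2]
        exact mul_nonpos_of_nonneg_of_nonpos sγ.le (by linarith)
      · rintro ⟨⟨p1, p2⟩, -, h3⟩
        rw [le_div_iff₀ (lt φ ⟨p1, p2⟩).1] at h3
        have s3 : 0 < sin φ := sin_pos_of_pos_of_lt_pi p1 f2
        have s4 : 0 < sin (α - φ) := sin_pos_of_pos_of_lt_pi (by linarith) (by linarith)
        refine ⟨by rw [w2]; positivity, ?_, ?_⟩
        · linarith [mul_pos (mul_pos r0 R0) s4]
        · rw [← sub_nonpos]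
          apply nonpos_of_mul_nonpos_right _ sγ
          rw [e2]
          exact mul_nonpos_of_nonneg_of_nonpos sα.le (by linarith)
    by_cases hm : (r, φ) ∈ A
    · have hm' := hm
      rw [hA] at hm'
      have l0 : 0 < sin (γ + φ) / sin γ - r := by linarith [(lt φ hm'.1).2, hm'.2.2]
      have mS : MeasurableSet {h : ℝ | 0 < h ∧ r * (sin (γ + φ) / sin γ - r) ≤ h ^ 2} := by
        simp only [ofPred_and]
        refine (measurableSet_lt ?_ ?_).inter (measurableSet_le ?_ ?_) <;> fun_prop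
      rw [indicator_of_mem hm, lintegral_congr (g := indicator
        {h : ℝ | 0 < h ∧ r * (sin (γ + φ) / sin γ - r) ≤ h ^ 2} fun h => ENNReal.ofReal (1 / h ^ 3)),
        lintegral_indicator mS, vert_int (mul_pos r0 l0), hΨ, smul_eq_mul,
        ← ENNReal.ofReal_mul r0.le]
      · congr 1; field_simp
      · intro h'
        simp only [indicator, tet_eq h b2, mem_ofPred_eq, iff, hm, true_and, e3]
    · rw [indicator_of_notMem hm]
      simp only [indicator, tet_eq h b2, mem_ofPred_eq, iff, hm, false_and, if_false,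
        lintegral_zero, smul_zero]

theorem vol_iff {p q : ℤ} {v : ℝ} : Vol p q v ↔ FillVol p q v :=
  exists₂_congr fun _ _ => and_congr_right fun h => by rw [milnor h.1, milnor h.2.1]

end Pool.Agent.P.MP_858e15_gt
end
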