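import Mathlib
import Pool.Agent.K.MP_858e15_gt.C0

-- part Pool.Agent.P.MP_858e15_gt.Real1
section

namespace Pool.Agent.P.MP_858e15_gt

open Real

theorem cos_gap {a b : ℝ} (ha : 0 ≤ a) (hab : a ≤ b) (hb : b ≤ π) :
    (b - a) ^ 2 ≤ 5 * (cos a - cos b) := by
  have hp := pi_pos
  have hp2 : π ^ 2 < 10 := by nlinarith [pi_lt_d2]
  have s1 : 2 / π * ((b - a) / 2) ≤ sin ((b - a) / 2) := mul_le_sin (by linarith) (by linarith)
  have s0 : 0 ≤ 2 / π * ((b - a) / 2) := by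
    have : 0 ≤ b - a := by linarith
    positivity
  have s2 : sin ((b - a) / 2) ≤ sin ((a + b) / 2) := by
    rcases le_total ((a + b) / 2) (π / 2) with h | h
    · exact sin_le_sin_of_le_of_le_pi_div_two (by linarith) h (by linarith)
    · rw [← sin_pi_sub ((a + b) / 2)]
      exact sin_le_sin_of_le_of_le_pi_div_two (by linarith) (by linarith) (by linarith)
  have e : cos a - cos b = 2 * (sin ((a + b) / 2) * sin ((b - a) / 2)) := by
    rw [cos_sub_cos, show (a - b) / 2 = -((b - a) / 2) by ring, sin_neg]; ring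
  have s3 : (2 / π * ((b - a) / 2)) * (2 / π * ((b - a) / 2))
      ≤ sin ((a + b) / 2) * sin ((b - a) / 2) :=
    mul_le_mul (s1.trans s2) s1 s0 (s0.trans (s1.trans s2))
  have e2 : (2 / π * ((b - a) / 2)) * (2 / π * ((b - a) / 2)) = (b - a) ^ 2 / π ^ 2 := by
    field_simp
  rw [e2, div_le_iff₀ (by positivity)] at s3
  have s4 : 0 ≤ sin ((a + b) / 2) * sin ((b - a) / 2) :=
    mul_nonneg (s0.trans (s1.trans s2)) (s0.trans s1)
  rw [e]
  nlinarith

theorem box_aux {a a' b b' c δ ε : ℝ} (ha : 0 ≤ a) (hab : a ≤ b) (hb : b ≤ π)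
    (ha' : a' ∈ Set.Icc 0 π) (hb' : b' ∈ Set.Icc 0 π) (h1 : |cos a - cos a' - c| ≤ δ)
    (h2 : |cos b - cos b' - c| ≤ δ) (h3 : |(a + a') - (b + b')| ≤ ε) :
    (a - b) ^ 2 ≤ ε ^ 2 + 10 * δ ∧ (a' - b') ^ 2 ≤ ε ^ 2 + 10 * δ := by
  have d0 : 0 ≤ δ := (abs_nonneg _).trans h1
  obtain ⟨h31, h32⟩ := abs_le.mp h3
  rcases le_total a' b' with h | h
  · constructor <;> nlinarith
  · have g1 := cos_gap ha hab hb
    have g2 := cos_gap hb'.1 h ha'.2
    have := (abs_le.mp h1).2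
    have := (abs_le.mp h2).1
    constructor <;> nlinarith [sq_nonneg (b - a), sq_nonneg (a' - b'), sq_nonneg ε]

theorem box_lemma {a a' b b' c δ ε : ℝ} (ha : a ∈ Set.Icc 0 π) (hb : b ∈ Set.Icc 0 π)
    (ha' : a' ∈ Set.Icc 0 π) (hb' : b' ∈ Set.Icc 0 π) (h1 : |cos a - cos a' - c| ≤ δ)
    (h2 : |cos b - cos b' - c| ≤ δ) (h3 : |(a + a') - (b + b')| ≤ ε) :
    (a - b) ^ 2 ≤ ε ^ 2 + 10 * δ ∧ (a' - b') ^ 2 ≤ ε ^ 2 + 10 * δ := by
  rcases le_total a b with h | h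
  · exact box_aux ha.1 h hb.2 ha' hb' h1 h2 h3
  · have := box_aux (ε := ε) hb.1 h ha.2 hb' ha' h2 h1 (by rwa [abs_sub_comm])
    constructor <;> nlinarith [this.1, this.2]

theorem tangent_lemma {a a' b b' c δ : ℝ} (ha : a ∈ Set.Icc 0 π) (hb : b ∈ Set.Icc 0 π)
    (ha' : a' ∈ Set.Icc 0 π) (hb' : b' ∈ Set.Icc 0 π) (h1 : |cos a - cos a' - c| ≤ δ)
    (h2 : |cos b - cos b' - c| ≤ δ) (hc1 : 0.15 ≤ |c|) (hc2 : |c| ≤ 1.99) (hδ : δ ≤ 1 / 1000)
    (hd : |b - a| ≤ 1 / 1000) (he : |b - a| = |b' - a'|) :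
    |b - a| * |π - (a + a')| ≤ 200 * δ + (b - a) ^ 2 := by
  have hp := pi_pos
  have hp3 := pi_gt_three
  have hp4 : π < 3.15 := pi_lt_d2
  have d0 : 0 ≤ δ := (abs_nonneg _).trans h1
  have hdiff : |(cos a - cos a') - (cos b - cos b')| ≤ 2 * δ := by
    have : (cos a - cos a') - (cos b - cos b') = (cos a - cos a' - c) - (cos b - cos b' - c) := by
      ring
    rw [this]; refine (abs_sub _ _).trans ?_; linarith
  have D0 := abs_nonneg (b - a)
  have sD : |b - a| / π ≤ |sin ((b - a) / 2)| := by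
    have := mul_abs_le_abs_sin (x := (b - a) / 2) (by rw [abs_div, abs_two]; linarith)
    rw [abs_div, abs_two] at this
    refine le_trans (le_of_eq ?_) this
    field_simp
  rcases abs_eq_abs.mp he with h | h
  · have hb2 : b' = a' + (b - a) := by linarith
    have e : (cos a - cos a') - (cos b - cos b')
        = 4 * (sin ((b - a) / 2) * (sin ((π - (a + a' + (b - a))) / 2) * sin ((a - a') / 2))) := by
      have e1 : cos a - cos b = 2 * sin ((a + b) / 2) * sin ((b - a) / 2) := by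
        rw [cos_sub_cos, show (a - b) / 2 = -((b - a) / 2) by ring, sin_neg]; ring
      have e2 : cos a' - cos b' = 2 * sin ((a' + b') / 2) * sin ((b - a) / 2) := by
        rw [cos_sub_cos, show (a' - b') / 2 = -((b - a) / 2) by rw [hb2]; ring, sin_neg]; ring
      have e3 : sin ((a + b) / 2) - sin ((a' + b') / 2)
          = 2 * sin ((a - a') / 2) * sin ((π - (a + a' + (b - a))) / 2) := by
        rw [sin_sub_sin, show (π - (a + a' + (b - a))) / 2 = π / 2 - (a + a' + (b - a)) / 2 by ring,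
          sin_pi_div_two_sub]
        congr 2
        · congr 1; rw [hb2]; ring
        · rw [hb2]; ring
      linear_combination e1 - e2 + 2 * sin ((b - a) / 2) * e3
    have s2 : |π - (a + a' + (b - a))| / π ≤ |sin ((π - (a + a' + (b - a))) / 2)| := by
      have := mul_abs_le_abs_sin (x := (π - (a + a' + (b - a))) / 2) (by
        rw [abs_div, abs_two]
        have : |π - (a + a' + (b - a))| ≤ π := by
          rw [abs_le]; constructor <;> linarith [ha.1, ha.2, hb.1, hb.2, ha'.1, ha'.2]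
        linarith)
      rw [abs_div, abs_two] at this
      refine le_trans (le_of_eq ?_) this
      field_simp
    have s3 : 0.07 ≤ |sin ((a - a') / 2)| := by
      have x1 : |cos a - cos a'| ≤ 2 * |sin ((a - a') / 2)| := by
        rw [cos_sub_cos, abs_mul, abs_mul]
        have := abs_sin_le_one ((a + a') / 2)
        have := abs_nonneg (sin ((a - a') / 2))
        norm_num
        nlinarith
      have x2 : |c| ≤ |cos a - cos a'| + |cos a - cos a' - c| := by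
        refine le_trans (le_of_eq ?_) (abs_sub _ _)
        congr 1; ring
      linarith
    rw [e, abs_mul, abs_mul, abs_mul] at hdiff
    have W0 := abs_nonneg (π - (a + a' + (b - a)))
    have s4 : |b - a| / π * (|π - (a + a' + (b - a))| / π * 0.07)
        ≤ |sin ((b - a) / 2)| * (|sin ((π - (a + a' + (b - a))) / 2)| * |sin ((a - a') / 2)|) := by
      gcongr
    have s5 : |b - a| * |π - (a + a' + (b - a))| ≤ 200 * δ := by
      have e4 : |b - a| / π * (|π - (a + a' + (b - a))| / π * 0.07)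
          = |b - a| * |π - (a + a' + (b - a))| * 0.07 / π ^ 2 := by field_simp
      rw [e4, div_le_iff₀ (by positivity)] at s4
      have q1 : π ^ 2 ≤ 10 := by nlinarith
      have q2 : |(4 : ℝ)| = 4 := by norm_num
      rw [q2] at hdiff
      have q3 : 0 ≤ |sin ((b - a) / 2)| * (|sin ((π - (a + a' + (b - a))) / 2)|
        * |sin ((a - a') / 2)|) := by positivity
      nlinarith
    have s6 : |π - (a + a')| ≤ |π - (a + a' + (b - a))| + |b - a| := by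
      refine le_trans (le_of_eq ?_) (abs_add_le _ _)
      congr 1; ring
    rw [← sq_abs (b - a)]
    nlinarith
  · have hb2 : b' = a' + (a - b) := by linarith
    have e : (cos a - cos a') - (cos b - cos b')
        = 2 * (sin ((b - a) / 2) * (sin ((a + b) / 2) + sin ((a' + b') / 2))) := by
      have e1 : cos a - cos b = 2 * sin ((a + b) / 2) * sin ((b - a) / 2) := by
        rw [cos_sub_cos, show (a - b) / 2 = -((b - a) / 2) by ring, sin_neg]; ring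
      have e2 : cos a' - cos b' = -2 * sin ((a' + b') / 2) * sin ((b - a) / 2) := by
        rw [cos_sub_cos, show (a' - b') / 2 = (b - a) / 2 by rw [hb2]; ring]
      linear_combination e1 - e2
    set m := (a + b) / 2 with hm
    set m' := (a' + b') / 2 with hm'
    have sm : 0 ≤ sin m := sin_nonneg_of_nonneg_of_le_pi (by linarith [ha.1, hb.1])
      (by linarith [ha.2, hb.2])
    have sm' : 0 ≤ sin m' := sin_nonneg_of_nonneg_of_le_pi (by linarith [ha'.1, hb'.1])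
      (by linarith [ha'.2, hb'.2])
    have l1 : |cos m - cos a| ≤ 1 / 2000 := by
      refine (abs_cos_sub_cos_le _ _).trans ?_
      rw [show m - a = (b - a) / 2 by rw [hm]; ring, abs_div, abs_two]; linarith
    have l2 : |cos m' - cos a'| ≤ 1 / 2000 := by
      refine (abs_cos_sub_cos_le _ _).trans ?_
      rw [show m' - a' = (b' - a') / 2 by rw [hm']; ring, abs_div, abs_two]; linarith
    have t1 : 0.1 ≤ sin m + sin m' := by
      have c1 := sin_sq_add_cos_sq m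
      have c2 := sin_sq_add_cos_sq m'
      have c3 := cos_le_one m
      have c4 := cos_le_one m'
      have c5 := neg_one_le_cos m
      have c6 := neg_one_le_cos m'
      obtain ⟨l11, l12⟩ := abs_le.mp l1
      obtain ⟨l21, l22⟩ := abs_le.mp l2
      obtain ⟨h11, h12⟩ := abs_le.mp h1
      have t2 : 0.01 ≤ sin m ^ 2 + sin m' ^ 2 := by
        rcases le_total 0 c with hc | hc
        · rw [abs_of_nonneg hc] at hc1 hc2
          have y1 : 0.14 ≤ cos m - cos m' := by linarith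
          have y2 : cos m - cos m' ≤ 1.992 := by linarith
          nlinarith [mul_nonneg (sub_nonneg.mpr c3) (show 0 ≤ 1 + cos m' by linarith),
            mul_nonneg (sub_nonneg.mpr y1) (sub_nonneg.mpr y2)]
        · rw [abs_of_nonpos hc] at hc1 hc2
          have y1 : 0.14 ≤ cos m' - cos m := by linarith
          have y2 : cos m' - cos m ≤ 1.992 := by linarith
          nlinarith [mul_nonneg (sub_nonneg.mpr c4) (show 0 ≤ 1 + cos m by linarith),
            mul_nonneg (sub_nonneg.mpr y1) (sub_nonneg.mpr y2)]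
      nlinarith [mul_nonneg sm sm']
    rw [e, abs_mul, abs_mul, abs_two, abs_of_nonneg (a := sin m + sin m') (by linarith)] at hdiff
    have s4 : |b - a| / π * 0.1 ≤ |sin ((b - a) / 2)| * (sin m + sin m') := by gcongr
    have s5 : |b - a| ≤ 40 * δ := by
      have e4 : |b - a| / π * 0.1 = |b - a| * 0.1 / π := by ring
      rw [e4, div_le_iff₀ hp] at s4
      have q3 : 0 ≤ |sin ((b - a) / 2)| * (sin m + sin m') := by positivity
      nlinarith
    have s6 : |π - (a + a')| ≤ 4 := by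
      rw [abs_le]; constructor <;> linarith [ha.1, ha.2, ha'.1, ha'.2]
    have := abs_nonneg (π - (a + a'))
    nlinarith [sq_nonneg (b - a)]

theorem quartic_lemma {g L e2 e1 e0 s1 s2 T Γ : ℝ} (hT : 0 < T) (h1 : T ≤ |s1|) (h2 : T ≤ |s2|)
    (g1 : |g * s1 ^ 4 + L * s1 ^ 3 + e2 * s1 ^ 2 + e1 * s1 + e0| ≤ Γ)
    (g2 : |g * s2 ^ 4 + L * s2 ^ 3 + e2 * s2 ^ 2 + e1 * s2 + e0| ≤ Γ) :
    |g| * |s2 - s1| ≤ 2 * Γ / T ^ 3
      + |s2 - s1| * (|e2| / T ^ 2 + 2 * |e1| / T ^ 3 + 3 * |e0| / T ^ 4) := by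
  have n1 : s1 ≠ 0 := abs_pos.mp (by linarith)
  have n2 : s2 ≠ 0 := abs_pos.mp (by linarith)
  obtain ⟨x, hx⟩ : ∃ x, x = 1 / s1 := ⟨_, rfl⟩
  obtain ⟨y, hy⟩ : ∃ y, y = 1 / s2 := ⟨_, rfl⟩
  obtain ⟨t, ht⟩ : ∃ t, t = 1 / T := ⟨_, rfl⟩
  have t0 : 0 < t := by rw [ht]; positivity
  have bx : |x| ≤ t := by
    rw [hx, ht, abs_div, abs_one]; exact one_div_le_one_div_of_le hT h1
  have by' : |y| ≤ t := by
    rw [hy, ht, abs_div, abs_one]; exact one_div_le_one_div_of_le hT h2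
  have G0 : 0 ≤ Γ := (abs_nonneg _).trans g1
  have e : g * (s2 - s1) = (g * s2 ^ 4 + L * s2 ^ 3 + e2 * s2 ^ 2 + e1 * s2 + e0) * y ^ 3
      - (g * s1 ^ 4 + L * s1 ^ 3 + e2 * s1 ^ 2 + e1 * s1 + e0) * x ^ 3
      + (s2 - s1) * (e2 * (x * y) + e1 * (x * y * (x + y))
        + e0 * (x * y * (x ^ 2 + x * y + y ^ 2))) := by
    rw [hx, hy]; field_simp; ring
  have b1 : |x * y| ≤ t ^ 2 := by rw [abs_mul, sq]; gcongr
  have b2 : |x * y * (x + y)| ≤ t ^ 2 * (2 * t) := by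
    rw [abs_mul (x * y)]
    gcongr
    refine (abs_add_le _ _).trans ?_; linarith
  have b3 : |x * y * (x ^ 2 + x * y + y ^ 2)| ≤ t ^ 2 * (3 * t ^ 2) := by
    rw [abs_mul (x * y)]
    gcongr
    have x2 : |x ^ 2| ≤ t ^ 2 := by rw [abs_pow]; gcongr
    have y2 : |y ^ 2| ≤ t ^ 2 := by rw [abs_pow]; gcongr
    refine (abs_add_le _ _).trans ((add_le_add_left (abs_add_le _ _) _).trans ?_)
    linarith
  have b4 : |e2 * (x * y) + e1 * (x * y * (x + y)) + e0 * (x * y * (x ^ 2 + x * y + y ^ 2))|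
      ≤ |e2| * t ^ 2 + |e1| * (t ^ 2 * (2 * t)) + |e0| * (t ^ 2 * (3 * t ^ 2)) := by
    refine (abs_add_le _ _).trans ((add_le_add_left (abs_add_le _ _) _).trans ?_)
    rw [abs_mul e2, abs_mul e1, abs_mul e0]
    gcongr
  have b5 : |(g * s2 ^ 4 + L * s2 ^ 3 + e2 * s2 ^ 2 + e1 * s2 + e0) * y ^ 3| ≤ Γ * t ^ 3 := by
    rw [abs_mul, abs_pow]; gcongr
  have b6 : |(g * s1 ^ 4 + L * s1 ^ 3 + e2 * s1 ^ 2 + e1 * s1 + e0) * x ^ 3| ≤ Γ * t ^ 3 := by
    rw [abs_mul, abs_pow]; gcongr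
  have e2' : 2 * Γ / T ^ 3 + |s2 - s1| * (|e2| / T ^ 2 + 2 * |e1| / T ^ 3 + 3 * |e0| / T ^ 4)
      = Γ * t ^ 3 + Γ * t ^ 3 + |s2 - s1| * (|e2| * t ^ 2 + |e1| * (t ^ 2 * (2 * t))
        + |e0| * (t ^ 2 * (3 * t ^ 2))) := by
    rw [ht]; field_simp; ring
  rw [← abs_mul, e, e2']
  refine (abs_add_le _ _).trans (add_le_add ((abs_sub _ _).trans (add_le_add b5 b6)) ?_)
  rw [abs_mul]
  gcongr

theorem sep_card {α : Type*} (S : Finset α) (x : α → ℝ) {l η : ℝ} (hη : 0 < η) (hl : 0 ≤ l)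
    (h1 : ∀ a ∈ S, ∀ b ∈ S, |x b - x a| ≤ l)
    (h2 : ∀ a ∈ S, ∀ b ∈ S, a ≠ b → η ≤ |x b - x a|) : (S.card : ℝ) ≤ 2 * l / η + 1 := by
  rcases S.eq_empty_or_nonempty with rfl | ⟨a0, ha0⟩
  · simp; positivity
  have hc : S.card ≤ (Finset.range (⌊2 * l / η⌋₊ + 1)).card := by
    apply Finset.card_le_card_of_injOn (fun a => ⌊(x a - x a0 + l) / η⌋₊)
    · intro a ha
      simp only [Finset.coe_range, Set.mem_Iio]
      apply Nat.lt_succ_of_le
      apply Nat.floor_le_floor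
      have := (abs_le.mp (h1 a0 ha0 a ha)).2
      gcongr; linarith
    · intro a ha b hb hab
      by_contra hne
      have q1 := h2 a ha b hb hne
      have pa : 0 ≤ (x a - x a0 + l) / η :=
        div_nonneg (by linarith [(abs_le.mp (h1 a0 ha0 a ha)).1]) hη.le
      have pb : 0 ≤ (x b - x a0 + l) / η :=
        div_nonneg (by linarith [(abs_le.mp (h1 a0 ha0 b hb)).1]) hη.le
      have f1 := Nat.floor_le pa
      have f2 := Nat.lt_floor_add_one ((x a - x a0 + l) / η)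
      have f3 := Nat.floor_le pb
      have f4 := Nat.lt_floor_add_one ((x b - x a0 + l) / η)
      simp only at hab
      rw [hab] at f1 f2
      have q2 : |(x b - x a) / η| < 1 := by
        have : (x b - x a) / η = (x b - x a0 + l) / η - (x a - x a0 + l) / η := by ring
        rw [this, abs_lt]; constructor <;> linarith
      rw [abs_div, abs_of_pos hη, div_lt_one hη] at q2
      linarith
  rw [Finset.card_range] at hc
  have : (S.card : ℝ) ≤ (⌊2 * l / η⌋₊ : ℝ) + 1 := by exact_mod_cast hc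
  have f := Nat.floor_le (show 0 ≤ 2 * l / η by positivity)
  linarith

theorem harm_sum (M : ℕ) {x : ℝ} (h0 : 0 ≤ x) (hM : x ≤ M) :
    ∑ j ∈ Finset.range M, 1 / (|(j : ℝ) - x| + 1) ≤ 4 * (1 + log (M + 1)) := by
  obtain ⟨n, hn⟩ : ∃ n : ℕ, n = ⌊x⌋₊ := ⟨_, rfl⟩
  have n1 : (n : ℝ) ≤ x := by rw [hn]; exact Nat.floor_le h0
  have n2 : x < n + 1 := by rw [hn]; exact Nat.lt_floor_add_one x
  have nM : n ≤ M := by exact_mod_cast n1.trans hM
  have s1 : ∑ j ∈ Finset.range M, 1 / (|(j : ℝ) - x| + 1)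
      ≤ ∑ j ∈ Finset.range M, 2 / ((((j : ℤ) - n).natAbs : ℝ) + 1) := by
    apply Finset.sum_le_sum
    intro j _
    have e : ((((j : ℤ) - n).natAbs : ℕ) : ℝ) = |(j : ℝ) - n| := by
      rw [Nat.cast_natAbs]; push_cast; rfl
    rw [e, div_le_div_iff₀ (by positivity) (by positivity)]
    have : |(j : ℝ) - n| ≤ |(j : ℝ) - x| + |x - n| := abs_sub_le _ _ _
    have h2 : |x - n| ≤ 1 := by rw [abs_le]; constructor <;> linarith
    have := abs_nonneg ((j : ℝ) - x)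
    linarith
  have s2 : ∑ j ∈ Finset.range M, 2 / ((((j : ℤ) - n).natAbs : ℝ) + 1)
      ≤ ∑ t ∈ Finset.range (M + 1), 2 * (2 / ((t : ℝ) + 1)) := by
    rw [← Finset.sum_fiberwise_of_maps_to (t := Finset.range (M + 1))
      (g := fun j : ℕ => ((j : ℤ) - n).natAbs) (by
        intro j hj
        simp only [Finset.mem_range] at hj ⊢
        omega)]
    apply Finset.sum_le_sum
    intro t _
    rw [Finset.sum_congr rfl (g := fun _ => 2 / ((t : ℝ) + 1)) (by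
      intro j hj
      rw [(Finset.mem_filter.mp hj).2]), Finset.sum_const, nsmul_eq_mul]
    gcongr
    have : ((Finset.range M).filter fun j : ℕ => ((j : ℤ) - n).natAbs = t) ⊆ {n + t, n - t} := by
      intro j hj
      have := (Finset.mem_filter.mp hj).2
      simp only [Finset.mem_insert, Finset.mem_singleton]
      omega
    exact_mod_cast (Finset.card_le_card this).trans Finset.card_le_two
  have s3 : ∑ t ∈ Finset.range (M + 1), 2 * (2 / ((t : ℝ) + 1)) = 4 * (harmonic (M + 1) : ℝ) := by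
    unfold harmonic
    push_cast
    rw [Finset.mul_sum]
    apply Finset.sum_congr rfl
    intro t _
    ring
  have s4 := harmonic_le_one_add_log (M + 1)
  push_cast at s4
  linarith

theorem geom_sqrt (n : ℕ) : ∑ i ∈ Finset.range (n + 1), √((2 : ℝ) ^ i) ≤ 4 * √((2 : ℝ) ^ n) := by
  induction n with
  | zero => simp
  | succ n ih =>
    rw [Finset.sum_range_succ]
    have e : √((2 : ℝ) ^ (n + 1)) = √((2 : ℝ) ^ n) * √2 := by
      rw [pow_succ, sqrt_mul (by positivity)]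
    have h2 : 4 / 3 ≤ √2 := le_sqrt_of_sq_le (by norm_num)
    have h3 := sqrt_nonneg ((2 : ℝ) ^ n)
    rw [e]
    nlinarith

end Pool.Agent.P.MP_858e15_gt
end

-- part Pool.Agent.P.MP_858e15_gt.Lattice
section

namespace Pool.Agent.P.MP_858e15_gt

abbrev V := Fin 4 → ℤ

def BB (P Q : V) : ℤ := (P 2 * Q 2 + 12 * (P 3 * Q 3)) - (P 0 * Q 0 + 12 * (P 1 * Q 1))

def NN (P : V) : ℤ := P 0 ^ 2 + 12 * P 1 ^ 2

def NN' (P : V) : ℤ := P 2 ^ 2 + 12 * P 3 ^ 2

def Prim (d : V) : Prop := ∃ c : V, c 0 * d 0 + c 1 * d 1 + c 2 * d 2 + c 3 * d 3 = 1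

theorem BB_self (P : V) : BB P P = NN' P - NN P := by unfold BB NN NN'; ring

theorem classes (S : Finset V) (L M : ℕ) (hL : ∀ P ∈ S, ∀ Q ∈ S, |BB P Q| ≤ L)
    (hM : ∀ S' ⊆ S, (∀ P ∈ S', ∀ Q ∈ S', BB P Q = BB P P) → S'.card ≤ M) :
    S.card ≤ M * (2 * L + 1) ^ 4 := by
  classical
  let cst : V → (Fin 4 → ℚ) := fun P i => (P i : ℚ)
  obtain ⟨f, hf, hspan, -⟩ := Submodule.exists_fun_fin_finrank_span_eq ℚ (cst '' (S : Set V))
  have hn : Module.finrank ℚ (Submodule.span ℚ (cst '' (S : Set V))) ≤ 4 := by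
    simpa using Submodule.finrank_le (Submodule.span ℚ (cst '' (S : Set V)))
  choose b hb hbf using hf
  have hcard := Finset.card_le_mul_card_image_of_maps_to (s := S)
    (f := fun P i => BB P (b i))
    (t := Fintype.piFinset fun _ => Finset.Icc (-(L : ℤ)) L) (by
      intro P hP
      rw [Fintype.mem_piFinset]
      intro i
      exact Finset.mem_Icc.mpr (abs_le.mp (hL P hP _ (hb i)))) M (by
      intro y _
      apply hM _ (Finset.filter_subset _ _)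
      intro P hP Q hQ
      obtain ⟨hP1, hP2⟩ := Finset.mem_filter.mp hP
      obtain ⟨hQ1, hQ2⟩ := Finset.mem_filter.mp hQ
      have hmem : cst P ∈ Submodule.span ℚ (Set.range f) := by
        rw [hspan]; exact Submodule.subset_span ⟨P, hP1, rfl⟩
      have key : ∀ x ∈ Submodule.span ℚ (Set.range f),
          ((P 2 - Q 2 : ℚ) * x 2 + 12 * ((P 3 - Q 3 : ℚ) * x 3))
            - ((P 0 - Q 0 : ℚ) * x 0 + 12 * ((P 1 - Q 1 : ℚ) * x 1)) = 0 := by
        intro x hx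
        induction hx using Submodule.span_induction with
        | mem x hx =>
          obtain ⟨i, rfl⟩ := hx
          have e : BB P (b i) = BB Q (b i) := congrFun (hP2.trans hQ2.symm) i
          have e' : ((BB P (b i) : ℤ) : ℚ) = BB Q (b i) := by rw [e]
          rw [← hbf i]
          unfold BB at e'
          push_cast at e'
          simp only [cst]
          linarith
        | zero => simp
        | add x y _ _ hx hy => simp only [Pi.add_apply]; linarith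
        | smul a x _ hx =>
          simp only [Pi.smul_apply, smul_eq_mul]
          linear_combination a * hx
      have := key _ hmem
      simp only [cst] at this
      have e : ((BB P Q : ℤ) : ℚ) = BB P P := by
        unfold BB; push_cast; linarith
      exact_mod_cast e)
  refine hcard.trans (Nat.mul_le_mul_left _ ?_)
  rw [Fintype.card_piFinset]
  simp only [Int.card_Icc, Finset.prod_const, Finset.card_univ, Fintype.card_fin]
  have : ((L : ℤ) + 1 - -(L : ℤ)).toNat = 2 * L + 1 := by omega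
  rw [this]
  exact Nat.pow_le_pow_right (by omega) hn

theorem exists_prim {D : V} (h : D ≠ 0) : ∃ (m : ℤ) (d : V), m ≠ 0 ∧ Prim d ∧ ∀ i, D i = m * d i := by
  obtain ⟨d, hd, h1⟩ := Finset.extract_gcd (s := Finset.univ) D Finset.univ_nonempty
  obtain ⟨c, hc⟩ := Finset.gcd_eq_sum_mul Finset.univ d
  refine ⟨Finset.univ.gcd D, d, ?_, ⟨c, ?_⟩, fun i => hd i (Finset.mem_univ _)⟩
  · intro h0
    apply h
    funext i
    rw [hd i (Finset.mem_univ _), h0]; simp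
  · rw [h1, Fin.sum_univ_four] at hc
    linarith

theorem prim_pos {d : V} (hd : Prim d) (hi : NN' d = NN d) : 0 < NN d := by
  obtain ⟨c, hc⟩ := hd
  by_contra h0
  unfold NN NN' at *
  have a0 : d 0 = 0 := by nlinarith [sq_nonneg (d 0), sq_nonneg (d 1)]
  have a1 : d 1 = 0 := by nlinarith [sq_nonneg (d 0), sq_nonneg (d 1)]
  have a2 : d 2 = 0 := by nlinarith [sq_nonneg (d 2), sq_nonneg (d 3)]
  have a3 : d 3 = 0 := by nlinarith [sq_nonneg (d 2), sq_nonneg (d 3)]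
  rw [a0, a1, a2, a3] at hc
  simp at hc

def ss (P d : V) : ℤ := P 0 * d 0 + 12 * (P 1 * d 1)

def ii (P d : V) : ℤ := P 0 * d 1 - P 1 * d 0

def ii' (P d : V) : ℤ := P 2 * d 3 - P 3 * d 2

theorem line_facts {P d : V} (hi : NN' d = NN d) (hP : BB P d = 0) :
    NN P * NN d = ss P d ^ 2 + 12 * ii P d ^ 2 ∧ NN' P * NN d = ss P d ^ 2 + 12 * ii' P d ^ 2 ∧
    NN d * P 0 = ss P d * d 0 + 12 * ii P d * d 1 ∧ NN d * P 1 = ss P d * d 1 - ii P d * d 0 ∧
    NN d * P 2 = ss P d * d 2 + 12 * ii' P d * d 3 ∧ NN d * P 3 = ss P d * d 3 - ii' P d * d 2 := by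
  have e : ss P d = P 2 * d 2 + 12 * (P 3 * d 3) := by unfold ss; unfold BB at hP; linarith
  refine ⟨by unfold NN ss ii; ring, ?_, by unfold NN ss ii; ring, by unfold NN ss ii; ring, ?_, ?_⟩
  · rw [e, ← hi]; unfold NN' ii'; ring
  · rw [e, ← hi]; unfold NN' ii'; ring
  · rw [e, ← hi]; unfold NN' ii'; ring

theorem pair_facts {P Q d : V} (hi : NN' d = NN d) (hP : BB P d = 0) (hQ : BB Q d = 0) :
    BB P Q * NN d = 12 * (ii' P d * ii' Q d - ii P d * ii Q d) := by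
  have e1 : ss P d = P 2 * d 2 + 12 * (P 3 * d 3) := by unfold ss; unfold BB at hP; linarith
  have e2 : ss Q d = Q 2 * d 2 + 12 * (Q 3 * d 3) := by unfold ss; unfold BB at hQ; linarith
  have a1 : (P 0 * Q 0 + 12 * (P 1 * Q 1)) * NN d = ss P d * ss Q d + 12 * (ii P d * ii Q d) := by
    unfold NN ss ii; ring
  have a2 : (P 2 * Q 2 + 12 * (P 3 * Q 3)) * NN d = ss P d * ss Q d + 12 * (ii' P d * ii' Q d) := by
    rw [e1, e2, ← hi]; unfold NN' ii'; ring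
  unfold BB
  linear_combination a2 - a1

theorem split_bound {β n k : ℤ} (hk : k ≠ 0) (hk2 : |k| ≤ 13) (h : β ^ 2 - k ^ 2 = n ^ 2) :
    |β| ≤ 169 ∧ |n| ≤ 169 := by
  have k1 : 0 < |k| := abs_pos.mpr hk
  have e : |β| ^ 2 - |k| ^ 2 = |n| ^ 2 := by simp only [sq_abs]; exact h
  have b0 := abs_nonneg β
  have n0 := abs_nonneg n
  have h1 : |n| < |β| := by
    by_contra hc
    push Not at hc
    nlinarith
  have h2 : |n| + 1 ≤ |β| := h1
  constructor <;> nlinarith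

theorem line_count {d : V} (hd : Prim d) (hi : NN' d = NN d) {k : ℤ} (hk : k ≠ 0)
    (hk2 : |k| ≤ 13) (S : Finset V) (M L : ℕ) (hL : (L : ℤ) = 169)
    (hS : ∀ P ∈ S, BB P d = 0 ∧ BB P P = k ∧ NN P ≤ (M : ℤ) ^ 2 * NN d) :
    S.card ≤ (2 * L + 1) * ((2 * L + 1) * (2 * M + 1)) := by
  classical
  rcases S.eq_empty_or_nonempty with rfl | ⟨Q, hQ⟩
  · simp
  have h0 := prim_pos hd hi
  obtain ⟨q1, q2, -⟩ := hS Q hQ
  have hkQ := pair_facts hi q1 q1
  rw [q2] at hkQ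
  have hn : ∀ P ∈ S, ∃ n : ℤ, 12 * (ii' P d * ii Q d - ii P d * ii' Q d) = n * NN d ∧
      |BB P Q| ≤ L ∧ |n| ≤ L := by
    intro P hP
    rw [hL]
    obtain ⟨p1, p2, -⟩ := hS P hP
    have a1 := pair_facts hi p1 q1
    have a2 := pair_facts hi p1 p1
    rw [p2] at a2
    have e : (12 * (ii' P d * ii Q d - ii P d * ii' Q d)) ^ 2
        = NN d ^ 2 * (BB P Q ^ 2 - k ^ 2) := by
      have x1 : NN d ^ 2 * BB P Q ^ 2 = (12 * (ii' P d * ii' Q d - ii P d * ii Q d)) ^ 2 := by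
        rw [← a1]; ring
      have x2 : NN d ^ 2 * k ^ 2 = (12 * (ii' P d * ii' P d - ii P d * ii P d))
          * (12 * (ii' Q d * ii' Q d - ii Q d * ii Q d)) := by
        rw [← a2, ← hkQ]; ring
      linear_combination x2 - x1
    have hdvd : NN d ∣ 12 * (ii' P d * ii Q d - ii P d * ii' Q d) :=
      (Int.pow_dvd_pow_iff two_ne_zero).mp ⟨_, e⟩
    obtain ⟨n, hn⟩ := hdvd
    refine ⟨n, by rw [hn]; ring, split_bound hk hk2 ?_⟩
    rw [hn, mul_pow] at e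
    exact (mul_left_cancel₀ (pow_ne_zero 2 h0.ne') e).symm
  have hc : S.card ≤ (Finset.Icc (-(L : ℤ)) L ×ˢ Finset.Icc (-(L : ℤ)) L
      ×ˢ Finset.Icc (-(M : ℤ)) M).card := by
    apply Finset.card_le_card_of_injOn (fun P => (BB P Q,
      12 * (ii' P d * ii Q d - ii P d * ii' Q d) / NN d, ss P d / NN d))
    · intro P hP
      obtain ⟨n, n1, n2, n3⟩ := hn P hP
      obtain ⟨p1, -, p3⟩ := hS P hP
      have f1 := (line_facts hi p1).1
      have s1 : ss P d ^ 2 ≤ ((M : ℤ) * NN d) ^ 2 := by nlinarith [sq_nonneg (ii P d)]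
      have s2 := abs_le_of_sq_le_sq' s1 (by positivity)
      simp only [Finset.coe_product, Set.mem_prod, Finset.coe_Icc, Set.mem_Icc]
      rw [n1, Int.mul_ediv_cancel _ h0.ne']
      refine ⟨abs_le.mp n2, abs_le.mp n3, ?_, ?_⟩
      · rw [Int.le_ediv_iff_mul_le h0]; linarith [s2.1]
      · exact Int.ediv_le_of_le_mul h0 s2.2
    · intro P hP R hR hPR
      obtain ⟨n, n1, -, -⟩ := hn P hP
      obtain ⟨n', n1', -, -⟩ := hn R hR
      obtain ⟨p1, -, -⟩ := hS P hP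
      obtain ⟨r1, -, -⟩ := hS R hR
      simp only [Prod.mk.injEq] at hPR
      obtain ⟨e1, e2, e3⟩ := hPR
      rw [n1, n1', Int.mul_ediv_cancel _ h0.ne', Int.mul_ediv_cancel _ h0.ne'] at e2
      have a1 := pair_facts hi p1 q1
      have a2 := pair_facts hi r1 q1
      have x1 : (ii' P d - ii' R d) * ii' Q d - (ii P d - ii R d) * ii Q d = 0 := by
        rw [e1] at a1; linarith
      have x2 : (ii' P d - ii' R d) * ii Q d - (ii P d - ii R d) * ii' Q d = 0 := by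
        rw [e2] at n1; linarith
      have hne : k * NN d ≠ 0 := mul_ne_zero hk h0.ne'
      have y1 : ii P d = ii R d := by
        have : (ii P d - ii R d) * (k * NN d) = 0 := by
          rw [hkQ]; linear_combination 12 * ii Q d * x1 - 12 * ii' Q d * x2
        exact sub_eq_zero.mp ((mul_eq_zero.mp this).resolve_right hne)
      have y2 : ii' P d = ii' R d := by
        have : (ii' P d - ii' R d) * (k * NN d) = 0 := by
          rw [hkQ]; linear_combination 12 * ii' Q d * x1 - 12 * ii Q d * x2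
        exact sub_eq_zero.mp ((mul_eq_zero.mp this).resolve_right hne)
      obtain ⟨-, -, f0, f1, f2, f3⟩ := line_facts hi p1
      obtain ⟨-, -, g0, g1, g2, g3⟩ := line_facts hi r1
      rw [y1] at f0 f1
      rw [y2] at f2 f3
      obtain ⟨c, hc⟩ := hd
      have z : ss P d - ss R d = NN d * (c 0 * (P 0 - R 0) + c 1 * (P 1 - R 1)
          + c 2 * (P 2 - R 2) + c 3 * (P 3 - R 3)) := by
        linear_combination (-(ss P d - ss R d)) * hc - c 0 * (f0 - g0) - c 1 * (f1 - g1)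
          - c 2 * (f2 - g2) - c 3 * (f3 - g3)
      have z2 : ss P d % NN d = ss R d % NN d :=
        (Int.emod_emod_of_dvd _ (dvd_refl _)).symm.trans <| by
          rw [Int.emod_emod_of_dvd _ (dvd_refl _)]
          exact Int.emod_eq_emod_iff_emod_sub_eq_zero.mpr (by rw [z]; simp)
      have z3 : ss P d = ss R d := by
        rw [← Int.mul_ediv_add_emod (ss P d) (NN d), ← Int.mul_ediv_add_emod (ss R d) (NN d),
          e3, z2]
      rw [z3] at f0 f1 f2 f3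
      funext i
      fin_cases i
      · exact mul_left_cancel₀ h0.ne' (f0.trans g0.symm)
      · exact mul_left_cancel₀ h0.ne' (f1.trans g1.symm)
      · exact mul_left_cancel₀ h0.ne' (f2.trans g2.symm)
      · exact mul_left_cancel₀ h0.ne' (f3.trans g3.symm)
  refine hc.trans (le_of_eq ?_)
  simp only [Finset.card_product, Int.card_Icc]
  have : ((M : ℤ) + 1 - -(M : ℤ)).toNat = 2 * M + 1 := by omega
  have h2 : ((L : ℤ) + 1 - -(L : ℤ)).toNat = 2 * L + 1 := by omega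
  rw [this, h2]

end Pool.Agent.P.MP_858e15_gt
end

-- part Pool.Agent.P.MP_858e15_gt.Angle
section

namespace Pool.Agent.P.MP_858e15_gt

open Real

noncomputable def ang (p q : ℤ) : ℝ := arccos (p / √((p : ℝ) ^ 2 + 12 * (q : ℝ) ^ 2))

noncomputable def fold (x : ℝ) : ℝ := if x ≤ π / 4 then 4 * x else 2 * π - 4 * x

theorem ang_facts {p q : ℤ} (hp : 0 ≤ p) (hq : 0 ≤ q) {n : ℝ} (hn : n = (p : ℝ) ^ 2 + 12 * (q : ℝ) ^ 2)
    (h : 0 < n) : 0 ≤ ang p q ∧ ang p q ≤ π / 2 ∧ √n * cos (ang p q) = p ∧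
      √n * sin (ang p q) = 2 * s3 * q ∧ cos (fold (ang p q)) = c4 p q ∧
      fold (ang p q) ∈ Set.Icc 0 π := by
  have hp' : (0 : ℝ) ≤ p := by exact_mod_cast hp
  have hq' : (0 : ℝ) ≤ q := by exact_mod_cast hq
  have sn : 0 < √n := sqrt_pos.mpr h
  have sn2 : √n ^ 2 = n := sq_sqrt h.le
  have x0 : 0 ≤ (p : ℝ) / √n := by positivity
  have x1 : (p : ℝ) / √n ≤ 1 := by
    rw [div_le_one sn]
    apply le_sqrt_of_sq_le; nlinarith [sq_nonneg (q : ℝ)]
  have a0 : 0 ≤ ang p q := arccos_nonneg _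
  have a1 : ang p q ≤ π / 2 := by unfold ang; rw [← hn]; exact arccos_le_pi_div_two.mpr x0
  have hc : √n * cos (ang p q) = p := by
    unfold ang; rw [← hn, cos_arccos (by linarith) x1]; field_simp
  have s0 := s3_pos
  have hs : √n * sin (ang p q) = 2 * s3 * q := by
    have h1 : 0 ≤ sin (ang p q) := sin_nonneg_of_nonneg_of_le_pi a0 (by linarith [pi_pos])
    rw [← sq_eq_sq₀ (by positivity) (by positivity)]
    have := sin_sq_add_cos_sq (ang p q)
    have e : (√n * cos (ang p q)) ^ 2 = (p : ℝ) ^ 2 := by rw [hc]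
    linear_combination (√n ^ 2) * this - e + sn2 + hn - 4 * (q : ℝ) ^ 2 * s3_sq
  refine ⟨a0, a1, hc, hs, ?_, ?_⟩
  · have e1 : cos (fold (ang p q)) = cos (4 * ang p q) := by
      unfold fold
      split_ifs
      · rfl
      · rw [cos_two_pi_sub]
    have e2 : cos (4 * ang p q) = 1 - 8 * (sin (ang p q) * cos (ang p q)) ^ 2 := by
      rw [show 4 * ang p q = 2 * (2 * ang p q) by ring, cos_two_mul, cos_sq', sin_two_mul]; ring
    have e3 : n * (sin (ang p q) * cos (ang p q)) = 2 * s3 * q * p := by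
      rw [← hs, ← hc]; linear_combination (-(sin (ang p q) * cos (ang p q))) * sn2
    have e4 : sin (ang p q) * cos (ang p q) = 2 * s3 * q * p / n := by
      rw [← e3]; field_simp
    rw [e1, e2, e4]
    unfold c4
    rw [← hn]
    field_simp
    linear_combination (-32 * (q : ℝ) ^ 2 * (p : ℝ) ^ 2) * s3_sq
  · unfold fold
    split_ifs with h4
    · constructor <;> linarith
    · push Not at h4; constructor <;> linarith

theorem fold_diff {x y : ℝ} (h : decide (x ≤ π / 4) = decide (y ≤ π / 4)) :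
    |fold x - fold y| = 4 * |x - y| := by
  have h' : x ≤ π / 4 ↔ y ≤ π / 4 := by simpa using h
  unfold fold
  by_cases hx : x ≤ π / 4
  · rw [if_pos hx, if_pos (h'.mp hx), ← mul_sub, abs_mul]; norm_num
  · rw [if_neg hx, if_neg (fun hy => hx (h'.mpr hy)),
      show 2 * π - 4 * x - (2 * π - 4 * y) = -4 * (x - y) by ring, abs_mul]
    norm_num

theorem two_vec {p q r s : ℤ} (hp : 0 ≤ p) (hq : 0 ≤ q) (hr : 0 ≤ r) (hs : 0 ≤ s) {n m : ℝ}
    (hn : n = (p : ℝ) ^ 2 + 12 * (q : ℝ) ^ 2) (hm : m = (r : ℝ) ^ 2 + 12 * (s : ℝ) ^ 2)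
    (n0 : 0 < n) (m0 : 0 < m) :
    (p : ℝ) * r + 12 * (q * s) = √n * √m * cos (ang p q - ang r s) ∧
      12 * ((p : ℝ) * s - q * r) ^ 2 = n * m * sin (ang p q - ang r s) ^ 2 := by
  obtain ⟨-, -, a1, a2, -, -⟩ := ang_facts hp hq hn n0
  obtain ⟨-, -, b1, b2, -, -⟩ := ang_facts hr hs hm m0
  constructor
  · have : √n * √m * cos (ang p q - ang r s) = (√n * cos (ang p q)) * (√m * cos (ang r s))
        + (√n * sin (ang p q)) * (√m * sin (ang r s)) := by rw [cos_sub]; ring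
    rw [this, a1, a2, b1, b2]
    linear_combination (-4 * (q : ℝ) * s) * s3_sq
  · have : n * m * sin (ang p q - ang r s) ^ 2 = ((√n * sin (ang p q)) * (√m * cos (ang r s))
        - (√n * cos (ang p q)) * (√m * sin (ang r s))) ^ 2 := by
      rw [sin_sub]
      conv_lhs => rw [← sq_sqrt n0.le, ← sq_sqrt m0.le]
      ring
    rw [this, a1, a2, b1, b2]
    linear_combination (-4 * ((p : ℝ) * s - q * r) ^ 2) * s3_sq

def Near (k : ℤ) (c K Y : ℝ) (P : V) : Prop :=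
  (∀ i, 0 ≤ P i) ∧ NN' P = NN P + k ∧ Y ≤ NN P ∧ (NN P : ℝ) ≤ 2 * Y ∧
    |c4 (P 0) (P 1) - c4 (P 2) (P 3) - c| ≤ K / Y

noncomputable def th (P : V) : ℝ := ang (P 0) (P 1)

noncomputable def th' (P : V) : ℝ := ang (P 2) (P 3)

noncomputable def lab (Y : ℝ) (P : V) : (Bool × Bool) × ℕ :=
  ((decide (th P ≤ π / 4), decide (th' P ≤ π / 4)), ⌊√Y * (fold (th P) + fold (th' P))⌋₊)

theorem NN_cast (P : V) : (NN P : ℝ) = (P 0 : ℝ) ^ 2 + 12 * (P 1 : ℝ) ^ 2 := by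
  unfold NN; push_cast; ring

theorem NN'_cast (P : V) : (NN' P : ℝ) = (P 2 : ℝ) ^ 2 + 12 * (P 3 : ℝ) ^ 2 := by
  unfold NN'; push_cast; ring

theorem near_basic {k : ℤ} {c K Y : ℝ} {P : V} (hk : |k| ≤ 13) (hY : 40 ≤ Y) (h : Near k c K Y P) :
    (NN' P : ℝ) = NN P + k ∧ Y / 2 ≤ NN' P ∧ (NN' P : ℝ) ≤ 3 * Y ∧
    fold (th P) ∈ Set.Icc 0 π ∧ fold (th' P) ∈ Set.Icc 0 π ∧
    |cos (fold (th P)) - cos (fold (th' P)) - c| ≤ K / Y ∧
    th P ∈ Set.Icc 0 (π / 2) ∧ th' P ∈ Set.Icc 0 (π / 2) := by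
  obtain ⟨h0, h1, h2, h3, h4⟩ := h
  have e : (NN' P : ℝ) = NN P + k := by exact_mod_cast h1
  have k1 : (-13 : ℝ) ≤ k := by exact_mod_cast (abs_le.mp hk).1
  have k2 : (k : ℝ) ≤ 13 := by exact_mod_cast (abs_le.mp hk).2
  obtain ⟨a1, a2, -, -, a5, a6⟩ := ang_facts (h0 0) (h0 1) (NN_cast P) (by linarith)
  obtain ⟨b1, b2, -, -, b5, b6⟩ := ang_facts (h0 2) (h0 3) (NN'_cast P) (by linarith)
  refine ⟨e, by linarith, by linarith, a6, b6, ?_, ⟨a1, a2⟩, ⟨b1, b2⟩⟩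
  unfold th th'
  rw [a5, b5]; exact h4

theorem lab_mem {k : ℤ} {c K Y : ℝ} {P : V} (hk : |k| ≤ 13) (hY : 40 ≤ Y) (h : Near k c K Y P) :
    lab Y P ∈ (Finset.univ : Finset (Bool × Bool)) ×ˢ Finset.range (⌊7 * √Y⌋₊ + 1) := by
  obtain ⟨-, -, -, a, b, -⟩ := near_basic hk hY h
  simp only [Finset.mem_product, Finset.mem_univ, true_and, Finset.mem_range, lab]
  apply Nat.lt_succ_of_le
  apply Nat.floor_le_floor
  have := sqrt_nonneg Y
  nlinarith [a.2, b.2, pi_lt_d2]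

theorem same_lab {k : ℤ} {c K Y : ℝ} {P Q : V} (hk : |k| ≤ 13) (hY : 40 ≤ Y)
    (hP : Near k c K Y P) (hQ : Near k c K Y Q) (h : lab Y P = lab Y Q) :
    (fold (th P) - fold (th Q)) ^ 2 ≤ (1 + 10 * K) / Y ∧
    (fold (th' P) - fold (th' Q)) ^ 2 ≤ (1 + 10 * K) / Y ∧
    |fold (th P) - fold (th Q)| = 4 * |th P - th Q| ∧
    |fold (th' P) - fold (th' Q)| = 4 * |th' P - th' Q| := by
  obtain ⟨-, -, -, a1, a2, a3, -⟩ := near_basic hk hY hP
  obtain ⟨-, -, -, b1, b2, b3, -⟩ := near_basic hk hY hQ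
  simp only [lab, Prod.mk.injEq] at h
  obtain ⟨⟨e1, e2⟩, e3⟩ := h
  have Y0 : 0 < Y := by linarith
  have sY : 0 < √Y := sqrt_pos.mpr Y0
  have f1 := Nat.floor_le (show 0 ≤ √Y * (fold (th P) + fold (th' P)) by
    have := a1.1; have := a2.1; positivity)
  have f2 := Nat.lt_floor_add_one (√Y * (fold (th P) + fold (th' P)))
  have f3 := Nat.floor_le (show 0 ≤ √Y * (fold (th Q) + fold (th' Q)) by
    have := b1.1; have := b2.1; positivity)
  have f4 := Nat.lt_floor_add_one (√Y * (fold (th Q) + fold (th' Q)))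
  rw [e3] at f1 f2
  have h3 : |(fold (th P) + fold (th' P)) - (fold (th Q) + fold (th' Q))| ≤ 1 / √Y := by
    rw [le_div_iff₀ sY, ← abs_of_pos sY, ← abs_mul, abs_le]
    constructor <;> nlinarith
  have := box_lemma a1 b1 a2 b2 a3 b3 h3
  have e : (1 / √Y) ^ 2 + 10 * (K / Y) = (1 + 10 * K) / Y := by
    rw [div_pow, sq_sqrt Y0.le]; ring
  rw [e] at this
  exact ⟨this.1, this.2, fold_diff e1, fold_diff e2⟩

theorem gram {k : ℤ} {c K Y : ℝ} {P Q : V} (hk : |k| ≤ 13) (hY : 40 ≤ Y) (hK : 0 ≤ K)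
    (hP : Near k c K Y P) (hQ : Near k c K Y Q) (h : lab Y P = lab Y Q) :
    |(BB P Q : ℝ)| ≤ 2 * K + 60 ∧ 12 * (ii P Q : ℝ) ^ 2 ≤ (1 + 10 * K) * Y ∧
      12 * (ii' P Q : ℝ) ^ 2 ≤ (1 + 10 * K) * Y := by
  obtain ⟨s1, s2, s3', s4⟩ := same_lab hk hY hP hQ h
  obtain ⟨a1, a2, a3, -⟩ := near_basic hk hY hP
  obtain ⟨b1, b2, b3, -⟩ := near_basic hk hY hQ
  obtain ⟨p0, -, p2, p3, -⟩ := hP
  obtain ⟨q0, -, q2, q3, -⟩ := hQ
  have Y0 : 0 < Y := by linarith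
  have k1 : (-13 : ℝ) ≤ k := by exact_mod_cast (abs_le.mp hk).1
  have k2 : (k : ℝ) ≤ 13 := by exact_mod_cast (abs_le.mp hk).2
  obtain ⟨t1, t2⟩ := two_vec (p0 0) (p0 1) (q0 0) (q0 1) (NN_cast P) (NN_cast Q) (by linarith)
    (by linarith)
  obtain ⟨t3, t4⟩ := two_vec (p0 2) (p0 3) (q0 2) (q0 3) (NN'_cast P) (NN'_cast Q) (by linarith)
    (by linarith)
  change _ = _ * cos (th P - th Q) at t1
  change _ = _ * sin (th P - th Q) ^ 2 at t2
  change _ = _ * cos (th' P - th' Q) at t3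
  change _ = _ * sin (th' P - th' Q) ^ 2 at t4
  obtain ⟨W, hW⟩ : ∃ W, W = (1 + 10 * K) / Y := ⟨_, rfl⟩
  have hWY : W * Y = 1 + 10 * K := by rw [hW]; field_simp
  rw [← hW] at s1 s2
  have d1 : 16 * (th P - th Q) ^ 2 ≤ W := by
    rw [← sq_abs, s3', mul_pow, sq_abs] at s1; linarith
  have d2 : 16 * (th' P - th' Q) ^ 2 ≤ W := by
    rw [← sq_abs, s4, mul_pow, sq_abs] at s2; linarith
  generalize th P - th Q = x at *
  generalize th' P - th' Q = y at *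
  generalize (NN P : ℝ) = n at *
  generalize (NN Q : ℝ) = m at *
  generalize (NN' P : ℝ) = n' at *
  generalize (NN' Q : ℝ) = m' at *
  have W0 : 0 ≤ W := by nlinarith [sq_nonneg x]
  refine ⟨?_, ?_, ?_⟩
  · have e : (BB P Q : ℝ) = √n' * √m' * cos y - √n * √m * cos x := by
      unfold BB; push_cast; rw [t1, t3]
    rw [e, ← sqrt_mul (by linarith), ← sqrt_mul (by linarith)]
    obtain ⟨A, hA⟩ : ∃ A, A = √(n' * m') := ⟨_, rfl⟩
    obtain ⟨B, hB⟩ : ∃ B, B = √(n * m) := ⟨_, rfl⟩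
    rw [← hA, ← hB]
    have A2 : A ^ 2 = n' * m' := by rw [hA]; exact sq_sqrt (by apply mul_nonneg <;> linarith)
    have B2 : B ^ 2 = n * m := by rw [hB]; exact sq_sqrt (by apply mul_nonneg <;> linarith)
    have A0 : 0 ≤ A := by rw [hA]; exact sqrt_nonneg _
    have A3 : A ≤ 3 * Y := by
      rw [hA]; apply sqrt_le_iff.mpr ⟨by linarith, _⟩; nlinarith
    have B1 : Y ≤ B := by rw [hB]; apply le_sqrt_of_sq_le; nlinarith
    have B3 : B ≤ 2 * Y := by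
      rw [hB]; apply sqrt_le_iff.mpr ⟨by linarith, _⟩; nlinarith
    have AB : |A - B| ≤ 57 := by
      have e1 : (A - B) * (A + B) = k * (n + m + k) := by
        rw [a1, b1] at A2; linear_combination A2 - B2
      have e2 : |A - B| * (A + B) ≤ 13 * (4 * Y + 13) := by
        rw [← abs_of_pos (a := A + B) (by linarith), ← abs_mul, e1, abs_mul]
        exact mul_le_mul (abs_le.mpr ⟨k1, k2⟩) (abs_le.mpr ⟨by linarith, by linarith⟩)
          (abs_nonneg _) (by norm_num)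
      by_contra hc
      push Not at hc
      nlinarith
    have c1 := one_sub_sq_div_two_le_cos (x := x)
    have c2 := one_sub_sq_div_two_le_cos (x := y)
    have c3 := cos_le_one x
    have c4' := cos_le_one y
    have u1 : A * (1 - cos y) ≤ 3 * Y * (W / 32) :=
      mul_le_mul A3 (by linarith) (by linarith) (by linarith)
    have u2 : B * (1 - cos x) ≤ 2 * Y * (W / 32) :=
      mul_le_mul B3 (by linarith) (by linarith) (by linarith)
    have u3 : 0 ≤ A * (1 - cos y) := mul_nonneg A0 (by linarith)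
    have u4 : 0 ≤ B * (1 - cos x) := mul_nonneg (by linarith) (by linarith)
    obtain ⟨AB1, AB2⟩ := abs_le.mp AB
    rw [abs_le]
    constructor <;> nlinarith
  · have e : (ii P Q : ℝ) = (P 0 : ℝ) * Q 1 - P 1 * Q 0 := by unfold ii; push_cast; ring
    rw [e, t2, ← hWY]
    have := sin_sq_le_sq (x := x)
    calc n * m * sin x ^ 2 ≤ (2 * Y) * (2 * Y) * (W / 16) := by gcongr <;> linarith
      _ ≤ W * Y * Y := by nlinarith [mul_nonneg W0 (sq_nonneg Y)]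
  · have e : (ii' P Q : ℝ) = (P 2 : ℝ) * Q 3 - P 3 * Q 2 := by unfold ii'; push_cast; ring
    rw [e, t4, ← hWY]
    have := sin_sq_le_sq (x := y)
    calc n' * m' * sin y ^ 2 ≤ (3 * Y) * (3 * Y) * (W / 16) := by gcongr <;> linarith
      _ ≤ W * Y * Y := by nlinarith [mul_nonneg W0 (sq_nonneg Y)]

end Pool.Agent.P.MP_858e15_gt
end

-- part Pool.Agent.P.MP_858e15_gt.Adm
section

namespace Pool.Agent.P.MP_858e15_gt

open Real

theorem adm_real {X X' W W' h i i' s1 s2 c Y K3 K4 : ℝ} (hX : |X| ≤ h ^ 2) (hX' : |X'| ≤ h ^ 2)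
    (hW : |W| ≤ 4 * h ^ 2) (hW' : |W'| ≤ 4 * h ^ 2) (hc : |c| ≤ 2) (hY : 0 < Y) (hK3 : 0 ≤ K3)
    (hK4 : 1 ≤ K4) (hi : 12 * i ^ 2 ≤ K4 * Y) (hi' : 12 * i' ^ 2 ≤ K4 * Y)
    (h1 : Y * h ≤ s1 ^ 2 + 12 * i ^ 2) (h2 : Y * h ≤ s2 ^ 2 + 12 * i ^ 2) (hh : h ≤ 8 * Y)
    (hh2 : 2 * K4 ≤ h) (hs : h ≤ |s2 - s1|)
    (g1 : |(X * (s1 ^ 4 - 72 * s1 ^ 2 * i ^ 2 + 144 * i ^ 4) + W * i * (4 * s1 ^ 3 - 48 * s1 * i ^ 2))
      - (X' * (s1 ^ 4 - 72 * s1 ^ 2 * i' ^ 2 + 144 * i' ^ 4)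
        + W' * i' * (4 * s1 ^ 3 - 48 * s1 * i' ^ 2))
      - c * (h ^ 2 * (s1 ^ 2 + 12 * i ^ 2) ^ 2)| ≤ K3 * Y * h ^ 4)
    (g2 : |(X * (s2 ^ 4 - 72 * s2 ^ 2 * i ^ 2 + 144 * i ^ 4) + W * i * (4 * s2 ^ 3 - 48 * s2 * i ^ 2))
      - (X' * (s2 ^ 4 - 72 * s2 ^ 2 * i' ^ 2 + 144 * i' ^ 4)
        + W' * i' * (4 * s2 ^ 3 - 48 * s2 * i' ^ 2))
      - c * (h ^ 2 * (s2 ^ 2 + 12 * i ^ 2) ^ 2)| ≤ K3 * Y * h ^ 4) :
    |X - X' - c * h ^ 2| ≤ (16 * K3 + 576 * K4) * h := by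
  have h0 : 0 < h := by linarith
  obtain ⟨T, hT⟩ : ∃ T, T = √(Y * h / 2) := ⟨_, rfl⟩
  obtain ⟨J, hJ⟩ : ∃ J, J = √(K4 * Y / 12) := ⟨_, rfl⟩
  have T0 : 0 < T := by rw [hT]; positivity
  have J0 : 0 ≤ J := by rw [hJ]; positivity
  have T2 : T ^ 2 = Y * h / 2 := by rw [hT]; exact sq_sqrt (by positivity)
  have J2 : J ^ 2 = K4 * Y / 12 := by rw [hJ]; exact sq_sqrt (by positivity)
  have KY : K4 * Y ≤ Y * h / 2 := by nlinarith
  have t1 : T ≤ |s1| := le_of_sq_le_sq (by rw [sq_abs]; linarith) (abs_nonneg _)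
  have t2 : T ≤ |s2| := le_of_sq_le_sq (by rw [sq_abs]; linarith) (abs_nonneg _)
  have j1 : |i| ≤ J := abs_le_of_sq_le_sq (by linarith) J0
  have j2 : |i'| ≤ J := abs_le_of_sq_le_sq (by linarith) J0
  have JT : J ≤ T := by
    apply le_of_sq_le_sq _ T0.le |> fun x => x
    have : 0 ≤ K4 * Y := by positivity
    linarith
  have hT4 : h ≤ 4 * T := by
    apply le_of_sq_le_sq _ (by positivity) |> fun x => x
    rw [mul_pow, T2]; nlinarith
  have q := quartic_lemma (g := X - X' - c * h ^ 2) (L := 4 * (W * i - W' * i'))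
    (e2 := -72 * (X * i ^ 2 - X' * i' ^ 2) - 24 * (c * (h ^ 2 * i ^ 2)))
    (e1 := -48 * (W * i ^ 3 - W' * i' ^ 3))
    (e0 := 144 * (X * i ^ 4 - X' * i' ^ 4) - 144 * (c * (h ^ 2 * i ^ 4))) T0 t1 t2
    (le_trans (le_of_eq (by congr 1; ring)) g1) (le_trans (le_of_eq (by congr 1; ring)) g2)
  have m1 : ∀ (A B x : ℝ) (n : ℕ), |A| ≤ B → |x| ≤ J → |A * x ^ n| ≤ B * J ^ n := by
    intro A B x n hA hx
    rw [abs_mul, abs_pow]
    exact mul_le_mul hA (pow_le_pow_left₀ (abs_nonneg _) hx n) (by positivity)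
      ((abs_nonneg _).trans hA)
  have m2 : ∀ n : ℕ, |c * (h ^ 2 * i ^ n)| ≤ 2 * (h ^ 2 * J ^ n) := by
    intro n
    rw [abs_mul]
    exact mul_le_mul hc (m1 _ _ _ n (le_of_eq (abs_of_nonneg (by positivity))) j1) (abs_nonneg _)
      (by norm_num)
  have b2 : |-72 * (X * i ^ 2 - X' * i' ^ 2) - 24 * (c * (h ^ 2 * i ^ 2))| ≤ 576 * (h ^ 2 * J ^ 2) := by
    have x1 := abs_le.mp (m1 _ _ _ 2 hX j1)
    have x2 := abs_le.mp (m1 _ _ _ 2 hX' j2)
    have x3 := abs_le.mp (m2 2)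
    have : 0 ≤ h ^ 2 * J ^ 2 := by positivity
    rw [abs_le]; constructor <;> linarith [x1.1, x1.2, x2.1, x2.2, x3.1, x3.2]
  have b1 : |-48 * (W * i ^ 3 - W' * i' ^ 3)| ≤ 576 * (h ^ 2 * J ^ 3) := by
    have x1 := abs_le.mp (m1 _ _ _ 3 hW j1)
    have x2 := abs_le.mp (m1 _ _ _ 3 hW' j2)
    have : 0 ≤ h ^ 2 * J ^ 3 := by positivity
    rw [abs_le]; constructor <;> linarith [x1.1, x1.2, x2.1, x2.2]
  have b0 : |144 * (X * i ^ 4 - X' * i' ^ 4) - 144 * (c * (h ^ 2 * i ^ 4))|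
      ≤ 576 * (h ^ 2 * J ^ 4) := by
    have x1 := abs_le.mp (m1 _ _ _ 4 hX j1)
    have x2 := abs_le.mp (m1 _ _ _ 4 hX' j2)
    have x3 := abs_le.mp (m2 4)
    rw [abs_le]; constructor <;> linarith [x1.1, x1.2, x2.1, x2.2, x3.1, x3.2]
  obtain ⟨r, hr⟩ : ∃ r, r = J / T := ⟨_, rfl⟩
  have r0 : 0 ≤ r := by rw [hr]; positivity
  have r1 : r ≤ 1 := by rw [hr]; exact div_le_one_of_le₀ JT T0.le
  have r2 : r ^ 2 = K4 / (6 * h) := by rw [hr, div_pow, J2, T2]; field_simp; norm_num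
  have r3 : r ^ 3 ≤ r ^ 2 := pow_le_pow_of_le_one r0 r1 (by norm_num)
  have r4 : r ^ 4 ≤ r ^ 2 := pow_le_pow_of_le_one r0 r1 (by norm_num)
  have u : |-72 * (X * i ^ 2 - X' * i' ^ 2) - 24 * (c * (h ^ 2 * i ^ 2))| / T ^ 2
      + 2 * |-48 * (W * i ^ 3 - W' * i' ^ 3)| / T ^ 3
      + 3 * |144 * (X * i ^ 4 - X' * i' ^ 4) - 144 * (c * (h ^ 2 * i ^ 4))| / T ^ 4
      ≤ 576 * K4 * h := by
    calc _ ≤ 576 * (h ^ 2 * J ^ 2) / T ^ 2 + 2 * (576 * (h ^ 2 * J ^ 3)) / T ^ 3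
          + 3 * (576 * (h ^ 2 * J ^ 4)) / T ^ 4 := by gcongr
      _ = 576 * h ^ 2 * (r ^ 2 + 2 * r ^ 3 + 3 * r ^ 4) := by rw [hr]; field_simp
      _ ≤ 576 * h ^ 2 * (6 * r ^ 2) := by gcongr; linarith
      _ = _ := by rw [r2]; field_simp
  have v : 2 * (K3 * Y * h ^ 4) / T ^ 3 ≤ |s2 - s1| * (16 * K3 * h) := by
    have e : 2 * (K3 * Y * h ^ 4) / T ^ 3 = 4 * K3 * h ^ 2 * (h / T) := by
      rw [show T ^ 3 = T ^ 2 * T by ring, T2]; field_simp; ring
    have : h / T ≤ 4 := by rw [div_le_iff₀ T0]; exact hT4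
    calc _ = 4 * K3 * h ^ 2 * (h / T) := e
      _ ≤ 4 * K3 * h ^ 2 * 4 := by gcongr
      _ = h * (16 * K3 * h) := by ring
      _ ≤ _ := by gcongr
  have s0 : 0 < |s2 - s1| := by linarith
  have w := mul_le_mul_of_nonneg_left u s0.le
  apply le_of_mul_le_mul_right _ s0
  linarith

theorem G_bound {k : ℤ} {c K Y : ℝ} {P : V} (hk : |k| ≤ 13) (hY : 40 ≤ Y) (hK : 0 ≤ K)
    (hP : Near k c K Y P) :
    |((NN P : ℝ) ^ 2 - 96 * ((P 0 : ℝ) ^ 2 * (P 1 : ℝ) ^ 2))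
      - ((NN' P : ℝ) ^ 2 - 96 * ((P 2 : ℝ) ^ 2 * (P 3 : ℝ) ^ 2)) - c * (NN P : ℝ) ^ 2|
      ≤ (4 * K + 65) * Y := by
  obtain ⟨a1, a2, a3, -, -, -, -⟩ := near_basic hk hY hP
  obtain ⟨p0, -, p2, p3, p4⟩ := hP
  have Y0 : 0 < Y := by linarith
  obtain ⟨-, -, -, -, b5, -⟩ := ang_facts (p0 2) (p0 3) (NN'_cast P) (by linarith)
  have c1 : |c4 (P 2) (P 3)| ≤ 1 := by rw [← b5]; exact abs_cos_le_one _
  have k1 : (-13 : ℝ) ≤ k := by exact_mod_cast (abs_le.mp hk).1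
  have k2 : (k : ℝ) ≤ 13 := by exact_mod_cast (abs_le.mp hk).2
  have e1 : (NN P : ℝ) ^ 2 - 96 * ((P 0 : ℝ) ^ 2 * (P 1 : ℝ) ^ 2)
      = (NN P : ℝ) ^ 2 * c4 (P 0) (P 1) := by
    unfold c4; rw [← NN_cast]
    have : (NN P : ℝ) ≠ 0 := by linarith
    field_simp
  have e2 : (NN' P : ℝ) ^ 2 - 96 * ((P 2 : ℝ) ^ 2 * (P 3 : ℝ) ^ 2)
      = (NN' P : ℝ) ^ 2 * c4 (P 2) (P 3) := by
    unfold c4; rw [← NN'_cast]
    have : (NN' P : ℝ) ≠ 0 := by linarith
    field_simp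
  have e3 : (NN P : ℝ) ^ 2 * c4 (P 0) (P 1) - (NN' P : ℝ) ^ 2 * c4 (P 2) (P 3) - c * (NN P : ℝ) ^ 2
      = (NN P : ℝ) ^ 2 * (c4 (P 0) (P 1) - c4 (P 2) (P 3) - c)
        - k * (NN P + NN' P) * c4 (P 2) (P 3) := by rw [a1]; ring
  rw [e1, e2, e3]
  have t1 : |(NN P : ℝ) ^ 2 * (c4 (P 0) (P 1) - c4 (P 2) (P 3) - c)| ≤ (2 * Y) ^ 2 * (K / Y) := by
    rw [abs_mul, abs_of_nonneg (sq_nonneg _)]
    gcongr; linarith
  have t2 : |(k : ℝ) * (NN P + NN' P) * c4 (P 2) (P 3)| ≤ 13 * (5 * Y) * 1 := by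
    rw [abs_mul, abs_mul]
    gcongr
    · exact abs_le.mpr ⟨k1, k2⟩
    · rw [abs_le]; constructor <;> linarith
  have e4 : (2 * Y) ^ 2 * (K / Y) = 4 * K * Y := by field_simp; ring
  refine (abs_sub _ _).trans ?_
  linarith

theorem XW_bound (e f : ℝ) : |(e ^ 2 + 12 * f ^ 2) ^ 2 - 96 * (e ^ 2 * f ^ 2)| ≤ (e ^ 2 + 12 * f ^ 2) ^ 2
    ∧ |48 * (e * f) * (e ^ 2 - 12 * f ^ 2)| ≤ 4 * (e ^ 2 + 12 * f ^ 2) ^ 2 := by
  have id : ((e ^ 2 + 12 * f ^ 2) ^ 2 - 96 * (e ^ 2 * f ^ 2)) ^ 2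
      + (48 * (e * f) * (e ^ 2 - 12 * f ^ 2)) ^ 2 / 12 = ((e ^ 2 + 12 * f ^ 2) ^ 2) ^ 2 := by ring
  constructor
  · apply abs_le_of_sq_le_sq _ (by positivity)
    nlinarith [sq_nonneg (48 * (e * f) * (e ^ 2 - 12 * f ^ 2))]
  · apply abs_le_of_sq_le_sq _ (by positivity)
    nlinarith [sq_nonneg ((e ^ 2 + 12 * f ^ 2) ^ 2 - 96 * (e ^ 2 * f ^ 2)),
      sq_nonneg ((e ^ 2 + 12 * f ^ 2) ^ 2)]

theorem quart_id {e f s i h n p q : ℝ} (hh : h = e ^ 2 + 12 * f ^ 2) (h1 : n * h = s ^ 2 + 12 * i ^ 2)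
    (h2 : h * p = s * e + 12 * i * f) (h3 : h * q = s * f - i * e) :
    (n ^ 2 - 96 * (p ^ 2 * q ^ 2)) * h ^ 4
      = (h ^ 2 - 96 * (e ^ 2 * f ^ 2)) * (s ^ 4 - 72 * s ^ 2 * i ^ 2 + 144 * i ^ 4)
        + 48 * (e * f) * (e ^ 2 - 12 * f ^ 2) * i * (4 * s ^ 3 - 48 * s * i ^ 2) := by
  have : (n ^ 2 - 96 * (p ^ 2 * q ^ 2)) * h ^ 4
      = h ^ 2 * (n * h) ^ 2 - 96 * ((h * p) ^ 2 * (h * q) ^ 2) := by ring
  rw [this, h1, h2, h3, hh]; ring

theorem G_line {k : ℤ} {c K Y : ℝ} {P d : V} (hk : |k| ≤ 13) (hY : 40 ≤ Y) (hK : 0 ≤ K)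
    (hP : Near k c K Y P) (hi : NN' d = NN d) (hB : BB P d = 0) :
    |(((NN d : ℝ) ^ 2 - 96 * ((d 0 : ℝ) ^ 2 * (d 1 : ℝ) ^ 2))
        * ((ss P d : ℝ) ^ 4 - 72 * (ss P d : ℝ) ^ 2 * (ii P d : ℝ) ^ 2 + 144 * (ii P d : ℝ) ^ 4)
        + 48 * ((d 0 : ℝ) * d 1) * ((d 0 : ℝ) ^ 2 - 12 * (d 1 : ℝ) ^ 2) * (ii P d : ℝ)
          * (4 * (ss P d : ℝ) ^ 3 - 48 * (ss P d : ℝ) * (ii P d : ℝ) ^ 2))
      - (((NN d : ℝ) ^ 2 - 96 * ((d 2 : ℝ) ^ 2 * (d 3 : ℝ) ^ 2))
        * ((ss P d : ℝ) ^ 4 - 72 * (ss P d : ℝ) ^ 2 * (ii' P d : ℝ) ^ 2 + 144 * (ii' P d : ℝ) ^ 4)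
        + 48 * ((d 2 : ℝ) * d 3) * ((d 2 : ℝ) ^ 2 - 12 * (d 3 : ℝ) ^ 2) * (ii' P d : ℝ)
          * (4 * (ss P d : ℝ) ^ 3 - 48 * (ss P d : ℝ) * (ii' P d : ℝ) ^ 2))
      - c * ((NN d : ℝ) ^ 2 * ((ss P d : ℝ) ^ 2 + 12 * (ii P d : ℝ) ^ 2) ^ 2)|
      ≤ (4 * K + 65) * Y * (NN d : ℝ) ^ 4 := by
  obtain ⟨f1, f2, f3, f4, f5, f6⟩ := line_facts hi hB
  have g1 : (NN P : ℝ) * NN d = (ss P d : ℝ) ^ 2 + 12 * (ii P d : ℝ) ^ 2 := by exact_mod_cast f1
  have g2 : (NN' P : ℝ) * NN d = (ss P d : ℝ) ^ 2 + 12 * (ii' P d : ℝ) ^ 2 := by exact_mod_cast f2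
  have hd' : (NN d : ℝ) = (d 2 : ℝ) ^ 2 + 12 * (d 3 : ℝ) ^ 2 := by rw [← hi, NN'_cast]
  rw [← quart_id (p := P 0) (q := P 1) (NN_cast d) g1 (by exact_mod_cast f3) (by exact_mod_cast f4),
    ← quart_id (p := P 2) (q := P 3) hd' g2 (by exact_mod_cast f5) (by exact_mod_cast f6), ← g1]
  have := mul_le_mul_of_nonneg_right (G_bound hk hY hK hP) (show 0 ≤ (NN d : ℝ) ^ 4 by positivity)
  rw [← abs_of_nonneg (show 0 ≤ (NN d : ℝ) ^ 4 by positivity), ← abs_mul,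
    abs_of_nonneg (show 0 ≤ (NN d : ℝ) ^ 4 by positivity)] at this
  refine le_trans (le_of_eq ?_) this
  congr 1; ring

theorem c4_abs (p q : ℤ) : |c4 p q| ≤ 1 := by
  unfold c4
  by_cases h : (p : ℝ) ^ 2 + 12 * (q : ℝ) ^ 2 = 0
  · rw [h]; simp
  · have h0 : 0 < ((p : ℝ) ^ 2 + 12 * (q : ℝ) ^ 2) ^ 2 := by positivity
    have h1 : 0 ≤ 96 * ((p : ℝ) ^ 2 * (q : ℝ) ^ 2) / ((p : ℝ) ^ 2 + 12 * (q : ℝ) ^ 2) ^ 2 := by
      positivity
    have h2 : 96 * ((p : ℝ) ^ 2 * (q : ℝ) ^ 2) / ((p : ℝ) ^ 2 + 12 * (q : ℝ) ^ 2) ^ 2 ≤ 2 := by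
      rw [div_le_iff₀ h0]; nlinarith [sq_nonneg ((p : ℝ) ^ 2 - 12 * (q : ℝ) ^ 2)]
    rw [abs_le]; constructor <;> linarith

theorem admissible {k m : ℤ} {c K Y : ℝ} {P Q d : V} (hk : |k| ≤ 13) (hc : |c| ≤ 2) (hY : 40 ≤ Y)
    (hK : 0 ≤ K) (hP : Near k c K Y P) (hQ : Near k c K Y Q) (hm : m ≠ 0)
    (hD : ∀ i, Q i - P i = m * d i) (hi : NN' d = NN d) (h0 : 0 < NN d) (hB : BB P d = 0)
    (h1 : 12 * (ii P Q : ℝ) ^ 2 ≤ (1 + 10 * K) * Y) (h2 : 12 * (ii' P Q : ℝ) ^ 2 ≤ (1 + 10 * K) * Y) :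
    (NN d : ℝ) ≤ 8 * Y ∧
      |c4 (d 0) (d 1) - c4 (d 2) (d 3) - c| ≤ (6000 * K + 2000) / NN d := by
  have Y0 : 0 < Y := by linarith
  have h0' : (0 : ℝ) < NN d := by exact_mod_cast h0
  have q0 : ∀ i, Q i = P i + m * d i := fun i => by linarith [hD i]
  have m1 : 1 ≤ m ^ 2 := by have := sq_pos_of_ne_zero hm; omega
  have m2 : (1 : ℝ) ≤ (m : ℝ) ^ 2 := by exact_mod_cast m1
  have h8 : (NN d : ℝ) ≤ 8 * Y := by
    have e1 : m ^ 2 * NN d ≤ 2 * NN P + 2 * NN Q := by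
      have : m ^ 2 * NN d = (Q 0 - P 0) ^ 2 + 12 * (Q 1 - P 1) ^ 2 := by
        rw [hD 0, hD 1]; unfold NN; ring
      rw [this]; unfold NN
      nlinarith [sq_nonneg (Q 0 + P 0), sq_nonneg (Q 1 + P 1)]
    have e2 : NN d ≤ 2 * NN P + 2 * NN Q := by nlinarith
    have e3 : (NN d : ℝ) ≤ 2 * NN P + 2 * NN Q := by exact_mod_cast e2
    linarith [hP.2.2.2.1, hQ.2.2.2.1]
  refine ⟨h8, ?_⟩
  by_cases hs : 2 * (1 + 10 * K) ≤ (NN d : ℝ)
  swap
  · push Not at hs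
    have x1 := abs_le.mp (c4_abs (d 0) (d 1))
    have x2 := abs_le.mp (c4_abs (d 2) (d 3))
    have x3 := abs_le.mp hc
    have : |c4 (d 0) (d 1) - c4 (d 2) (d 3) - c| ≤ 4 := by
      rw [abs_le]; constructor <;> linarith [x1.1, x1.2, x2.1, x2.2, x3.1, x3.2]
    refine this.trans ?_
    rw [le_div_iff₀ h0']; linarith
  have hBQ : BB Q d = 0 := by
    have : BB Q d = BB P d + m * (NN' d - NN d) := by
      unfold BB NN NN'; rw [q0 0, q0 1, q0 2, q0 3]; ring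
    rw [this, hB, hi]; ring
  have i1 : ii Q d = ii P d := by unfold ii; rw [q0 0, q0 1]; ring
  have i2 : ii' Q d = ii' P d := by unfold ii'; rw [q0 2, q0 3]; ring
  have i3 : ss Q d = ss P d + m * NN d := by unfold ss NN; rw [q0 0, q0 1]; ring
  have i4 : ii P Q = m * ii P d := by unfold ii; rw [q0 0, q0 1]; ring
  have i5 : ii' P Q = m * ii' P d := by unfold ii'; rw [q0 2, q0 3]; ring
  have g1 := G_line hk hY hK hP hi hB
  have g2 := G_line hk hY hK hQ hi hBQ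
  rw [i1, i2] at g2
  have hd' : (NN d : ℝ) = (d 2 : ℝ) ^ 2 + 12 * (d 3 : ℝ) ^ 2 := by rw [← hi, NN'_cast]
  have w1 := XW_bound (d 0 : ℝ) (d 1)
  have w2 := XW_bound (d 2 : ℝ) (d 3)
  rw [← NN_cast] at w1
  rw [← hd'] at w2
  have l1 : (NN P : ℝ) * NN d = (ss P d : ℝ) ^ 2 + 12 * (ii P d : ℝ) ^ 2 := by
    exact_mod_cast (line_facts hi hB).1
  have l2 : (NN Q : ℝ) * NN d = (ss Q d : ℝ) ^ 2 + 12 * (ii P d : ℝ) ^ 2 := by
    rw [← i1]; exact_mod_cast (line_facts hi hBQ).1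
  rw [i4] at h1
  rw [i5] at h2
  push_cast at h1 h2
  have key := adm_real (K4 := 1 + 10 * K) w1.1 w2.1 w1.2 w2.2 hc Y0 (by positivity) (by linarith)
    (by nlinarith [sq_nonneg (ii P d : ℝ)]) (by nlinarith [sq_nonneg (ii' P d : ℝ)])
    (by rw [← l1]; exact mul_le_mul_of_nonneg_right hP.2.2.1 h0'.le)
    (by rw [← l2]; exact mul_le_mul_of_nonneg_right hQ.2.2.1 h0'.le) h8 hs
    (by
      rw [i3]; push_cast
      rw [add_sub_cancel_left, abs_mul, abs_of_pos h0']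
      have : (1 : ℝ) ≤ |(m : ℝ)| := by
        rw [← sq_abs] at m2; nlinarith [abs_nonneg (m : ℝ)]
      nlinarith) g1 g2
  have e : c4 (d 0) (d 1) - c4 (d 2) (d 3) - c
      = (((NN d : ℝ) ^ 2 - 96 * ((d 0 : ℝ) ^ 2 * (d 1 : ℝ) ^ 2))
        - ((NN d : ℝ) ^ 2 - 96 * ((d 2 : ℝ) ^ 2 * (d 3 : ℝ) ^ 2)) - c * (NN d : ℝ) ^ 2)
          / (NN d : ℝ) ^ 2 := by
    unfold c4
    rw [← NN_cast, ← hd']
    field_simp
  rw [e, abs_div, abs_of_pos (a := (NN d : ℝ) ^ 2) (by positivity), div_le_div_iff₀ (by positivity) h0']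
  have := mul_le_mul_of_nonneg_right key h0'.le
  have hh : 0 ≤ K * (NN d : ℝ) ^ 2 := by positivity
  have hh2 : 0 ≤ (NN d : ℝ) ^ 2 := by positivity
  nlinarith

end Pool.Agent.P.MP_858e15_gt
end

-- part Pool.Agent.P.MP_858e15_gt.Iso
section

namespace Pool.Agent.P.MP_858e15_gt

open Real

theorem iso_angle {c K Z : ℝ} {P Q : V} (hZ : 40 ≤ Z) (hP : Near 0 c K Z P) (hQ : Near 0 c K Z Q)
    (hB : BB P Q = 0) : |th P - th Q| = |th' P - th' Q| := by
  obtain ⟨a1, -, -, -, -, -, a2, a3⟩ := near_basic (by norm_num) hZ hP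
  obtain ⟨b1, -, -, -, -, -, b2, b3⟩ := near_basic (by norm_num) hZ hQ
  obtain ⟨p0, -, p2, -, -⟩ := hP
  obtain ⟨q0, -, q2, -, -⟩ := hQ
  simp only [Int.cast_zero, add_zero] at a1 b1
  obtain ⟨t1, -⟩ := two_vec (p0 0) (p0 1) (q0 0) (q0 1) (NN_cast P) (NN_cast Q) (by linarith)
    (by linarith)
  obtain ⟨t3, -⟩ := two_vec (p0 2) (p0 3) (q0 2) (q0 3) (NN'_cast P) (NN'_cast Q) (by linarith)
    (by linarith)
  change _ = _ * cos (th P - th Q) at t1
  change _ = _ * cos (th' P - th' Q) at t3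
  have e : (BB P Q : ℝ) = 0 := by exact_mod_cast hB
  unfold BB at e
  push_cast at e
  rw [t1, t3, a1, b1, ← mul_sub] at e
  have s1 : 0 < √(NN P : ℝ) := sqrt_pos.mpr (by linarith)
  have s2 : 0 < √(NN Q : ℝ) := sqrt_pos.mpr (by linarith)
  have e2 := sub_eq_zero.mp ((mul_eq_zero.mp e).resolve_left (mul_pos s1 s2).ne')
  have hp := pi_pos
  apply injOn_cos ⟨abs_nonneg _, _⟩ ⟨abs_nonneg _, _⟩
  · rw [cos_abs, cos_abs, e2]
  · rw [abs_le]; constructor <;> linarith [a2.1, a2.2, b2.1, b2.2]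
  · rw [abs_le]; constructor <;> linarith [a3.1, a3.2, b3.1, b3.2]

theorem iso_sep {c K Z : ℝ} {P Q : V} (hZ : 40 ≤ Z) (hP : Near 0 c K Z P) (hQ : Near 0 c K Z Q)
    (hB : BB P Q = 0) (pP : Prim P) (pQ : Prim Q) (hne : P ≠ Q) : 1 / Z ≤ |th P - th Q| := by
  have hang := iso_angle hZ hP hQ hB
  obtain ⟨a1, -, -, -, -, -, a2, a3⟩ := near_basic (by norm_num) hZ hP
  obtain ⟨b1, -, -, -, -, -, b2, b3⟩ := near_basic (by norm_num) hZ hQ
  obtain ⟨p0, -, p2, p3, -⟩ := hP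
  obtain ⟨q0, -, q2, q3, -⟩ := hQ
  simp only [Int.cast_zero, add_zero] at a1 b1
  have Z0 : 0 < Z := by linarith
  obtain ⟨-, t2⟩ := two_vec (p0 0) (p0 1) (q0 0) (q0 1) (NN_cast P) (NN_cast Q) (by linarith)
    (by linarith)
  change _ = _ * sin (th P - th Q) ^ 2 at t2
  have hp := pi_pos
  by_cases hi : ii P Q = 0
  · exfalso
    have e : (ii P Q : ℝ) = (P 0 : ℝ) * Q 1 - P 1 * Q 0 := by unfold ii; push_cast; ring
    rw [← e, hi] at t2
    have s0 : sin (th P - th Q) = 0 := by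
      have h1 : (0 : ℝ) < NN P * NN Q := mul_pos (by linarith) (by linarith)
      have h2 : (NN P : ℝ) * NN Q * sin (th P - th Q) ^ 2 = 0 := by rw [← t2]; simp
      exact pow_eq_zero_iff two_ne_zero |>.mp ((mul_eq_zero.mp h2).resolve_left h1.ne')
    have e1 : th P - th Q = 0 := (sin_eq_zero_iff_of_lt_of_lt
      (by linarith [a2.1, b2.2]) (by linarith [a2.2, b2.1])).mp s0
    have e2 : th' P - th' Q = 0 := by rw [e1, abs_zero] at hang; exact abs_eq_zero.mp hang.symm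
    obtain ⟨-, -, c1, c2, -⟩ := ang_facts (p0 0) (p0 1) (NN_cast P) (by linarith)
    obtain ⟨-, -, c3, c4', -⟩ := ang_facts (p0 2) (p0 3) (NN'_cast P) (by linarith)
    obtain ⟨-, -, d1, d2, -⟩ := ang_facts (q0 0) (q0 1) (NN_cast Q) (by linarith)
    obtain ⟨-, -, d3, d4, -⟩ := ang_facts (q0 2) (q0 3) (NN'_cast Q) (by linarith)
    have f1 : ang (P 0) (P 1) = ang (Q 0) (Q 1) := sub_eq_zero.mp e1
    have f2 : ang (P 2) (P 3) = ang (Q 2) (Q 3) := sub_eq_zero.mp e2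
    rw [f1] at c1 c2
    rw [f2, a1] at c3 c4'
    rw [b1] at d3 d4
    have s1 : 0 < √(NN P : ℝ) := sqrt_pos.mpr (by linarith)
    have s2 : 0 < √(NN Q : ℝ) := sqrt_pos.mpr (by linarith)
    generalize √(NN P : ℝ) = x at *
    generalize √(NN Q : ℝ) = y at *
    have s3' : 2 * s3 ≠ 0 := by have := s3_pos; positivity
    have g0 : (P 0 : ℝ) * y = Q 0 * x := by rw [← c1, ← d1]; ring
    have g1 : (P 1 : ℝ) * y = Q 1 * x := by
      apply mul_left_cancel₀ s3'; rw [← mul_assoc, ← mul_assoc, ← c2, ← d2]; ring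
    have g2 : (P 2 : ℝ) * y = Q 2 * x := by rw [← c3, ← d3]; ring
    have g3 : (P 3 : ℝ) * y = Q 3 * x := by
      apply mul_left_cancel₀ s3'; rw [← mul_assoc, ← mul_assoc, ← c4', ← d4]; ring
    obtain ⟨u, hu⟩ := pP
    obtain ⟨w, hw⟩ := pQ
    have hu' : (u 0 : ℝ) * P 0 + u 1 * P 1 + u 2 * P 2 + u 3 * P 3 = 1 := by exact_mod_cast hu
    have hw' : (w 0 : ℝ) * Q 0 + w 1 * Q 1 + w 2 * Q 2 + w 3 * Q 3 = 1 := by exact_mod_cast hw
    obtain ⟨a, ha⟩ : ∃ a : ℤ, a = u 0 * Q 0 + u 1 * Q 1 + u 2 * Q 2 + u 3 * Q 3 := ⟨_, rfl⟩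
    obtain ⟨b, hb⟩ : ∃ b : ℤ, b = w 0 * P 0 + w 1 * P 1 + w 2 * P 2 + w 3 * P 3 := ⟨_, rfl⟩
    have ha' : y = a * x := by
      rw [ha]; push_cast
      linear_combination (-y) * hu' + u 0 * g0 + u 1 * g1 + u 2 * g2 + u 3 * g3
    have hb' : x = b * y := by
      rw [hb]; push_cast
      linear_combination (-x) * hw' - w 0 * g0 - w 1 * g1 - w 2 * g2 - w 3 * g3
    have a0 : (0 : ℝ) < a := by
      by_contra hc; push Not at hc; nlinarith
    have b0 : (0 : ℝ) < b := by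
      by_contra hc; push Not at hc; nlinarith
    have a1' : (1 : ℝ) ≤ a := by exact_mod_cast (show (1 : ℤ) ≤ a by exact_mod_cast a0)
    have b1' : (1 : ℝ) ≤ b := by exact_mod_cast (show (1 : ℤ) ≤ b by exact_mod_cast b0)
    have xy : x = y := by nlinarith
    apply hne
    rw [xy] at g0 g1 g2 g3
    funext i
    fin_cases i
    · exact_mod_cast mul_right_cancel₀ s2.ne' g0
    · exact_mod_cast mul_right_cancel₀ s2.ne' g1
    · exact_mod_cast mul_right_cancel₀ s2.ne' g2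
    · exact_mod_cast mul_right_cancel₀ s2.ne' g3
  · have e : (ii P Q : ℝ) = (P 0 : ℝ) * Q 1 - P 1 * Q 0 := by unfold ii; push_cast; ring
    rw [← e] at t2
    have i1 : 1 ≤ ii P Q ^ 2 := by have := sq_pos_of_ne_zero hi; omega
    have i2 : (1 : ℝ) ≤ (ii P Q : ℝ) ^ 2 := by exact_mod_cast i1
    have s1 := sin_sq_le_sq (x := th P - th Q)
    have s2 : (NN P : ℝ) * NN Q * sin (th P - th Q) ^ 2 ≤ (2 * Z) * (2 * Z) * (th P - th Q) ^ 2 := by
      gcongr; linarith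
    rw [div_le_iff₀ Z0]
    apply le_of_sq_le_sq _ (by positivity)
    rw [mul_pow, sq_abs]
    linarith

theorem iso_class {c K Z : ℝ} (hc1 : 0.15 ≤ |c|) (hc2 : |c| ≤ 1.99) (hK : 0 ≤ K)
    (hZ : 1000000 * (1 + 10 * K) ≤ Z) (S : Finset V) (t : (Bool × Bool) × ℕ)
    (hS : ∀ P ∈ S, Near 0 c K Z P ∧ Prim P ∧ lab Z P = t)
    (hB : ∀ P ∈ S, ∀ Q ∈ S, BB P Q = BB P P) :
    (S.card : ℝ) ≤ (3 + 230 * K) * √Z * (1 / (|(t.2 : ℝ) - π * √Z| + 1)) + 1 := by
  have Z1 : 40 ≤ Z := by linarith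
  have Z0 : 0 < Z := by linarith
  obtain ⟨H, hH⟩ : ∃ H, H = √Z := ⟨_, rfl⟩
  have H0 : 0 < H := by rw [hH]; exact sqrt_pos.mpr Z0
  have H2 : H ^ 2 = Z := by rw [hH]; exact sq_sqrt Z0.le
  have hB0 : ∀ P ∈ S, ∀ Q ∈ S, BB P Q = 0 := by
    intro P hP Q hQ
    rw [hB P hP Q hQ, BB_self, (hS P hP).1.2.1]; ring
  obtain ⟨u, hu⟩ : ∃ u, u = |(t.2 : ℝ) - π * H| + 1 := ⟨_, rfl⟩
  have u0 : 0 < u := by rw [hu]; positivity
  have key := sep_card S (fun P => fold (th P)) (l := (3 + 230 * K) / (H * u)) (η := 4 / Z)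
    (by positivity) (by positivity) (by
      intro P hP Q hQ
      obtain ⟨p1, -, p3⟩ := hS P hP
      obtain ⟨q1, -, q3⟩ := hS Q hQ
      obtain ⟨s1, -, s3', s4⟩ := same_lab (by norm_num) Z1 p1 q1 (p3.trans q3.symm)
      obtain ⟨-, -, -, a1, a2, a3, -⟩ := near_basic (by norm_num) Z1 p1
      obtain ⟨-, -, -, b1, b2, b3, -⟩ := near_basic (by norm_num) Z1 q1
      have ia := iso_angle Z1 p1 q1 (hB0 P hP Q hQ)
      have hj : ⌊√Z * (fold (th P) + fold (th' P))⌋₊ = t.2 := congrArg Prod.snd p3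
      have f1 := Nat.floor_le (show 0 ≤ √Z * (fold (th P) + fold (th' P)) by
        have := a1.1; have := a2.1; positivity)
      have f2 := Nat.lt_floor_add_one (√Z * (fold (th P) + fold (th' P)))
      rw [hj, ← hH] at f1 f2
      have he : |fold (th Q) - fold (th P)| = |fold (th' Q) - fold (th' P)| := by
        rw [abs_sub_comm, s3', abs_sub_comm (fold (th' Q)), s4, ia]
      generalize fold (th P) = a at *
      generalize fold (th Q) = b at *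
      generalize fold (th' P) = a' at *
      generalize fold (th' Q) = b' at *
      have s5 : (b - a) ^ 2 ≤ (1 + 10 * K) / Z := by
        rw [show (b - a) ^ 2 = (a - b) ^ 2 by ring]; exact s1
      have w1 : (1 + 10 * K) / Z ≤ 1 / 1000000 := by
        rw [div_le_div_iff₀ Z0 (by norm_num)]; linarith
      have w2 : K / Z ≤ 1 / 1000 := by
        rw [div_le_div_iff₀ Z0 (by norm_num)]; linarith
      have hd : |b - a| ≤ 1 / 1000 := abs_le_of_sq_le_sq (by linarith) (by norm_num)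
      have tl := tangent_lemma a1 b1 a2 b2 a3 b3 hc1 hc2 w2 hd he
      have w3 : |b - a| * H ≤ 1 + 10 * K := by
        apply le_of_sq_le_sq _ (by positivity)
        rw [mul_pow, sq_abs, H2]
        rw [le_div_iff₀ Z0] at s5
        nlinarith
      have w4 : u ≤ H * |π - (a + a')| + 2 := by
        rw [hu]
        have x1 : |(t.2 : ℝ) - π * H| ≤ |(t.2 : ℝ) - H * (a + a')| + |H * (a + a') - π * H| :=
          abs_sub_le _ _ _
        have x2 : |(t.2 : ℝ) - H * (a + a')| ≤ 1 := by rw [abs_le]; constructor <;> linarith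
        have x3 : |H * (a + a') - π * H| = H * |π - (a + a')| := by
          rw [show H * (a + a') - π * H = -(H * (π - (a + a'))) by ring, abs_neg, abs_mul,
            abs_of_pos H0]
        linarith
      have w5 : |b - a| * |π - (a + a')| * Z ≤ 1 + 210 * K := by
        have : 200 * (K / Z) + (1 + 10 * K) / Z = (1 + 210 * K) / Z := by ring
        rw [← le_div_iff₀ Z0]; linarith
      rw [le_div_iff₀ (by positivity)]
      have D0 := abs_nonneg (b - a)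
      calc |b - a| * (H * u) ≤ |b - a| * (H * (H * |π - (a + a')| + 2)) := by gcongr
        _ = |b - a| * |π - (a + a')| * Z + 2 * (|b - a| * H) := by rw [← H2]; ring
        _ ≤ _ := by linarith) (by
      intro P hP Q hQ hne
      obtain ⟨p1, p2, p3⟩ := hS P hP
      obtain ⟨q1, q2, q3⟩ := hS Q hQ
      obtain ⟨-, -, s3', -⟩ := same_lab (by norm_num) Z1 p1 q1 (p3.trans q3.symm)
      have := iso_sep Z1 p1 q1 (hB0 P hP Q hQ) p2 q2 hne
      rw [abs_sub_comm, s3', div_eq_mul_one_div]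
      linarith)
  rw [← hH, ← hu]
  refine key.trans ?_
  have e : 2 * ((3 + 230 * K) / (H * u)) / (4 / Z) = (3 + 230 * K) * H * (1 / u) / 2 := by
    rw [← H2]; field_simp; norm_num
  have : 0 ≤ (3 + 230 * K) * H * (1 / u) := by positivity
  rw [e]; linarith

theorem iso_shell_big {K : ℝ} (hK : 0 ≤ K) : ∃ C : ℝ, 0 < C ∧ ∀ (c Z : ℝ) (S : Finset V),
    0.15 ≤ |c| → |c| ≤ 1.99 → 1000000 * (1 + 10 * K) ≤ Z →
    (∀ P ∈ S, Near 0 c K Z P ∧ Prim P) → (S.card : ℝ) ≤ C * √Z * (1 + log Z) := by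
  classical
  obtain ⟨L, hL⟩ : ∃ L : ℕ, L = ⌈2 * K + 60⌉₊ := ⟨_, rfl⟩
  obtain ⟨E, hE⟩ : ∃ E : ℝ, E = ((2 * L + 1) ^ 4 : ℕ) := ⟨_, rfl⟩
  have E0 : 0 < E := by rw [hE]; positivity
  refine ⟨4 * E * (16 * (3 + 230 * K) + 8), by positivity, ?_⟩
  intro c Z S hc1 hc2 hZ hS
  have Z1 : 40 ≤ Z := by linarith
  have Z0 : 0 < Z := by linarith
  have H1 : 1 ≤ √Z := le_sqrt_of_sq_le (by linarith)
  have HZ : √Z ≤ Z := by rw [sqrt_le_iff]; constructor <;> nlinarith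
  obtain ⟨M, hM⟩ : ∃ M : ℕ, M = ⌊7 * √Z⌋₊ + 1 := ⟨_, rfl⟩
  have M1 : (M : ℝ) ≤ 7 * √Z + 1 := by
    rw [hM]; push_cast; linarith [Nat.floor_le (show 0 ≤ 7 * √Z by positivity)]
  have M2 : 7 * √Z ≤ M := by rw [hM]; push_cast; exact (Nat.lt_floor_add_one _).le
  have fib : ∀ t : (Bool × Bool) × ℕ, ((S.filter fun P => lab Z P = t).card : ℝ)
      ≤ E * ((3 + 230 * K) * √Z * (1 / (|(t.2 : ℝ) - π * √Z| + 1)) + 1) := by
    intro t
    have h1 := classes (S.filter fun P => lab Z P = t) L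
      ⌊(3 + 230 * K) * √Z * (1 / (|(t.2 : ℝ) - π * √Z| + 1)) + 1⌋₊ (by
        intro P hP Q hQ
        obtain ⟨p1, p2⟩ := Finset.mem_filter.mp hP
        obtain ⟨q1, q2⟩ := Finset.mem_filter.mp hQ
        have := (gram (by norm_num) Z1 hK (hS P p1).1 (hS Q q1).1 (p2.trans q2.symm)).1
        have h2 : |(BB P Q : ℝ)| ≤ (L : ℝ) := by rw [hL]; exact this.trans (Nat.le_ceil _)
        exact_mod_cast h2) (by
        intro S' hS' hB
        apply Nat.le_floor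
        apply iso_class hc1 hc2 hK hZ S' t _ hB
        intro P hP
        obtain ⟨p1, p2⟩ := Finset.mem_filter.mp (hS' hP)
        exact ⟨(hS P p1).1, (hS P p1).2, p2⟩)
    have h2 : ((S.filter fun P => lab Z P = t).card : ℝ)
        ≤ (⌊(3 + 230 * K) * √Z * (1 / (|(t.2 : ℝ) - π * √Z| + 1)) + 1⌋₊ : ℝ) * E := by
      rw [hE]; exact_mod_cast h1
    rw [mul_comm E]
    exact h2.trans (mul_le_mul_of_nonneg_right (Nat.floor_le (by positivity)) E0.le)
  have tot := Finset.card_eq_sum_card_fiberwise (s := S) (f := lab Z)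
    (t := (Finset.univ : Finset (Bool × Bool)) ×ˢ Finset.range M)
    (fun P hP => by rw [hM]; exact lab_mem (by norm_num) Z1 (hS P hP).1)
  have hs := harm_sum M (x := π * √Z) (by positivity) (by nlinarith [pi_lt_four])
  have lg : log ((M : ℝ) + 1) ≤ 3 + log Z := by
    have h1 : log ((M : ℝ) + 1) ≤ log (9 * Z) := log_le_log (by positivity) (by linarith)
    rw [log_mul (by norm_num) Z0.ne'] at h1
    have h2 : log 9 ≤ 3 := by
      rw [show (9 : ℝ) = 3 ^ 2 by norm_num, log_pow]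
      have : log 3 ≤ 3 / 2 := by
        rw [log_le_iff_le_exp (by norm_num)]
        have := add_one_le_exp (3 / 4 : ℝ)
        rw [show (3 / 2 : ℝ) = 3 / 4 + 3 / 4 by norm_num, exp_add]
        nlinarith
      push_cast; linarith
    linarith
  have lg0 : 0 ≤ log Z := log_nonneg (by linarith)
  rw [tot]
  push_cast
  refine (Finset.sum_le_sum fun t _ => fib t).trans ?_
  rw [Finset.sum_product]
  simp only [Finset.sum_const, Finset.card_univ, Fintype.card_prod, Fintype.card_bool, nsmul_eq_mul]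
  rw [← Finset.mul_sum, Finset.sum_add_distrib, ← Finset.mul_sum, Finset.sum_const,
    Finset.card_range, nsmul_eq_mul, mul_one]
  have y1 : (3 + 230 * K) * √Z * ∑ j ∈ Finset.range M, 1 / (|(j : ℝ) - π * √Z| + 1)
      ≤ (3 + 230 * K) * √Z * (16 * (1 + log Z)) := by gcongr; linarith
  have y2 : (M : ℝ) ≤ 8 * √Z * (1 + log Z) := by nlinarith
  push_cast
  calc _ ≤ 4 * (E * ((3 + 230 * K) * √Z * (16 * (1 + log Z)) + 8 * √Z * (1 + log Z))) := by
        gcongr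
    _ = _ := by ring

theorem iso_shell {K : ℝ} (hK : 0 ≤ K) : ∃ C : ℝ, 0 < C ∧ ∀ (c Z : ℝ) (S : Finset V),
    0.15 ≤ |c| → |c| ≤ 1.99 → 1 ≤ Z →
    (∀ P ∈ S, Near 0 c K Z P ∧ Prim P) → (S.card : ℝ) ≤ C * √Z * (1 + log Z) := by
  obtain ⟨C, hC, h⟩ := iso_shell_big hK
  obtain ⟨M, hM⟩ : ∃ M : ℕ, M = ⌈2 * (1000000 * (1 + 10 * K))⌉₊ := ⟨_, rfl⟩
  obtain ⟨E, hE⟩ : ∃ E : ℝ, E = ((M + 1) ^ 4 : ℕ) := ⟨_, rfl⟩
  have E0 : 0 < E := by rw [hE]; positivity
  refine ⟨C + E, by positivity, ?_⟩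
  intro c Z S hc1 hc2 hZ hS
  have H1 : 1 ≤ √Z := le_sqrt_of_sq_le (by linarith)
  have lg0 : 0 ≤ log Z := log_nonneg hZ
  have w : 1 ≤ √Z * (1 + log Z) := by nlinarith
  rcases le_or_gt (1000000 * (1 + 10 * K)) Z with hb | hb
  · have := h c Z S hc1 hc2 hb hS
    nlinarith
  · have h1 : S ⊆ Fintype.piFinset fun _ : Fin 4 => Finset.Icc (0 : ℤ) M := by
      intro P hP
      obtain ⟨p0, p1, -, p3, -⟩ := (hS P hP).1
      have n1 : (NN P : ℝ) ≤ M := by rw [hM]; exact le_trans (by linarith) (Nat.le_ceil _)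
      have n2 : NN P ≤ M := by exact_mod_cast n1
      have n3 : NN' P ≤ M := by omega
      unfold NN at n2
      unfold NN' at n3
      rw [Fintype.mem_piFinset]
      intro i
      refine Finset.mem_Icc.mpr ⟨p0 i, ?_⟩
      fin_cases i <;> simp only [Fin.zero_eta, Fin.mk_one, Fin.reduceFinMk]
      · nlinarith [sq_nonneg (P 0 - 1), sq_nonneg (P 1), sq_nonneg (P 0)]
      · nlinarith [sq_nonneg (P 1 - 1), sq_nonneg (P 1), sq_nonneg (P 0)]
      · nlinarith [sq_nonneg (P 2 - 1), sq_nonneg (P 3), sq_nonneg (P 2)]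
      · nlinarith [sq_nonneg (P 3 - 1), sq_nonneg (P 3), sq_nonneg (P 2)]
    have h2 := Finset.card_le_card h1
    rw [Fintype.card_piFinset] at h2
    simp only [Int.card_Icc, Finset.prod_const, Finset.card_univ, Fintype.card_fin] at h2
    rw [show ((M : ℤ) + 1 - 0).toNat = M + 1 by omega] at h2
    have h3 : (S.card : ℝ) ≤ E := by rw [hE]; exact_mod_cast h2
    nlinarith

end Pool.Agent.P.MP_858e15_gt
end

-- part Pool.Agent.P.MP_858e15_gt.Shell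
section

namespace Pool.Agent.P.MP_858e15_gt

open Real

def absV (d : V) : V := fun i => |d i|

theorem c4_absV (p q : ℤ) : c4 |p| |q| = c4 p q := by
  unfold c4; push_cast; simp only [sq_abs]

theorem abs_card (S : Finset V) : S.card ≤ 16 * (S.image absV).card := by
  classical
  apply Finset.card_le_mul_card_image
  intro e _
  have h1 : (S.filter fun d => absV d = e) ⊆ Fintype.piFinset fun i => ({e i, -e i} : Finset ℤ) := by
    intro d hd
    have := (Finset.mem_filter.mp hd).2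
    rw [Fintype.mem_piFinset]
    intro i
    rw [← this]
    simp only [absV, Finset.mem_insert, Finset.mem_singleton]
    rcases abs_choice (d i) with h | h <;> omega
  refine (Finset.card_le_card h1).trans ?_
  rw [Fintype.card_piFinset]
  calc _ ≤ ∏ _i : Fin 4, 2 := Finset.prod_le_prod' fun i _ => Finset.card_le_two
    _ = 16 := by simp

theorem prim_abs {d : V} (h : Prim d) : Prim (absV d) := by
  obtain ⟨c, hc⟩ := h
  refine ⟨fun i => c i * (d i).sign, ?_⟩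
  simp only [absV, mul_assoc, Int.sign_mul_abs]
  exact hc

theorem dyadic {n : ℤ} (h : 0 < n) :
    (2 : ℝ) ^ Nat.log 2 n.toNat ≤ n ∧ (n : ℝ) ≤ 2 * 2 ^ Nat.log 2 n.toNat := by
  have e : ((n.toNat : ℕ) : ℝ) = n := by exact_mod_cast Int.toNat_of_nonneg h.le
  have h1 := Nat.pow_log_le_self 2 (show n.toNat ≠ 0 by omega)
  have h2 := (Nat.lt_pow_succ_log_self (b := 2) (by norm_num) n.toNat).le
  rw [← e]
  constructor
  · exact_mod_cast h1
  · rw [Nat.succ_eq_add_one, pow_succ, mul_comm] at h2; exact_mod_cast h2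

theorem log_index {i : ℕ} {T : ℝ} (h : (2 : ℝ) ^ i ≤ T) : (i : ℝ) ≤ 2 * log T := by
  have h1 := log_le_log (by positivity) h
  rw [log_pow] at h1
  have h2 := log_two_gt_d9
  have : (0 : ℝ) ≤ i := by positivity
  nlinarith

theorem log_eight {Y : ℝ} (hY : 1 ≤ Y) : log (8 * Y) ≤ 3 + log Y := by
  rw [log_mul (by norm_num) (by linarith), show (8 : ℝ) = 2 ^ 3 by norm_num, log_pow]
  have := log_two_lt_d9
  push_cast; linarith

theorem adm_sum {K : ℝ} (hK : 0 ≤ K) : ∃ C : ℝ, 0 < C ∧ ∀ (c Y : ℝ) (D : Finset V),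
    0.15 ≤ |c| → |c| ≤ 1.99 → 1 ≤ Y →
    (∀ d ∈ D, Prim d ∧ NN' d = NN d ∧ (NN d : ℝ) ≤ 8 * Y ∧
      |c4 (d 0) (d 1) - c4 (d 2) (d 3) - c| ≤ K / NN d) →
    ∑ d ∈ D, 1 / √(NN d : ℝ) ≤ C * (1 + log Y) ^ 2 := by
  classical
  obtain ⟨C, hC, h⟩ := iso_shell hK
  refine ⟨16 * C * 4 * 7, by positivity, ?_⟩
  intro c Y D hc1 hc2 hY hD
  have lg0 : 0 ≤ log Y := log_nonneg hY
  have l8 := log_eight hY
  obtain ⟨I, hI⟩ : ∃ I : ℕ, I = ⌊2 * log (8 * Y)⌋₊ + 1 := ⟨_, rfl⟩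
  have l80 : 0 ≤ log (8 * Y) := log_nonneg (by linarith)
  have I1 : (I : ℝ) ≤ 7 * (1 + log Y) := by
    rw [hI]; push_cast
    linarith [Nat.floor_le (show 0 ≤ 2 * log (8 * Y) by positivity)]
  rw [← Finset.sum_fiberwise_of_maps_to (t := Finset.range I)
    (g := fun d : V => Nat.log 2 (NN d).toNat) (by
      intro d hd
      obtain ⟨d1, d2, d3, -⟩ := hD d hd
      rw [Finset.mem_range, hI]
      exact Nat.lt_succ_of_le (Nat.le_floor (log_index ((dyadic (prim_pos d1 d2)).1.trans d3))))]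
  have each : ∀ i ∈ Finset.range I, ∑ d ∈ D with Nat.log 2 (NN d).toNat = i, 1 / √(NN d : ℝ)
      ≤ 16 * C * 4 * (1 + log Y) := by
    intro i _
    rcases (D.filter fun d => Nat.log 2 (NN d).toNat = i).eq_empty_or_nonempty with he | ⟨d0, hd0⟩
    · rw [he]; simp; positivity
    obtain ⟨Z, hZ⟩ : ∃ Z : ℝ, Z = 2 ^ i := ⟨_, rfl⟩
    have Z1 : 1 ≤ Z := by rw [hZ]; exact one_le_pow₀ (by norm_num)
    have sZ : 0 < √Z := sqrt_pos.mpr (by linarith)
    have mem : ∀ d ∈ D.filter fun d => Nat.log 2 (NN d).toNat = i,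
        Z ≤ (NN d : ℝ) ∧ (NN d : ℝ) ≤ 2 * Z := by
      intro d hd
      obtain ⟨m1, m2⟩ := Finset.mem_filter.mp hd
      obtain ⟨d1, d2, -⟩ := hD d m1
      have := dyadic (prim_pos d1 d2)
      rwa [m2, ← hZ] at this
    have Z8 : Z ≤ 8 * Y := (mem d0 hd0).1.trans (hD d0 (Finset.mem_filter.mp hd0).1).2.2.1
    have lZ : log Z ≤ 3 + log Y := (log_le_log (by linarith) Z8).trans l8
    have c1 := h c Z ((D.filter fun d => Nat.log 2 (NN d).toNat = i).image absV) hc1 hc2 Z1 (by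
      intro e he
      obtain ⟨d, hd, rfl⟩ := Finset.mem_image.mp he
      obtain ⟨d1, d2, -, d4⟩ := hD d (Finset.mem_filter.mp hd).1
      obtain ⟨m1, m2⟩ := mem d hd
      have n1 : NN (absV d) = NN d := by simp only [NN, absV, sq_abs]
      have n2 : NN' (absV d) = NN' d := by simp only [NN', absV, sq_abs]
      refine ⟨⟨fun i => abs_nonneg _, by rw [n1, n2, d2]; ring, by rwa [n1], by rwa [n1], ?_⟩,
        prim_abs d1⟩
      simp only [absV, c4_absV]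
      exact d4.trans (div_le_div_of_nonneg_left hK (by linarith) m1))
    have c2 : ((D.filter fun d => Nat.log 2 (NN d).toNat = i).card : ℝ)
        ≤ 16 * (((D.filter fun d => Nat.log 2 (NN d).toNat = i).image absV).card : ℝ) := by
      exact_mod_cast abs_card _
    calc _ ≤ ∑ d ∈ D with Nat.log 2 (NN d).toNat = i, 1 / √Z := by
          apply Finset.sum_le_sum
          intro d hd
          exact one_div_le_one_div_of_le sZ (sqrt_le_sqrt (mem d hd).1)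
      _ = ((D.filter fun d => Nat.log 2 (NN d).toNat = i).card : ℝ) * (1 / √Z) := by
          rw [Finset.sum_const, nsmul_eq_mul]
      _ ≤ 16 * (C * √Z * (1 + log Z)) * (1 / √Z) := by gcongr; linarith
      _ = 16 * C * (1 + log Z) := by field_simp
      _ ≤ 16 * C * (4 * (1 + log Y)) := by gcongr; linarith
      _ = _ := by ring
  refine (Finset.sum_le_sum each).trans ?_
  rw [Finset.sum_const, Finset.card_range, nsmul_eq_mul]
  calc (I : ℝ) * (16 * C * 4 * (1 + log Y)) ≤ 7 * (1 + log Y) * (16 * C * 4 * (1 + log Y)) := by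
        gcongr
    _ = _ := by ring

theorem shell {K : ℝ} (hK : 0 ≤ K) : ∃ C : ℝ, 0 < C ∧ ∀ (k : ℤ) (c Y : ℝ) (S : Finset V),
    k ≠ 0 → |k| ≤ 13 → 0.15 ≤ |c| → |c| ≤ 1.99 → 40 ≤ Y → (∀ P ∈ S, Near k c K Y P) →
    (S.card : ℝ) ≤ C * √Y * (1 + log Y) ^ 2 := by
  classical
  obtain ⟨C, hC, h⟩ := adm_sum (K := 6000 * K + 2000) (by positivity)
  obtain ⟨L, hL⟩ : ∃ L : ℕ, L = ⌈2 * K + 60⌉₊ := ⟨_, rfl⟩
  obtain ⟨E, hE⟩ : ∃ E : ℝ, E = ((2 * L + 1) ^ 4 : ℕ) := ⟨_, rfl⟩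
  have E0 : 0 < E := by rw [hE]; positivity
  obtain ⟨L0, hL0⟩ : ∃ L0 : ℕ, (L0 : ℤ) = 169 := ⟨169, rfl⟩
  obtain ⟨A, hA⟩ : ∃ A : ℝ, A = 2 * L0 + 1 := ⟨_, rfl⟩
  have A0 : 0 < A := by rw [hA]; positivity
  refine ⟨32 * E + A * A * 12 * C, by positivity, ?_⟩
  intro k c Y S hk0 hk hc1 hc2 hY hS
  have Y0 : 0 < Y := by linarith
  have H1 : 1 ≤ √Y := le_sqrt_of_sq_le (by linarith)
  have lg0 : 0 ≤ log Y := log_nonneg (by linarith)
  have hPP : ∀ P ∈ S, BB P P = k := fun P hP => by rw [BB_self, (hS P hP).2.1]; ring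
  have split := Finset.card_filter_add_card_filter_not (s := S)
    (fun P => ∃ Q ∈ S, Q ≠ P ∧ lab Y P = lab Y Q ∧ BB P Q = k)
  set S2 := S.filter fun P => ∃ Q ∈ S, Q ≠ P ∧ lab Y P = lab Y Q ∧ BB P Q = k with hS2
  set S1 := S.filter fun P => ¬ ∃ Q ∈ S, Q ≠ P ∧ lab Y P = lab Y Q ∧ BB P Q = k with hS1
  have b1 : (S1.card : ℝ) ≤ 32 * E * √Y := by
    have c1 := Finset.card_le_mul_card_image_of_maps_to (s := S1) (f := lab Y)
      (t := (Finset.univ : Finset (Bool × Bool)) ×ˢ Finset.range (⌊7 * √Y⌋₊ + 1))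
      (fun P hP => lab_mem hk hY (hS P (Finset.mem_filter.mp hP).1)) (1 * (2 * L + 1) ^ 4) (by
        intro t _
        apply classes
        · intro P hP Q hQ
          obtain ⟨p1, p2⟩ := Finset.mem_filter.mp hP
          obtain ⟨q1, q2⟩ := Finset.mem_filter.mp hQ
          have := (gram hk hY hK (hS P (Finset.mem_filter.mp p1).1)
            (hS Q (Finset.mem_filter.mp q1).1) (p2.trans q2.symm)).1
          have h2 : |(BB P Q : ℝ)| ≤ (L : ℝ) := by rw [hL]; exact this.trans (Nat.le_ceil _)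
          exact_mod_cast h2
        · intro S' hS' hB
          rw [Finset.card_le_one]
          intro P hP Q hQ
          by_contra hne
          obtain ⟨p1, p2⟩ := Finset.mem_filter.mp (hS' hP)
          obtain ⟨q1, q2⟩ := Finset.mem_filter.mp (hS' hQ)
          obtain ⟨p3, p4⟩ := Finset.mem_filter.mp p1
          exact p4 ⟨Q, (Finset.mem_filter.mp q1).1, fun h0 => hne h0.symm, p2.trans q2.symm,
            (hB P hP Q hQ).trans (hPP P p3)⟩)
    simp only [Finset.card_product, Finset.card_univ, Fintype.card_prod, Fintype.card_bool,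
      Finset.card_range, one_mul] at c1
    have c2 : (S1.card : ℝ) ≤ E * (2 * 2 * ((⌊7 * √Y⌋₊ : ℝ) + 1)) := by
      rw [hE]; exact_mod_cast c1
    have c3 := Nat.floor_le (show 0 ≤ 7 * √Y by positivity)
    calc _ ≤ E * (2 * 2 * ((⌊7 * √Y⌋₊ : ℝ) + 1)) := c2
      _ ≤ E * (2 * 2 * (8 * √Y)) := by gcongr; linarith
      _ = _ := by ring
  have ex : ∀ P : V, ∃ d : V, P ∈ S2 → (Prim d ∧ NN' d = NN d ∧ (NN d : ℝ) ≤ 8 * Y ∧
      |c4 (d 0) (d 1) - c4 (d 2) (d 3) - c| ≤ (6000 * K + 2000) / NN d) ∧ BB P d = 0 := by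
    intro P
    by_cases hP : P ∈ S2
    swap
    · exact ⟨P, fun h => absurd h hP⟩
    obtain ⟨p1, Q, q1, q2, q3, q4⟩ := Finset.mem_filter.mp hP
    obtain ⟨m, d, m0, d1, d2⟩ := exists_prim (D := Q - P) (sub_ne_zero.mpr q2)
    simp only [Pi.sub_apply] at d2
    have q0 : ∀ i, Q i = P i + m * d i := fun i => by linarith [d2 i]
    have e1 : BB P Q = BB P P + m * BB P d := by
      unfold BB; rw [q0 0, q0 1, q0 2, q0 3]; ring
    have e2 : BB Q Q = BB P P + 2 * m * BB P d + m ^ 2 * (NN' d - NN d) := by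
      unfold BB NN NN'; rw [q0 0, q0 1, q0 2, q0 3]; ring
    rw [q4, hPP P p1] at e1
    have f1 : BB P d = 0 := (mul_eq_zero.mp (show m * BB P d = 0 by linarith)).resolve_left m0
    rw [hPP Q q1, hPP P p1, f1] at e2
    have f2 : NN' d = NN d := sub_eq_zero.mp ((mul_eq_zero.mp
      (show m ^ 2 * (NN' d - NN d) = 0 by linarith)).resolve_left (pow_ne_zero 2 m0))
    obtain ⟨-, g1, g2⟩ := gram hk hY hK (hS P p1) (hS Q q1) q3
    obtain ⟨a1, a2⟩ := admissible hk (by linarith) hY hK (hS P p1) (hS Q q1) m0 d2 f2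
      (prim_pos d1 f2) f1 g1 g2
    exact ⟨d, fun _ => ⟨⟨d1, f2, a1, a2⟩, f1⟩⟩
  choose dd hdd using ex
  have b2 : (S2.card : ℝ) ≤ A * A * 12 * C * √Y * (1 + log Y) ^ 2 := by
    have hD : ∀ d ∈ S2.image dd, Prim d ∧ NN' d = NN d ∧ (NN d : ℝ) ≤ 8 * Y ∧
        |c4 (d 0) (d 1) - c4 (d 2) (d 3) - c| ≤ (6000 * K + 2000) / NN d := by
      intro d hd
      obtain ⟨P, hP, rfl⟩ := Finset.mem_image.mp hd
      exact (hdd P hP).1
    have c1 := h c Y (S2.image dd) hc1 hc2 (by linarith) hD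
    rw [Finset.card_eq_sum_card_image dd S2]
    push_cast
    have each : ∀ d ∈ S2.image dd, ((S2.filter fun P => dd P = d).card : ℝ)
        ≤ A * A * 12 * √Y * (1 / √(NN d : ℝ)) := by
      intro d hd
      obtain ⟨d1, d2, d3, -⟩ := hD d hd
      have n0 : (0 : ℝ) < NN d := by exact_mod_cast prim_pos d1 d2
      have sn : 0 < √(NN d : ℝ) := sqrt_pos.mpr n0
      have sn2 : √(NN d : ℝ) ^ 2 = NN d := sq_sqrt n0.le
      have sY2 : √Y ^ 2 = Y := sq_sqrt Y0.le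
      obtain ⟨r, hr⟩ : ∃ r, r = √Y / √(NN d : ℝ) := ⟨_, rfl⟩
      have r0 : 0 < r := by rw [hr]; positivity
      have r2 : r ^ 2 * NN d = Y := by rw [hr, div_pow, sn2, sY2]; field_simp
      have r3 : 1 ≤ 3 * r := by
        apply le_of_sq_le_sq _ (by positivity)
        apply le_of_mul_le_mul_right _ n0
        nlinarith
      have lc := line_count d1 d2 hk0 hk (S2.filter fun P => dd P = d) ⌈3 / 2 * r⌉₊ L0 hL0 (by
        intro P hP
        obtain ⟨p1, p2⟩ := Finset.mem_filter.mp hP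
        have p3 := (Finset.mem_filter.mp p1).1
        refine ⟨p2 ▸ (hdd P p1).2, hPP P p3, ?_⟩
        have x1 := Nat.le_ceil (3 / 2 * r)
        have x2 : (3 / 2 * r) ^ 2 * NN d ≤ (⌈3 / 2 * r⌉₊ : ℝ) ^ 2 * NN d := by gcongr
        have x3 : (NN P : ℝ) ≤ (⌈3 / 2 * r⌉₊ : ℝ) ^ 2 * NN d := by
          have := (hS P p3).2.2.2.1
          nlinarith
        exact_mod_cast x3)
      have lc' : ((S2.filter fun P => dd P = d).card : ℝ)
          ≤ A * (A * (2 * (⌈3 / 2 * r⌉₊ : ℝ) + 1)) := by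
        rw [hA]; exact_mod_cast lc
      have x4 := (Nat.ceil_lt_add_one (show 0 ≤ 3 / 2 * r by positivity)).le
      calc _ ≤ A * (A * (2 * (⌈3 / 2 * r⌉₊ : ℝ) + 1)) := lc'
        _ ≤ A * (A * (12 * r)) := by gcongr; linarith
        _ = _ := by rw [hr]; ring
    refine (Finset.sum_le_sum each).trans ?_
    rw [← Finset.mul_sum]
    calc _ ≤ A * A * 12 * √Y * (C * (1 + log Y) ^ 2) := by gcongr
      _ = _ := by ring
  have tot : (S.card : ℝ) = S2.card + S1.card := by exact_mod_cast split.symm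
  have w : 32 * E * √Y ≤ 32 * E * √Y * (1 + log Y) ^ 2 :=
    le_mul_of_one_le_right (by positivity) (by nlinarith)
  rw [tot]
  linarith

end Pool.Agent.P.MP_858e15_gt
end

-- part Pool.Agent.P.MP_858e15_gt.Main
section

namespace Pool.Agent.P.MP_858e15_gt

open Real

theorem small_card (M : ℝ) (S : Finset (ℤ × ℤ))
    (h : ∀ s ∈ S, (s.1 : ℝ) ^ 2 + 12 * (s.2 : ℝ) ^ 2 < M) :
    S.card ≤ (2 * ⌈M⌉₊ + 1) * (2 * ⌈M⌉₊ + 1) := by
  have key : ∀ x : ℤ, (x : ℝ) ^ 2 < M → x ∈ Finset.Icc (-(⌈M⌉₊ : ℤ)) (⌈M⌉₊ : ℤ) := by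
    intro x hx
    have h1 : (x : ℝ) ^ 2 ≤ (⌈M⌉₊ : ℝ) := hx.le.trans (Nat.le_ceil M)
    have h2 : x ^ 2 ≤ (⌈M⌉₊ : ℤ) := by exact_mod_cast h1
    rw [Finset.mem_Icc]
    constructor <;> nlinarith [sq_nonneg (x + 1), sq_nonneg (x - 1), Int.le_self_sq x,
      Int.le_self_sq (-x)]
  have h1 : S ⊆ Finset.Icc (-(⌈M⌉₊ : ℤ)) (⌈M⌉₊ : ℤ) ×ˢ Finset.Icc (-(⌈M⌉₊ : ℤ)) (⌈M⌉₊ : ℤ) := by
    intro s hs
    have := h s hs
    exact Finset.mem_product.mpr ⟨key _ (by nlinarith [sq_nonneg (s.2 : ℝ)]),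
      key _ (by nlinarith [sq_nonneg (s.1 : ℝ), sq_nonneg (s.2 : ℝ)])⟩
  refine (Finset.card_le_card h1).trans ?_
  rw [Finset.card_product, Int.card_Icc]
  have : ((⌈M⌉₊ : ℤ) + 1 - -(⌈M⌉₊ : ℤ)).toNat = 2 * ⌈M⌉₊ + 1 := by omega
  rw [this]

theorem four_card (T : Finset (ℤ × ℤ)) (f : ℤ × ℤ → V) (h0 : ∀ s, f s 0 = |s.1|)
    (h1 : ∀ s, f s 1 = |s.2|) : T.card ≤ 4 * (T.image f).card := by
  classical
  apply Finset.card_le_mul_card_image
  intro e _
  have h2 : (T.filter fun s => f s = e) ⊆ ({e 0, -e 0} : Finset ℤ) ×ˢ ({e 1, -e 1} : Finset ℤ) := by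
    intro s hs
    have := (Finset.mem_filter.mp hs).2
    rw [← this, h0, h1]
    simp only [Finset.mem_product, Finset.mem_insert, Finset.mem_singleton]
    constructor
    · rcases abs_choice s.1 with h | h <;> omega
    · rcases abs_choice s.2 with h | h <;> omega
  refine (Finset.card_le_card h2).trans ?_
  rw [Finset.card_product]
  exact Nat.mul_le_mul Finset.card_le_two Finset.card_le_two

theorem c_range {k : ℤ} (h0 : k ≠ 0) (h : |k| ≤ 13) :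
    0.15 ≤ |3 * (k : ℝ) / (2 * π ^ 2)| ∧ |3 * (k : ℝ) / (2 * π ^ 2)| ≤ 1.99 := by
  obtain ⟨p1, p2⟩ := pi_sq_bounds
  have k1 : (1 : ℝ) ≤ |(k : ℝ)| := by exact_mod_cast Int.one_le_abs h0
  have k2 : |(k : ℝ)| ≤ 13 := by exact_mod_cast h
  rw [abs_div, abs_mul, abs_of_pos (show (0 : ℝ) < 3 by norm_num),
    abs_of_pos (show 0 < 2 * π ^ 2 by positivity), le_div_iff₀ (by positivity),
    div_le_iff₀ (by positivity)]
  constructor <;> linarith

theorem almost_all : ∃ C : ℝ, ∀ X : ℝ, 1 ≤ X → ∀ S : Finset (ℤ × ℤ),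
    (∀ s ∈ S, (s.1 : ℝ) ^ 2 + 12 * (s.2 : ℝ) ^ 2 ≤ X ∧ ¬ ((∃ v, FillVol s.1 s.2 v) ∧
      ∀ (p' q' : ℤ) (v : ℝ), FillVol s.1 s.2 v → FillVol p' q' v → |p'| = |s.1| ∧ |q'| = |s.2|)) →
    (S.card : ℝ) ≤ C * √X * (1 + log X) ^ 2 := by
  classical
  obtain ⟨K, N1, hK, -, hc⟩ := compare
  obtain ⟨C, hC, hs⟩ := shell hK.le
  obtain ⟨M, hM⟩ : ∃ M : ℝ, M = max N1 80 := ⟨_, rfl⟩
  have M1 : N1 ≤ M := hM ▸ le_max_left _ _
  have M2 : 80 ≤ M := hM ▸ le_max_right _ _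
  obtain ⟨E, hE⟩ : ∃ E : ℝ, E = ((2 * ⌈M⌉₊ + 1) * (2 * ⌈M⌉₊ + 1) : ℕ) := ⟨_, rfl⟩
  have E0 : 0 ≤ E := by rw [hE]; positivity
  refine ⟨E + 27 * (4 * C * 4), ?_⟩
  intro X hX S hS
  have lg0 : 0 ≤ log X := log_nonneg hX
  have H1 : 1 ≤ √X := le_sqrt_of_sq_le (by linarith)
  have split := Finset.card_filter_add_card_filter_not (s := S)
    (fun s => (s.1 : ℝ) ^ 2 + 12 * (s.2 : ℝ) ^ 2 < M)
  set S1 := S.filter fun s => (s.1 : ℝ) ^ 2 + 12 * (s.2 : ℝ) ^ 2 < M with hS1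
  set S2 := S.filter fun s => ¬ (s.1 : ℝ) ^ 2 + 12 * (s.2 : ℝ) ^ 2 < M with hS2
  have b1 : (S1.card : ℝ) ≤ E := by
    rw [hE]
    exact_mod_cast small_card M S1 fun s hs => (Finset.mem_filter.mp hs).2
  have ex : ∀ s : ℤ × ℤ, ∃ t : ℤ × ℤ × ℤ, s ∈ S2 → t.1 ≠ 0 ∧ |t.1| ≤ 13 ∧
      t.2.1 ^ 2 + 12 * t.2.2 ^ 2 = s.1 ^ 2 + 12 * s.2 ^ 2 + t.1 ∧
      |c4 s.1 s.2 - c4 t.2.1 t.2.2 - 3 * t.1 / (2 * π ^ 2)|
        ≤ K / ((s.1 : ℝ) ^ 2 + 12 * (s.2 : ℝ) ^ 2) := by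
    intro s
    by_cases h : s ∈ S2
    swap
    · exact ⟨0, fun h' => absurd h' h⟩
    obtain ⟨m1, m2⟩ := Finset.mem_filter.mp h
    obtain ⟨c1, c2⟩ := hc s.1 s.2 (M1.trans (not_lt.mp m2))
    have c3 := (hS s m1).2
    rw [not_and] at c3
    have c4' := c3 c1
    simp only [not_forall] at c4'
    obtain ⟨p', q', v, f1, f2, f3⟩ := c4'
    obtain ⟨k, k1, k2, k3, k4⟩ := (c2 p' q' v f1 f2).resolve_left f3
    exact ⟨(k, p', q'), fun _ => ⟨k1, k2, k3, k4⟩⟩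
  choose t ht using ex
  obtain ⟨f, hf⟩ : ∃ f : ℤ × ℤ → V, f = fun s => ![|s.1|, |s.2|, |(t s).2.1|, |(t s).2.2|] :=
    ⟨_, rfl⟩
  have f0 : ∀ s, f s 0 = |s.1| := fun s => by rw [hf]; rfl
  have f1 : ∀ s, f s 1 = |s.2| := fun s => by rw [hf]; rfl
  have f2 : ∀ s, f s 2 = |(t s).2.1| := fun s => by rw [hf]; rfl
  have f3 : ∀ s, f s 3 = |(t s).2.2| := fun s => by rw [hf]; rfl
  have nf : ∀ s, (NN (f s) : ℝ) = (s.1 : ℝ) ^ 2 + 12 * (s.2 : ℝ) ^ 2 := fun s => by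
    rw [NN_cast, f0, f1]; push_cast; simp only [sq_abs]
  have big : ∀ s ∈ S2, 80 ≤ (NN (f s) : ℝ) ∧ (NN (f s) : ℝ) ≤ X := by
    intro s hs
    obtain ⟨m1, m2⟩ := Finset.mem_filter.mp hs
    rw [nf]
    exact ⟨M2.trans (not_lt.mp m2), (hS s m1).1⟩
  have pos : ∀ s ∈ S2, 0 < NN (f s) := fun s hs => by
    have : (0 : ℝ) < NN (f s) := by linarith [(big s hs).1]
    exact_mod_cast this
  obtain ⟨n, hn⟩ : ∃ n, n = Nat.log 2 ⌊X⌋₊ := ⟨_, rfl⟩
  have n1 : (2 : ℝ) ^ n ≤ X := by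
    have h1 := Nat.pow_log_le_self 2 (show ⌊X⌋₊ ≠ 0 from (Nat.floor_pos.mpr hX).ne')
    have h2 : (2 : ℝ) ^ n ≤ (⌊X⌋₊ : ℝ) := by rw [hn]; exact_mod_cast h1
    exact h2.trans (Nat.floor_le (by linarith))
  have b2 : (S2.card : ℝ) ≤ 27 * (4 * C * 4) * √X * (1 + log X) ^ 2 := by
    rw [Finset.card_eq_sum_card_fiberwise
      (f := fun s => ((t s).1, Nat.log 2 (NN (f s)).toNat))
      (t := Finset.Icc (-13 : ℤ) 13 ×ˢ Finset.range (n + 1)) (by
        intro s hs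
        have hs' : s ∈ S2 := by exact_mod_cast hs
        simp only [Finset.coe_product, Set.mem_prod, Finset.mem_coe, Finset.mem_Icc,
          Finset.mem_range]
        refine ⟨abs_le.mp (ht s hs').2.1, Nat.lt_succ_of_le ?_⟩
        rw [hn]
        apply Nat.log_mono_right
        apply Nat.le_floor
        have e : (((NN (f s)).toNat : ℕ) : ℝ) = NN (f s) := by
          exact_mod_cast Int.toNat_of_nonneg (pos s hs').le
        rw [e]
        exact (big s hs').2)]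
    push_cast
    have each : ∀ a ∈ Finset.Icc (-13 : ℤ) 13 ×ˢ Finset.range (n + 1),
        ((S2.filter fun s => ((t s).1, Nat.log 2 (NN (f s)).toNat) = a).card : ℝ)
          ≤ 4 * C * (1 + log X) ^ 2 * √((2 : ℝ) ^ a.2) := by
      rintro ⟨k, i⟩ _
      set T := S2.filter fun s => ((t s).1, Nat.log 2 (NN (f s)).toNat) = (k, i) with hT
      rcases T.eq_empty_or_nonempty with he | ⟨s0, hs0⟩
      · rw [he]; simp; positivity
      have mem : ∀ s ∈ T, s ∈ S2 ∧ (t s).1 = k ∧ (2 : ℝ) ^ i ≤ NN (f s) ∧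
          (NN (f s) : ℝ) ≤ 2 * 2 ^ i := by
        intro s hs
        obtain ⟨m1, m2⟩ := Finset.mem_filter.mp hs
        obtain ⟨m3, m4⟩ := Prod.mk.inj m2
        have := dyadic (pos s m1)
        rw [m4] at this
        exact ⟨m1, m3, this⟩
      obtain ⟨u1, u2, u3, u4⟩ := mem s0 hs0
      have k0 : k ≠ 0 := u2 ▸ (ht s0 u1).1
      have k1 : |k| ≤ 13 := u2 ▸ (ht s0 u1).2.1
      have Y1 : 40 ≤ (2 : ℝ) ^ i := by linarith [(big s0 u1).1]
      have Y2 : (2 : ℝ) ^ i ≤ X := u3.trans (big s0 u1).2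
      have c1 := hs k (3 * k / (2 * π ^ 2)) (2 ^ i) (T.image f) k0 k1 (c_range k0 k1).1
        (c_range k0 k1).2 Y1 (by
          intro P hP
          obtain ⟨s, hs, rfl⟩ := Finset.mem_image.mp hP
          obtain ⟨w1, w2, w3, w4⟩ := mem s hs
          obtain ⟨-, -, z3, z4⟩ := ht s w1
          refine ⟨fun j => ?_, ?_, w3, w4, ?_⟩
          · fin_cases j
            · exact (f0 s).ge.trans' (abs_nonneg _)
            · exact (f1 s).ge.trans' (abs_nonneg _)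
            · exact (f2 s).ge.trans' (abs_nonneg _)
            · exact (f3 s).ge.trans' (abs_nonneg _)
          · unfold NN NN'
            rw [f0, f1, f2, f3, ← w2]
            simp only [sq_abs]
            exact z3
          · rw [f0, f1, f2, f3, c4_absV, c4_absV, ← w2]
            refine z4.trans ?_
            rw [← nf]
            exact div_le_div_of_nonneg_left hK.le (by linarith) w3)
      have c2 : (T.card : ℝ) ≤ 4 * ((T.image f).card : ℝ) := by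
        exact_mod_cast four_card T f f0 f1
      have l1 : log ((2 : ℝ) ^ i) ≤ log X := log_le_log (by linarith) Y2
      have l0 : 0 ≤ log ((2 : ℝ) ^ i) := log_nonneg (by linarith)
      calc _ ≤ 4 * (C * √((2 : ℝ) ^ i) * (1 + log ((2 : ℝ) ^ i)) ^ 2) := by linarith
        _ ≤ 4 * (C * √((2 : ℝ) ^ i) * (1 + log X) ^ 2) := by gcongr
        _ = _ := by ring
    refine (Finset.sum_le_sum each).trans ?_
    rw [Finset.sum_product]
    simp only [← Finset.mul_sum, Finset.sum_const, Int.card_Icc, nsmul_eq_mul]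
    have g1 := geom_sqrt n
    have g2 : √((2 : ℝ) ^ n) ≤ √X := sqrt_le_sqrt n1
    have g3 : (((13 + 1 - -13 : ℤ).toNat : ℕ) : ℝ) = 27 := by
      rw [show (13 + 1 - -13 : ℤ).toNat = 27 by decide]; norm_num
    rw [g3]
    calc _ ≤ 4 * C * (1 + log X) ^ 2 * (27 * (4 * √X)) := by gcongr; linarith
      _ = _ := by ring
  have tot : (S.card : ℝ) = S1.card + S2.card := by exact_mod_cast split.symm
  have w : E ≤ E * √X * (1 + log X) ^ 2 := by
    rw [mul_assoc]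
    exact le_mul_of_one_le_right E0 (one_le_mul_of_one_le_of_one_le H1 (by nlinarith))
  rw [tot]
  linarith

end Pool.Agent.P.MP_858e15_gt
end
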