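import Mathlib
import Pool.Agent.K.MP_858e15_gt.C1

-- part Pool.Agent.P.MP_858e15_gt.PiQuad
section

namespace Pool.Agent.P.MP_858e15_gt

open Polynomial Complex Filter
open scoped Nat

theorem lind {ι : Type*} (s : Finset ι) (r : ι → ℂ) (w : ι → ℤ) (f : ℤ[X]) (hf : f.eval 0 ≠ 0)
    (hr : ∀ j ∈ s, aeval (r j) f = 0) (k A : ℤ) (hk : k ≠ 0) (hA : A ≠ 0)
    (hint : ∀ m : ℕ, ∃ z : ℤ, (A : ℂ) ^ m * ∑ j ∈ s, w j * r j ^ m = z) :
    (k : ℂ) + ∑ j ∈ s, w j * cexp (r j) ≠ 0 := by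
  intro h0
  obtain ⟨c, hc⟩ := LindemannWeierstrass.exp_polynomial_approx f hf
  have f0 : f ≠ 0 := by rintro rfl; simp at hf
  obtain ⟨W, hW⟩ : ∃ W : ℝ, W = ∑ j ∈ s, |(w j : ℝ)| := ⟨_, rfl⟩
  have W0 : 0 ≤ W := by rw [hW]; positivity
  obtain ⟨x, hx⟩ : ∃ x : ℝ, x = |(A : ℝ)| ^ f.natDegree * |c| := ⟨_, rfl⟩
  have lim := ((FloorSemiring.tendsto_pow_div_factorial_atTop x).const_mul (W * x))
  rw [mul_zero] at lim
  obtain ⟨N, hN⟩ := eventually_atTop.mp (lim.eventually_lt_const one_pos)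
  obtain ⟨p, p1, pp⟩ := Nat.exists_infinite_primes
    (N + 1 + (f.eval 0).natAbs + k.natAbs + A.natAbs)
  obtain ⟨n, n1, g, g1, g2⟩ := hc p (by omega) pp
  obtain ⟨D, hD⟩ : ∃ D, D = p * f.natDegree := ⟨_, rfl⟩
  choose z hz using hint
  have e1 : (A : ℂ) ^ D * ∑ j ∈ s, w j * aeval (r j) g
      = ((∑ m ∈ Finset.range (D + 1), g.coeff m * A ^ (D - m) * z m : ℤ) : ℂ) := by
    have e : ∀ j, aeval (r j) g = ∑ m ∈ Finset.range (D + 1), (g.coeff m : ℂ) * r j ^ m := by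
      intro j
      rw [aeval_eq_sum_range' (n := D + 1) (by omega)]
      simp [zsmul_eq_mul]
    simp only [e, Finset.mul_sum]
    rw [Finset.sum_comm]
    push_cast
    apply Finset.sum_congr rfl
    intro m hm
    rw [← hz, Finset.mul_sum, Finset.mul_sum]
    apply Finset.sum_congr rfl
    intro j _
    have : (A : ℂ) ^ D = A ^ (D - m) * A ^ m := by
      rw [← pow_add]; congr 1; have := Finset.mem_range.mp hm; omega
    rw [this]; ring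
  obtain ⟨Z, hZ⟩ : ∃ Z : ℤ, (A : ℂ) ^ D * ∑ j ∈ s, w j * aeval (r j) g = Z := ⟨_, e1⟩
  have e2 : ((A ^ D * (k * n) + p * Z : ℤ) : ℂ)
      = -(A : ℂ) ^ D * ∑ j ∈ s, w j * (n • cexp (r j) - p • aeval (r j) g) := by
    have e3 : ∑ j ∈ s, (w j : ℂ) * (n • cexp (r j) - p • aeval (r j) g)
        = n * ∑ j ∈ s, w j * cexp (r j) - p * ∑ j ∈ s, w j * aeval (r j) g := by
      rw [Finset.mul_sum, Finset.mul_sum, ← Finset.sum_sub_distrib]
      apply Finset.sum_congr rfl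
      intro j _
      rw [zsmul_eq_mul, nsmul_eq_mul]; ring
    rw [e3]
    push_cast
    rw [← hZ]
    linear_combination (A : ℂ) ^ D * n * h0
  have b1 : ‖((A ^ D * (k * n) + p * Z : ℤ) : ℂ)‖ < 1 := by
    rw [e2, norm_mul, norm_neg, norm_pow, Complex.norm_intCast]
    have b2 : ‖∑ j ∈ s, (w j : ℂ) * (n • cexp (r j) - p • aeval (r j) g)‖
        ≤ W * (|c| ^ p / (p - 1)!) := by
      rw [hW, Finset.sum_mul]
      refine (norm_sum_le _ _).trans (Finset.sum_le_sum fun j hj => ?_)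
      rw [norm_mul, Complex.norm_intCast]
      have b3 := g2 (r := r j) (mem_aroots.mpr ⟨f0, hr j hj⟩)
      have b4 : c ^ p / (p - 1)! ≤ |c| ^ p / ((p - 1)! : ℝ) := by
        apply div_le_div_of_nonneg_right _ (by positivity)
        rw [← abs_pow]; exact le_abs_self _
      exact mul_le_mul_of_nonneg_left (b3.trans b4) (abs_nonneg _)
    have b5 := hN (p - 1) (by omega)
    have b6 : |(A : ℝ)| ^ D * (W * (|c| ^ p / (p - 1)!)) = W * x * (x ^ (p - 1) / (p - 1)!) := by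
      have : x * x ^ (p - 1) = |(A : ℝ)| ^ D * |c| ^ p := by
        rw [← pow_succ', Nat.sub_add_cancel pp.one_le, hx, mul_pow, ← pow_mul, hD, mul_comm p]
      linear_combination (-(W / ((p - 1)! : ℝ))) * this
    calc _ ≤ |(A : ℝ)| ^ D * (W * (|c| ^ p / (p - 1)!)) := by gcongr
      _ < 1 := by rw [b6]; exact b5
  rw [Complex.norm_intCast] at b1
  have b7 : A ^ D * (k * n) + p * Z = 0 := by
    have : |A ^ D * (k * n) + p * Z| < 1 := by exact_mod_cast b1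
    exact Int.abs_lt_one_iff.mp this
  have pz : Prime (p : ℤ) := Nat.prime_iff_prime_int.mp pp
  have d1 : (p : ℤ) ∣ A ^ D * (k * n) := ⟨-Z, by linarith⟩
  have small : ∀ y : ℤ, y ≠ 0 → y.natAbs < p → ¬ (p : ℤ) ∣ y := fun y h1 h2 h3 => by
    have := Nat.le_of_dvd (Int.natAbs_pos.mpr h1) (Int.natCast_dvd.mp h3)
    omega
  rcases pz.dvd_or_dvd d1 with h | h
  · exact small A hA (by omega) (pz.dvd_of_dvd_pow h)
  · rcases pz.dvd_or_dvd h with h | h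
    · exact small k hk (by omega) h
    · exact n1 h

theorem newton {x y : ℂ} {a b : ℤ} (h1 : x + y = a) (h2 : x * y = b) (m : ℕ) :
    ∃ z : ℤ, x ^ m + y ^ m = z := by
  have key : ∀ m : ℕ, (∃ z : ℤ, x ^ m + y ^ m = z) ∧ ∃ z : ℤ, x ^ (m + 1) + y ^ (m + 1) = z := by
    intro m
    induction m with
    | zero => exact ⟨⟨2, by norm_num⟩, ⟨a, by simpa using h1⟩⟩
    | succ m ih =>
      obtain ⟨⟨u, hu⟩, v, hv⟩ := ih
      refine ⟨⟨v, hv⟩, a * v - b * u, ?_⟩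
      push_cast
      rw [← hu, ← hv, ← h1, ← h2]; ring
  exact (key m).1

theorem pm_sum {x y : ℂ} {A a b : ℤ} (h1 : A * x ^ 2 + A * y ^ 2 = a)
    (h2 : (A * x ^ 2) * (A * y ^ 2) = b) (m : ℕ) :
    ∃ z : ℤ, (A : ℂ) ^ m * (x ^ m + (-x) ^ m + y ^ m + (-y) ^ m) = z := by
  rcases Nat.even_or_odd' m with ⟨l, rfl | rfl⟩
  · obtain ⟨z, hz⟩ := newton h1 h2 l
    refine ⟨2 * A ^ l * z, ?_⟩
    push_cast
    rw [← hz, Even.neg_pow (even_two_mul l), Even.neg_pow (even_two_mul l)]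
    ring
  · refine ⟨0, ?_⟩
    rw [Odd.neg_pow ⟨l, rfl⟩, Odd.neg_pow ⟨l, rfl⟩]
    simp

theorem pi_sq_irr {B C : ℤ} (h : B * Real.pi ^ 2 + C = 0) : B = 0 := by
  by_contra hB
  have hp := Real.pi_pos
  have hC : C ≠ 0 := by
    rintro rfl
    have : (B : ℝ) = 0 := by simpa [hp.ne'] using h
    exact hB (by exact_mod_cast this)
  have hc : (B : ℂ) * (Real.pi : ℂ) ^ 2 + C = 0 := by exact_mod_cast h
  have sq : ((Real.pi : ℂ) * I) ^ 2 = -(Real.pi : ℂ) ^ 2 := by rw [mul_pow, I_sq]; ring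
  refine lind Finset.univ ![Real.pi * I, -(Real.pi * I), Real.pi * I, -(Real.pi * I)]
    (fun _ => 1) (Polynomial.C B * X ^ 2 - Polynomial.C C) (by simpa using hC) ?_ 4 B
    (by norm_num) hB ?_ ?_
  · intro j _
    fin_cases j <;> simp [sq] <;> linear_combination -hc
  · intro m
    obtain ⟨z, hz⟩ := pm_sum (x := Real.pi * I) (y := Real.pi * I) (A := B) (a := 2 * C)
      (b := C ^ 2) (by rw [sq]; push_cast; linear_combination -2 * hc)
      (by rw [sq]; push_cast; linear_combination (B * (Real.pi : ℂ) ^ 2 - C) * hc) m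
    exact ⟨z, by rw [← hz]; simp [Fin.sum_univ_four]⟩
  · simp [Fin.sum_univ_four, Complex.exp_neg, exp_pi_mul_I]
    norm_num

theorem pi_no_quad {A B C : ℤ} (h : A * Real.pi ^ 4 + B * Real.pi ^ 2 + C = 0) : A = 0 ∧ B = 0 := by
  suffices hA : A = 0 by
    subst hA
    exact ⟨rfl, pi_sq_irr (C := C) (by simpa using h)⟩
  by_contra hA
  have hp := Real.pi_pos
  have hC : C ≠ 0 := by
    rintro rfl
    apply hA
    apply pi_sq_irr (C := B)
    have : Real.pi ^ 2 * (A * Real.pi ^ 2 + B) = 0 := by push_cast at h; linarith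
    exact (mul_eq_zero.mp this).resolve_left (by positivity)
  have hD : B ^ 2 - 4 * A * C ≠ 0 := by
    intro hD
    have h1 : (B : ℝ) ^ 2 - 4 * A * C = 0 := by exact_mod_cast hD
    have h2 : (2 * A * Real.pi ^ 2 + B) ^ 2 = 0 := by linear_combination 4 * A * h + h1
    have h3 := pi_sq_irr (B := 2 * A) (C := B) (by push_cast; exact pow_eq_zero_iff two_ne_zero |>.mp h2)
    omega
  have hc : (A : ℂ) * (Real.pi : ℂ) ^ 4 + B * (Real.pi : ℂ) ^ 2 + C = 0 := by exact_mod_cast h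
  have A0 : (A : ℂ) ≠ 0 := by exact_mod_cast hA
  obtain ⟨x, hx⟩ : ∃ x : ℂ, x = Real.pi * I := ⟨_, rfl⟩
  have sq : x ^ 2 = -(Real.pi : ℂ) ^ 2 := by rw [hx, mul_pow, I_sq]; ring
  have ex : cexp x = -1 := by rw [hx, exp_pi_mul_I]
  have hx4 : A * x ^ 4 - B * x ^ 2 + C = 0 := by
    rw [show x ^ 4 = (x ^ 2) ^ 2 by ring, sq]; linear_combination hc
  obtain ⟨y, hy⟩ := IsAlgClosed.exists_pow_nat_eq (B / A - x ^ 2 : ℂ) (n := 2) (by norm_num)
  have s1 : A * x ^ 2 + A * y ^ 2 = B := by rw [hy]; field_simp; ring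
  have s2 : A * x ^ 2 * y ^ 2 = C := by linear_combination x ^ 2 * s1 - hx4
  have s3 : A * y ^ 4 - B * y ^ 2 + C = 0 := by linear_combination y ^ 2 * s1 - s2
  have r1 : ∀ t : ℂ, A * t ^ 4 - B * t ^ 2 + C = 0 ∨ (A * t ^ 2 - B) ^ 2 - 4 * A * C = 0 →
      aeval t ((Polynomial.C A * X ^ 4 - Polynomial.C B * X ^ 2 + Polynomial.C C) *
        ((Polynomial.C A * X ^ 2 - Polynomial.C B) ^ 2 - Polynomial.C (4 * A * C))) = 0 := by
    intro t ht
    rw [map_mul, mul_eq_zero]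
    simp only [map_add, map_sub, map_mul, map_pow, aeval_C, aeval_X, eq_intCast, map_intCast,
      map_ofNat]
    exact ht
  refine lind Finset.univ ![x, -x, y, -y, x + y, -(x + y), x - y, -(x - y)]
    ![2, 2, 2, 2, 1, 1, 1, 1] _ ?_ (fun j _ => r1 _ ?_) 4 A (by norm_num) hA ?_ ?_
  · simp only [eval_mul, eval_add, eval_sub, eval_C, eval_pow, eval_X]
    apply mul_ne_zero
    · simpa using hC
    · simpa using hD
  · fin_cases j
    · left; simpa using hx4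
    · left; simp only [Fin.mk_one, Matrix.cons_val_one, Matrix.cons_val_zero]; linear_combination hx4
    · left; simpa using s3
    · left; change (A : ℂ) * (-y) ^ 4 - B * (-y) ^ 2 + C = 0; linear_combination s3
    · right; change ((A : ℂ) * (x + y) ^ 2 - B) ^ 2 - 4 * A * C = 0
      rw [← s1, ← s2]; ring
    · right; change ((A : ℂ) * (-(x + y)) ^ 2 - B) ^ 2 - 4 * A * C = 0
      rw [← s1, ← s2]; ring
    · right; change ((A : ℂ) * (x - y) ^ 2 - B) ^ 2 - 4 * A * C = 0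
      rw [← s1, ← s2]; ring
    · right; change ((A : ℂ) * (-(x - y)) ^ 2 - B) ^ 2 - 4 * A * C = 0
      rw [← s1, ← s2]; ring
  · intro m
    obtain ⟨z, hz⟩ := pm_sum (x := x) (y := y) (A := A) (a := B) (b := A * C) s1
      (by push_cast; rw [← s2]; ring) m
    obtain ⟨z', hz'⟩ := pm_sum (x := x + y) (y := x - y) (A := A) (a := 2 * B)
      (b := B ^ 2 - 4 * A * C) (by push_cast; rw [← s1]; ring)
      (by push_cast; rw [← s1, ← s2]; ring) m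
    refine ⟨2 * z + z', ?_⟩
    push_cast
    rw [← hz, ← hz']
    simp [Fin.sum_univ_eight]
    ring
  · simp [Fin.sum_univ_eight, Complex.exp_neg, Complex.exp_add, Complex.exp_sub, ex]
    ring

end Pool.Agent.P.MP_858e15_gt
end

-- part Pool.Agent.P.MP_858e15_gt.Lines1
section

namespace Pool.Agent.P.MP_858e15_gt

open Real Filter Topology

theorem rho_sq {n J : ℝ} (hn : 1 ≤ n) (hJ : 1 ≤ J) : ∃ E : ℝ, 0 ≤ E ∧ ∀ x y u v s j : ℝ,
    u ^ 2 + 12 * v ^ 2 = n → s = x * u + 12 * (y * v) → j = x * v - y * u → |j| ≤ J → 1 ≤ s →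
    |n ^ 2 * (x ^ 2 * y ^ 2 / (x ^ 2 + 12 * y ^ 2) ^ 2)
      - ((u * v) ^ 2 - 2 * (u * v * j * (u ^ 2 - 12 * v ^ 2)) / s)| ≤ E / s ^ 2 := by
  obtain ⟨R, hR⟩ : ∃ R, R = 36 * J ^ 3 * n := ⟨_, rfl⟩
  have R0 : 0 ≤ R := by rw [hR]; positivity
  refine ⟨(J * n) ^ 2 + 2 * (n + J * n) * R + R ^ 2, by positivity, ?_⟩
  intro x y u v s j h1 h2 h3 h4 h5
  obtain ⟨α, hα⟩ : ∃ α, α = u * v := ⟨_, rfl⟩
  obtain ⟨κ, hκ⟩ : ∃ κ, κ = u ^ 2 - 12 * v ^ 2 := ⟨_, rfl⟩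
  rw [← hα, ← hκ]
  have a1 : |α| ≤ n := by
    rw [hα, abs_le]; constructor <;> nlinarith [sq_nonneg (u + v), sq_nonneg (u - v), sq_nonneg v]
  have a2 : |κ| ≤ n := by
    rw [hκ, abs_le]; constructor <;> nlinarith [sq_nonneg u, sq_nonneg v]
  have e1 : n * (x ^ 2 + 12 * y ^ 2) = s ^ 2 + 12 * j ^ 2 := by rw [← h1, h2, h3]; ring
  have e2 : n ^ 2 * (x * y) = s ^ 2 * α - s * j * κ - 12 * j ^ 2 * α := by
    rw [← h1, h2, h3, hα, hκ]; ring
  have s0 : 0 < s := by linarith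
  have D0 : 0 < s ^ 2 + 12 * j ^ 2 := by positivity
  have N0 : 0 < x ^ 2 + 12 * y ^ 2 := by
    by_contra hc
    nlinarith
  obtain ⟨r, hr⟩ : ∃ r, r = (-24 * j ^ 2 * α * s + 12 * j ^ 3 * κ) / (s * (s ^ 2 + 12 * j ^ 2)) :=
    ⟨_, rfl⟩
  have e3 : n * (x * y) / (x ^ 2 + 12 * y ^ 2) = α - j * κ / s + r := by
    have : n * (x * y) / (x ^ 2 + 12 * y ^ 2)
        = n ^ 2 * (x * y) / (n * (x ^ 2 + 12 * y ^ 2)) := by field_simp
    rw [this, e1, e2, hr]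
    field_simp
    ring
  have j2 : j ^ 2 ≤ J ^ 3 := by
    have : j ^ 2 ≤ J ^ 2 := by rw [← sq_abs j]; gcongr
    nlinarith [sq_nonneg J]
  have j3 : |j| ^ 3 ≤ J ^ 3 := by gcongr
  have r1 : |r| ≤ R / s ^ 2 := by
    rw [hr, abs_div, abs_of_pos (by positivity : 0 < s * (s ^ 2 + 12 * j ^ 2)),
      div_le_div_iff₀ (by positivity) (by positivity)]
    have t1 : |-24 * j ^ 2 * α * s + 12 * j ^ 3 * κ| ≤ R * s := by
      refine (abs_add_le _ _).trans ?_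
      simp only [abs_mul, abs_pow, abs_neg, sq_abs, abs_of_pos s0, Nat.abs_ofNat]
      have t2 : 24 * j ^ 2 * |α| * s ≤ 24 * J ^ 3 * n * s := by gcongr
      have t3 : 12 * |j| ^ 3 * |κ| ≤ 12 * J ^ 3 * n * s := by
        calc _ ≤ 12 * J ^ 3 * n := by gcongr
          _ ≤ _ := le_mul_of_one_le_right (by positivity) h5
      rw [hR]; linarith
    calc _ ≤ R * s * s ^ 2 := by gcongr
      _ ≤ R * (s * (s ^ 2 + 12 * j ^ 2)) := by
        rw [mul_assoc]; gcongr; nlinarith [sq_nonneg j]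
  have e4 : n ^ 2 * (x ^ 2 * y ^ 2 / (x ^ 2 + 12 * y ^ 2) ^ 2) - (α ^ 2 - 2 * (α * j * κ) / s)
      = (j * κ / s) ^ 2 + 2 * (α - j * κ / s) * r + r ^ 2 := by
    have : n ^ 2 * (x ^ 2 * y ^ 2 / (x ^ 2 + 12 * y ^ 2) ^ 2)
        = (n * (x * y) / (x ^ 2 + 12 * y ^ 2)) ^ 2 := by field_simp
    rw [this, e3]; ring
  have b1 : |j * κ / s| ≤ J * n / s := by
    rw [abs_div, abs_mul, abs_of_pos s0]; gcongr
  have b2 : J * n / s ≤ J * n := div_le_self (by positivity) h5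
  have b3 : |α - j * κ / s| ≤ n + J * n := (abs_sub _ _).trans (by linarith)
  have b4 : R / s ^ 2 ≤ R / s := by gcongr; nlinarith
  have b5 : (j * κ / s) ^ 2 ≤ (J * n / s) ^ 2 := by rw [← sq_abs]; gcongr
  have b6 : r ^ 2 ≤ (R / s) ^ 2 := by rw [← sq_abs]; gcongr; linarith
  have b7 : |2 * (α - j * κ / s) * r| ≤ 2 * (n + J * n) * (R / s ^ 2) := by
    rw [abs_mul, abs_mul, abs_two]; gcongr
  have e5 : ((J * n) ^ 2 + 2 * (n + J * n) * R + R ^ 2) / s ^ 2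
      = (J * n / s) ^ 2 + 2 * (n + J * n) * (R / s ^ 2) + (R / s) ^ 2 := by field_simp
  rw [e4, e5, abs_le]
  obtain ⟨b8, b9⟩ := abs_le.mp b7
  constructor <;> nlinarith [sq_nonneg (j * κ / s), sq_nonneg r, sq_nonneg (J * n / s),
    sq_nonneg (R / s)]

theorem two_point {A B E s t M : ℝ} (hs : 1 ≤ s) (ht : s ≤ 2 * t) (hM : 0 < M) (h : M ≤ |s - t|)
    (h1 : |A + B / s| ≤ E / s ^ 2) (h2 : |A + B / t| ≤ E / t ^ 2) :
    |A| ≤ 3 * E / M ∧ |B| ≤ E / s + 3 * E / M := by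
  have s0 : 0 < s := by linarith
  have t0 : 0 < t := by linarith
  have E0 : 0 ≤ E := by
    have := (abs_nonneg _).trans h1
    exact (div_nonneg_iff.mp this).elim (fun h => h.1) fun h => by nlinarith [h.2]
  have k1 : ∀ s : ℝ, 0 < s → |A + B / s| ≤ E / s ^ 2 → |A * s + B| ≤ E / s := by
    intro s s0 h
    have : A * s + B = (A + B / s) * s := by field_simp
    rw [this, abs_mul, abs_of_pos s0]
    calc _ ≤ E / s ^ 2 * s := by gcongr
      _ = _ := by field_simp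
  have a1 := k1 s s0 h1
  have a2 := k1 t t0 h2
  have a3 : |A| * M ≤ E / s + E / t := by
    calc |A| * M ≤ |A| * |s - t| := by gcongr
      _ = |(A * s + B) - (A * t + B)| := by rw [← abs_mul]; congr 1; ring
      _ ≤ _ := (abs_sub _ _).trans (add_le_add a1 a2)
  have a4 : E / t ≤ 2 * (E / s) := by
    rw [← mul_div_assoc, div_le_div_iff₀ t0 s0]; nlinarith
  have a5 : |A| * s ≤ 3 * E / M := by
    rw [le_div_iff₀ hM]
    have : E / s * s = E := by field_simp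
    nlinarith
  refine ⟨(le_mul_of_one_le_right (abs_nonneg _) hs).trans a5, ?_⟩
  calc |B| = |(A * s + B) - A * s| := by congr 1; ring
    _ ≤ |A * s + B| + |A * s| := abs_sub _ _
    _ ≤ _ := by rw [abs_mul A, abs_of_pos s0]; linarith

theorem gapF {a b i k : ℤ} (hab : 0 < a ^ 2 + 12 * b ^ 2) (hk0 : k ≠ 0) (hk : |k| ≤ 13) {n : ℝ}
    (hn : n = (a : ℝ) ^ 2 + 12 * (b : ℝ) ^ 2) : ∃ ε : ℝ, 0 < ε ∧ ∀ α j κ : ℝ,
    12 * j ^ 2 = 12 * (i : ℝ) ^ 2 + k * n → κ ^ 2 = n ^ 2 - 48 * α ^ 2 →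
    |96 * (α ^ 2 - ((a : ℝ) * b) ^ 2) - 3 * k / (2 * π ^ 2) * n ^ 2| ≤ ε →
    |α * j * κ - (a : ℝ) * b * i * ((a : ℝ) ^ 2 - 12 * (b : ℝ) ^ 2)| ≤ ε → False := by
  obtain ⟨N, hN⟩ : ∃ N : ℤ, N = a ^ 2 + 12 * b ^ 2 := ⟨_, rfl⟩
  have nN : n = N := by rw [hn, hN]; push_cast; ring
  rw [← hN] at hab
  have n1 : 1 ≤ n := by rw [nN]; exact_mod_cast hab
  obtain ⟨m, hm⟩ : ∃ m : ℤ, m = 12 * i ^ 2 + k * N := ⟨_, rfl⟩
  have mm : (12 * (i : ℝ) ^ 2 + k * n) = m := by rw [nN, hm]; push_cast; ring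
  obtain ⟨y, hy⟩ : ∃ y : ℤ, y = a * b * i * (a ^ 2 - 12 * b ^ 2) := ⟨_, rfl⟩
  have yy : (a : ℝ) * b * i * ((a : ℝ) ^ 2 - 12 * (b : ℝ) ^ 2) = y := by rw [hy]; push_cast; ring
  rw [mm, yy]
  have hp := pi_pos
  by_cases m0 : m = 0
  · refine ⟨0.1, by norm_num, ?_⟩
    intro α j κ h1 _ h3 h4
    have j0 : j = 0 := by rw [m0] at h1; simpa using h1
    have i0 : i ≠ 0 := by
      rintro rfl
      have : k * N = 0 := by linarith
      rcases mul_eq_zero.mp this with h | h <;> omega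
    have k1 : k < 0 := by
      by_contra hc
      have := mul_nonneg (not_lt.mp hc) hab.le
      have : 0 < i ^ 2 := by positivity
      linarith
    rw [j0, mul_zero, zero_mul, zero_sub, abs_neg] at h4
    have y0 : y = 0 := by
      have : |y| < 1 := by
        have : |(y : ℝ)| < 1 := by linarith
        exact_mod_cast this
      exact Int.abs_lt_one_iff.mp this
    have ab0 : a * b = 0 := by
      rw [y0] at hy
      rcases mul_eq_zero.mp hy.symm with h | h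
      · exact (mul_eq_zero.mp h).resolve_right i0
      · rw [not_twelve (x := a) (y := b) (by linarith), mul_zero]
    have ab1 : (a : ℝ) * b = 0 := by exact_mod_cast ab0
    have c1 := (c_range hk0 hk).1
    have c2 : 3 * (k : ℝ) / (2 * π ^ 2) < 0 :=
      div_neg_of_neg_of_pos (by have : (k : ℝ) < 0 := by exact_mod_cast k1
                                linarith) (by positivity)
    rw [abs_of_neg c2] at c1
    rw [ab1] at h3
    have := (abs_le.mp h3).2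
    nlinarith [sq_nonneg α, one_le_pow₀ (n := 2) n1]
  · obtain ⟨z, hz⟩ : ∃ z : ℝ, z = ((a : ℝ) * b) ^ 2 + 3 * k / (2 * π ^ 2) * n ^ 2 / 96 := ⟨_, rfl⟩
    have cont : Continuous fun x : ℝ × ℝ => (m : ℝ) * x.1 * (n ^ 2 - 48 * x.1) - 12 * x.2 ^ 2 := by
      fun_prop
    have ne : (m : ℝ) * z * (n ^ 2 - 48 * z) - 12 * (y : ℝ) ^ 2 ≠ 0 := by
      intro h0
      have z1 : 64 * z * π ^ 2 = 64 * ((a : ℝ) * b) ^ 2 * π ^ 2 + k * n ^ 2 := by
        rw [hz]; field_simp; ring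
      have h1 : ((m * 64 * (a * b) ^ 2 * (64 * N ^ 2 - 48 * 64 * (a * b) ^ 2)
            - 12 * 4096 * y ^ 2 : ℤ) : ℝ) * π ^ 4
          + ((m * (64 * (a * b) ^ 2 * (-48 * k * N ^ 2)
            + k * N ^ 2 * (64 * N ^ 2 - 48 * 64 * (a * b) ^ 2)) : ℤ) : ℝ) * π ^ 2
          + ((-48 * m * k ^ 2 * N ^ 4 : ℤ) : ℝ) = 0 := by
        push_cast
        rw [← nN]
        linear_combination 4096 * π ^ 4 * h0 - m * (64 * n ^ 2 * π ^ 2 - 48 * (64 * z * π ^ 2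
          + 64 * ((a : ℝ) * b) ^ 2 * π ^ 2 + k * n ^ 2)) * z1
      obtain ⟨h2, h3⟩ := pi_no_quad h1
      rw [h2, h3] at h1
      have h4 : -48 * m * k ^ 2 * N ^ 4 = 0 := by
        have : ((-48 * m * k ^ 2 * N ^ 4 : ℤ) : ℝ) = 0 := by linear_combination h1
        exact_mod_cast this
      simp [m0, hk0, hab.ne'] at h4
    obtain ⟨δ, δ0, hδ⟩ := Metric.eventually_nhds_iff.mp
      ((cont.continuousAt (x := (z, (y : ℝ)))).eventually_ne ne)
    refine ⟨δ / 2, by linarith, ?_⟩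
    intro α j κ h1 h2 h3 h4
    refine hδ (y := (α ^ 2, α * j * κ)) ?_ ?_
    · rw [Prod.dist_eq, Real.dist_eq, Real.dist_eq, max_lt_iff]
      obtain ⟨h5, h6⟩ := abs_le.mp h3
      refine ⟨abs_lt.mpr ⟨?_, ?_⟩, by linarith⟩ <;> simp only [hz] <;> linarith
    · simp only
      rw [← h1, ← h2]; ring

theorem cos_inv {c : ℝ} (h1 : c ≠ 1) (h2 : c ≠ -1) : ∃ φ m η : ℝ, 0 ≤ m ∧ 0 < η ∧
    ∀ x δ : ℝ, x ∈ Set.Icc 0 π → δ ≤ η → |cos x - c| ≤ δ → |x - φ| ≤ m * δ := by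
  by_cases h : |c| < 1
  swap
  · have h3 : 1 < |c| := lt_of_le_of_ne (not_lt.mp h) fun h4 => by
      rcases abs_choice c with h5 | h5
      · exact h1 (by linarith)
      · exact h2 (by linarith)
    refine ⟨0, 0, (|c| - 1) / 2, le_rfl, by linarith, fun x δ _ a1 a2 => ?_⟩
    have a3 := abs_cos_le_one x
    have a4 := abs_sub_abs_le_abs_sub c (cos x)
    rw [abs_sub_comm] at a4
    linarith
  obtain ⟨c1, c2⟩ := abs_lt.mp h
  obtain ⟨φ, hφ⟩ : ∃ φ, φ = arccos c := ⟨_, rfl⟩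
  have f0 : 0 < φ := by rw [hφ]; exact arccos_pos.mpr c2
  have f1 : φ < π := by rw [hφ]; exact arccos_lt_pi.mpr c1
  have f2 : cos φ = c := by rw [hφ]; exact cos_arccos c1.le c2.le
  obtain ⟨μ, hμ⟩ : ∃ μ, μ = min (sin (φ / 2)) (sin (π / 2 - φ / 2)) := ⟨_, rfl⟩
  have μ0 : 0 < μ := by
    rw [hμ]
    exact lt_min (sin_pos_of_pos_of_lt_pi (by linarith) (by linarith))
      (sin_pos_of_pos_of_lt_pi (by linarith) (by linarith))
  refine ⟨φ, 2 / μ, 1, by positivity, one_pos, fun x δ hx _ a2 => ?_⟩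
  obtain ⟨x0, x1⟩ := hx
  have s1 : μ ≤ sin ((x + φ) / 2) := by
    rw [hμ]
    rcases le_total ((x + φ) / 2) (π / 2) with h | h
    · exact (min_le_left _ _).trans
        (sin_le_sin_of_le_of_le_pi_div_two (by linarith) h (by linarith))
    · rw [← sin_pi_sub ((x + φ) / 2)]
      exact (min_le_right _ _).trans
        (sin_le_sin_of_le_of_le_pi_div_two (by linarith) (by linarith) (by linarith))
  have s2 := mul_abs_le_abs_sin (x := (x - φ) / 2) (abs_le.mpr ⟨by linarith, by linarith⟩)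
  have s3 : 1 / 2 * |(x - φ) / 2| ≤ 2 / π * |(x - φ) / 2| := by
    apply mul_le_mul_of_nonneg_right _ (abs_nonneg _)
    rw [le_div_iff₀ pi_pos]; linarith [pi_lt_four]
  rw [abs_div, abs_two] at s3 s2
  rw [← f2, cos_sub_cos, abs_mul, abs_mul, abs_of_pos (μ0.trans_le s1), abs_neg, abs_two] at a2
  rw [div_mul_eq_mul_div, le_div_iff₀ μ0]
  have s4 : μ * (1 / 2 * (|x - φ| / 2)) ≤ sin ((x + φ) / 2) * |sin ((x - φ) / 2)| :=
    mul_le_mul s1 (s3.trans s2) (by positivity) (μ0.le.trans s1)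
  linarith

theorem fold_lip (x y : ℝ) : |fold x - fold y| ≤ 4 * |x - y| := by
  have e : ∀ x, fold x = π - |4 * x - π| := by
    intro x
    unfold fold
    split_ifs with h
    · rw [abs_of_nonpos (by linarith)]; ring
    · rw [abs_of_nonneg (by linarith)]; ring
  rw [e, e, show π - |4 * x - π| - (π - |4 * y - π|) = |4 * y - π| - |4 * x - π| by ring]
  refine (abs_abs_sub_abs_le_abs_sub _ _).trans (le_of_eq ?_)
  rw [show 4 * y - π - (4 * x - π) = -4 * (x - y) by ring, abs_mul]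
  norm_num

end Pool.Agent.P.MP_858e15_gt
end

-- part Pool.Agent.P.MP_858e15_gt.Lines2
section

namespace Pool.Agent.P.MP_858e15_gt

open Real

theorem s_range {k a b i : ℤ} {c K Y n : ℝ} {P : V} (ha : 0 ≤ a) (hb : 0 ≤ b)
    (hn : n = (a : ℝ) ^ 2 + 12 * (b : ℝ) ^ 2) (n1 : 1 ≤ n) (hP : Near k c K Y P)
    (hl : P 0 * b - P 1 * a = i) (hY : 24 * (i : ℝ) ^ 2 ≤ Y) :
    0 ≤ (P 0 : ℝ) * a + 12 * (P 1 * b) ∧ n * Y / 2 ≤ ((P 0 : ℝ) * a + 12 * (P 1 * b)) ^ 2 ∧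
      ((P 0 : ℝ) * a + 12 * (P 1 * b)) ^ 2 ≤ 2 * n * Y := by
  obtain ⟨h0, -, h2, h3, -⟩ := hP
  have p0 : (0 : ℝ) ≤ P 0 := by exact_mod_cast h0 0
  have p1 : (0 : ℝ) ≤ P 1 := by exact_mod_cast h0 1
  have a0 : (0 : ℝ) ≤ a := by exact_mod_cast ha
  have b0 : (0 : ℝ) ≤ b := by exact_mod_cast hb
  have e0 : (i : ℝ) = P 0 * b - P 1 * a := by exact_mod_cast hl.symm
  have e1 : ((P 0 : ℝ) * a + 12 * (P 1 * b)) ^ 2 = n * NN P - 12 * (i : ℝ) ^ 2 := by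
    rw [NN_cast, hn, e0]; ring
  have Y0 : 0 ≤ Y := le_trans (by positivity) hY
  refine ⟨by positivity, ?_, ?_⟩ <;> rw [e1]
  · nlinarith
  · nlinarith [sq_nonneg (i : ℝ)]

theorem line_pair {K : ℝ} (hK : 0 ≤ K) {a b i k : ℤ} (ha : 0 ≤ a) (hb : 0 ≤ b)
    (hab : 0 < a ^ 2 + 12 * b ^ 2) (hk0 : k ≠ 0) (hk : |k| ≤ 13) : ∃ (M : ℕ) (Y0 : ℝ), ∀ Y : ℝ,
    Y0 ≤ Y → ∀ P Q : V, Near k (3 * k / (2 * π ^ 2)) K Y P → Near k (3 * k / (2 * π ^ 2)) K Y Q →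
    P 0 * b - P 1 * a = i → Q 0 * b - Q 1 * a = i → BB P Q = k →
    |(P 0 * a + 12 * (P 1 * b)) - (Q 0 * a + 12 * (Q 1 * b))| ≤ M := by
  obtain ⟨n, hn⟩ : ∃ n : ℝ, n = (a : ℝ) ^ 2 + 12 * (b : ℝ) ^ 2 := ⟨_, rfl⟩
  have n1 : 1 ≤ n := by rw [hn]; exact_mod_cast hab
  obtain ⟨ε, ε0, hε⟩ := gapF (i := i) hab hk0 hk hn
  obtain ⟨J, hJ⟩ : ∃ J : ℝ, J = |(i : ℝ)| + 2 * n := ⟨_, rfl⟩
  have i0 := abs_nonneg (i : ℝ)
  obtain ⟨E0, E00, hE⟩ := rho_sq n1 (show 1 ≤ J by linarith)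
  obtain ⟨E, hE1⟩ : ∃ E, E = 192 * E0 + 2 * K * n ^ 3 := ⟨_, rfl⟩
  have E1 : 0 ≤ E := by rw [hE1]; positivity
  obtain ⟨T, hT⟩ : ∃ T, T = 6 * E / ε + 1 := ⟨_, rfl⟩
  have T0 : 0 ≤ 6 * E / ε := by positivity
  have T1 : 1 ≤ T := by linarith
  have T2 : 3 * E / T ≤ ε / 2 := by
    rw [div_le_iff₀ (by linarith), hT]
    have : ε / 2 * (6 * E / ε) = 3 * E := by field_simp; ring
    nlinarith
  refine ⟨⌈T⌉₊, 24 * (i : ℝ) ^ 2 + 2 * T ^ 2, ?_⟩
  intro Y hY P Q hP hQ lP lQ hB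
  by_contra hc
  have Y1 : 24 * (i : ℝ) ^ 2 ≤ Y := by linarith [sq_nonneg T]
  have Y2 : 2 * T ^ 2 ≤ Y := by linarith [sq_nonneg (i : ℝ)]
  have Y0 : 0 < Y := by linarith [one_le_pow₀ (n := 2) T1]
  have Y3 : Y ≤ n * Y := le_mul_of_one_le_left Y0.le n1
  obtain ⟨s1, s2, s3'⟩ := s_range ha hb hn n1 hP lP Y1
  obtain ⟨t1, t2, t3⟩ := s_range ha hb hn n1 hQ lQ Y1
  have hM : T ≤ |((P 0 : ℝ) * a + 12 * (P 1 * b)) - (Q 0 * a + 12 * (Q 1 * b))| := by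
    refine (Nat.le_ceil T).trans ?_
    have := (not_le.mp hc).le
    exact_mod_cast this
  have r1 : (P 2 : ℝ) ^ 2 + 12 * (P 3 : ℝ) ^ 2 = (P 0 : ℝ) ^ 2 + 12 * (P 1 : ℝ) ^ 2 + k := by
    have := hP.2.1; unfold NN NN' at this; exact_mod_cast this
  have r2 : (Q 2 : ℝ) ^ 2 + 12 * (Q 3 : ℝ) ^ 2 = (Q 0 : ℝ) ^ 2 + 12 * (Q 1 : ℝ) ^ 2 + k := by
    have := hQ.2.1; unfold NN NN' at this; exact_mod_cast this
  have r3 : (P 2 : ℝ) * Q 2 + 12 * (P 3 * Q 3) - (P 0 * Q 0 + 12 * (P 1 * Q 1)) = k := by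
    unfold BB at hB; exact_mod_cast hB
  have l1 : (i : ℝ) = P 0 * b - P 1 * a := by exact_mod_cast lP.symm
  have l2 : (i : ℝ) = Q 0 * b - Q 1 * a := by exact_mod_cast lQ.symm
  have w1 := hP.2.2.2.2
  have w2 := hQ.2.2.2.2
  unfold c4 at w1 w2
  have k1 : (k : ℝ) ≤ 13 := by exact_mod_cast (abs_le.mp hk).2
  generalize (P 0 : ℝ) = p0, (P 1 : ℝ) = p1, (P 2 : ℝ) = p2, (P 3 : ℝ) = p3, (Q 0 : ℝ) = q0,
    (Q 1 : ℝ) = q1, (Q 2 : ℝ) = q2, (Q 3 : ℝ) = q3 at *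
  obtain ⟨s, hs⟩ : ∃ s, s = p0 * a + 12 * (p1 * b) := ⟨_, rfl⟩
  obtain ⟨t, ht⟩ : ∃ t, t = q0 * a + 12 * (q1 * b) := ⟨_, rfl⟩
  rw [← hs] at s1 s2 s3' hM
  rw [← ht] at t1 t2 t3 hM
  have sT : T ≤ s := le_of_sq_le_sq (by linarith) s1
  have tT : T ≤ t := le_of_sq_le_sq (by linarith) t1
  have st : s ≤ 2 * t := le_of_sq_le_sq (by linarith) (by linarith)
  have ne : t - s ≠ 0 := by
    intro h
    rw [show s - t = 0 by linarith, abs_zero] at hM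
    linarith
  obtain ⟨τ, hτ⟩ : ∃ τ, τ = (t - s) / n := ⟨_, rfl⟩
  have τ0 : τ ≠ 0 := by rw [hτ]; positivity
  have τ1 : τ * n = t - s := by rw [hτ]; field_simp
  have d0 : q0 = p0 + τ * a := by
    apply mul_left_cancel₀ (show n ≠ 0 by positivity)
    linear_combination (-(a : ℝ)) * τ1 + (q0 - p0) * hn - a * ht + a * hs - 12 * b * l2 + 12 * b * l1
  have d1 : q1 = p1 + τ * b := by
    apply mul_left_cancel₀ (show n ≠ 0 by positivity)
    linear_combination (-(b : ℝ)) * τ1 + (q1 - p1) * hn - b * ht + b * hs + a * l2 - a * l1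
  obtain ⟨u, hu⟩ : ∃ u, u = (q2 - p2) / τ := ⟨_, rfl⟩
  obtain ⟨v, hv⟩ : ∃ v, v = (q3 - p3) / τ := ⟨_, rfl⟩
  have d2 : q2 = p2 + τ * u := by rw [hu]; field_simp; ring
  have d3 : q3 = p3 + τ * v := by rw [hv]; field_simp; ring
  have g1 : u ^ 2 + 12 * v ^ 2 = n := by
    apply mul_left_cancel₀ (pow_ne_zero 2 τ0)
    rw [d0, d1, d2, d3] at r2 r3
    linear_combination r1 + r2 - 2 * r3 - τ ^ 2 * hn
  have g2 : s = p2 * u + 12 * (p3 * v) := by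
    apply mul_left_cancel₀ τ0
    rw [d0, d1, d2, d3] at r3
    linear_combination r1 - r3 + τ * hs
  have g3 : t = q2 * u + 12 * (q3 * v) := by
    rw [d2, d3]; linear_combination g2 - τ1 - τ * g1
  obtain ⟨j, hj⟩ : ∃ j, j = p2 * v - p3 * u := ⟨_, rfl⟩
  have g4 : j = q2 * v - q3 * u := by rw [hj, d2, d3]; ring
  have g5 : 12 * j ^ 2 = 12 * (i : ℝ) ^ 2 + k * n := by
    have e1 : n * (p2 ^ 2 + 12 * p3 ^ 2) = s ^ 2 + 12 * j ^ 2 := by rw [← g1, g2, hj]; ring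
    have e2 : n * (p0 ^ 2 + 12 * p1 ^ 2) = s ^ 2 + 12 * (i : ℝ) ^ 2 := by rw [hn, hs, l1]; ring
    linear_combination e2 - e1 + n * r1
  have jJ : |j| ≤ J := by
    apply abs_le_of_sq_le_sq _ (by linarith)
    rw [hJ]
    have x1 : (k : ℝ) * n ≤ 13 * n := by gcongr
    have x2 : n ≤ n * n := le_mul_of_one_le_left (by linarith) n1
    have x3 : 0 ≤ |(i : ℝ)| * n := by positivity
    linarith [sq_abs (i : ℝ)]
  have iJ : |(i : ℝ)| ≤ J := by linarith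
  have key : ∀ x0 x1 x2 x3 s : ℝ, 1 ≤ s → s ^ 2 ≤ 2 * n * Y → s = x0 * a + 12 * (x1 * b) →
      (i : ℝ) = x0 * b - x1 * a → s = x2 * u + 12 * (x3 * v) → j = x2 * v - x3 * u →
      |1 - 96 * (x0 ^ 2 * x1 ^ 2) / (x0 ^ 2 + 12 * x1 ^ 2) ^ 2
        - (1 - 96 * (x2 ^ 2 * x3 ^ 2) / (x2 ^ 2 + 12 * x3 ^ 2) ^ 2) - 3 * k / (2 * π ^ 2)| ≤ K / Y →
      |(96 * ((u * v) ^ 2 - ((a : ℝ) * b) ^ 2) - 3 * k / (2 * π ^ 2) * n ^ 2)
        + -192 * (u * v * j * (u ^ 2 - 12 * v ^ 2)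
          - (a : ℝ) * b * i * ((a : ℝ) ^ 2 - 12 * (b : ℝ) ^ 2)) / s| ≤ E / s ^ 2 := by
    intro x0 x1 x2 x3 s h1 h2 h3 h4 h5 h6 h7
    have z1 := abs_le.mp (hE x0 x1 a b s i hn.symm h3 h4 iJ h1)
    have z2 := abs_le.mp (hE x2 x3 u v s j g1 h5 h6 jJ h1)
    have z3 : K / Y * n ^ 2 ≤ 2 * K * n ^ 3 / s ^ 2 := by
      rw [div_mul_eq_mul_div, div_le_div_iff₀ Y0 (by positivity)]
      calc K * n ^ 2 * s ^ 2 ≤ K * n ^ 2 * (2 * n * Y) := by gcongr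
        _ = _ := by ring
    have z4 := mul_le_mul_of_nonneg_right h7 (sq_nonneg n)
    rw [← abs_of_nonneg (sq_nonneg n), ← abs_mul, abs_of_nonneg (sq_nonneg n)] at z4
    have z5 := abs_le.mp (z4.trans z3)
    have z6 : E / s ^ 2 = 192 * (E0 / s ^ 2) + 2 * K * n ^ 3 / s ^ 2 := by rw [hE1]; ring
    rw [z6, abs_le]
    constructor
    · linear_combination 96 * z1.1 + 96 * z2.2 + z5.1
    · linear_combination 96 * z1.2 + 96 * z2.1 + z5.2
  obtain ⟨f1, f2⟩ := two_point (by linarith) st (by linarith) hM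
    (key p0 p1 p2 p3 s (by linarith) s3' hs l1 g2 hj w1)
    (key q0 q1 q2 q3 t (by linarith) t3 ht l2 g3 g4 w2)
  refine hε (u * v) j (u ^ 2 - 12 * v ^ 2) g5 (by rw [← g1]; ring) (by linarith) ?_
  rw [abs_mul, abs_neg, abs_of_pos (show (0 : ℝ) < 192 by norm_num)] at f2
  have f3 : E / s ≤ 3 * E / T := by
    calc E / s ≤ E / T := by gcongr
      _ ≤ 3 * E / T := by gcongr; linarith
  linarith [abs_nonneg (u * v * j * (u ^ 2 - 12 * v ^ 2)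
          - (a : ℝ) * b * i * ((a : ℝ) ^ 2 - 12 * (b : ℝ) ^ 2))]

theorem line_labels {K : ℝ} (hK : 0 ≤ K) {a b i k : ℤ} (ha : 0 ≤ a) (hb : 0 ≤ b)
    (hab : 0 < a ^ 2 + 12 * b ^ 2) (hk0 : k ≠ 0) (hk : |k| ≤ 13) : ∃ R x0 Y0 : ℝ, 0 ≤ R ∧
    ∀ Y : ℝ, Y0 ≤ Y → 40 ≤ Y → ∀ P : V, Near k (3 * k / (2 * π ^ 2)) K Y P →
    P 0 * b - P 1 * a = i → |√Y * (fold (th P) + fold (th' P)) - √Y * x0| ≤ R := by
  obtain ⟨n, hn⟩ : ∃ n : ℝ, n = (a : ℝ) ^ 2 + 12 * (b : ℝ) ^ 2 := ⟨_, rfl⟩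
  have n1 : 1 ≤ n := by rw [hn]; exact_mod_cast hab
  have irr : ∀ e : ℤ, c4 a b - 3 * k / (2 * π ^ 2) ≠ e := by
    intro e h
    have hp := pi_pos
    unfold c4 at h
    rw [← hn] at h
    have h1 : ((2 * ((1 - e) * (a ^ 2 + 12 * b ^ 2) ^ 2 - 96 * (a ^ 2 * b ^ 2)) : ℤ) : ℝ) * π ^ 2
        + ((-3 * k * (a ^ 2 + 12 * b ^ 2) ^ 2 : ℤ) : ℝ) = 0 := by
      push_cast
      rw [← hn]
      field_simp at h
      linear_combination h
    rw [pi_sq_irr h1] at h1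
    have h2 : -3 * k * (a ^ 2 + 12 * b ^ 2) ^ 2 = 0 := by
      have : ((-3 * k * (a ^ 2 + 12 * b ^ 2) ^ 2 : ℤ) : ℝ) = 0 := by linear_combination h1
      exact_mod_cast this
    simp [hk0, hab.ne'] at h2
  obtain ⟨φ, m, η, m0, η0, hφ⟩ := cos_inv (c := c4 a b - 3 * k / (2 * π ^ 2))
    (by simpa using irr 1) (by simpa using irr (-1))
  obtain ⟨W, hW⟩ : ∃ W, W = 32 * |(i : ℝ)| + K := ⟨_, rfl⟩
  have W0 : 0 ≤ W := by rw [hW]; positivity
  refine ⟨W + m * W, fold (ang a b) + φ, (W / η) ^ 2, by positivity, ?_⟩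
  intro Y hY Y1 P hP lP
  obtain ⟨-, -, -, a1, a2, a3, a4, -⟩ := near_basic hk Y1 hP
  obtain ⟨b1, b2, -, -, b5, -⟩ := ang_facts ha hb hn (by linarith)
  obtain ⟨h0, -, h2, -, -⟩ := hP
  obtain ⟨-, t2⟩ := two_vec (h0 0) (h0 1) ha hb (NN_cast P) hn (by linarith) (by linarith)
  change _ = _ * sin (th P - ang a b) ^ 2 at t2
  have l1 : (P 0 : ℝ) * b - P 1 * a = i := by exact_mod_cast lP
  rw [l1] at t2
  have H1 : 1 ≤ √Y := le_sqrt_of_sq_le (by linarith)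
  have H2 : √Y ^ 2 = Y := sq_sqrt (by linarith)
  have c1 : √Y * |sin (th P - ang a b)| ≤ 4 * |(i : ℝ)| := by
    apply le_of_sq_le_sq _ (by positivity)
    rw [mul_pow, mul_pow, sq_abs, sq_abs, H2]
    have : Y * sin (th P - ang a b) ^ 2 ≤ NN P * n * sin (th P - ang a b) ^ 2 := by
      gcongr
      exact h2.trans (le_mul_of_one_le_right (by linarith) n1)
    linarith [sq_nonneg (i : ℝ)]
  have c2 := mul_abs_le_abs_sin (x := th P - ang a b)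
    (abs_le.mpr ⟨by linarith [a4.1], by linarith [a4.2]⟩)
  have c3 : 1 / 2 * |th P - ang a b| ≤ 2 / π * |th P - ang a b| := by
    apply mul_le_mul_of_nonneg_right _ (abs_nonneg _)
    rw [le_div_iff₀ pi_pos]; linarith [pi_lt_four]
  have c5 : |fold (th P) - fold (ang a b)| ≤ 32 * |(i : ℝ)| / √Y := by
    rw [le_div_iff₀ (by linarith)]
    have x1 := fold_lip (th P) (ang a b)
    have x2 : |fold (th P) - fold (ang a b)| * √Y ≤ 8 * |sin (th P - ang a b)| * √Y := by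
      gcongr; linarith
    linarith
  have c6 := (abs_cos_sub_cos_le _ _).trans c5
  rw [b5] at c6
  have c7 : K / Y ≤ K / √Y := by
    gcongr
    exact sqrt_le_iff.mpr ⟨by linarith, le_self_pow₀ (by linarith) two_ne_zero⟩
  have c8 : W / √Y = 32 * |(i : ℝ)| / √Y + K / √Y := by rw [hW]; ring
  have c9 : W / √Y ≤ η := by
    rw [div_le_iff₀ (by linarith), mul_comm, ← div_le_iff₀ η0]
    exact le_sqrt_of_sq_le hY
  have d1 := hφ (fold (th' P)) (W / √Y) a2 c9 (by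
    obtain ⟨x1, x2⟩ := abs_le.mp a3
    obtain ⟨x3, x4⟩ := abs_le.mp c6
    rw [abs_le]; constructor <;> linarith)
  have d2 : |fold (th P) + fold (th' P) - (fold (ang a b) + φ)| ≤ (W + m * W) / √Y := by
    obtain ⟨x1, x2⟩ := abs_le.mp d1
    obtain ⟨x3, x4⟩ := abs_le.mp c5
    have : (W + m * W) / √Y = W / √Y + m * (W / √Y) := by ring
    have : 0 ≤ K / √Y := by positivity
    rw [abs_le]; constructor <;> linarith
  rw [← mul_sub, abs_mul, abs_of_pos (show 0 < √Y by linarith), mul_comm,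
    ← le_div_iff₀ (by linarith)]
  exact d2

theorem line_shell {K : ℝ} (hK : 0 ≤ K) {a b : ℤ} (ha : 0 ≤ a) (hb : 0 ≤ b)
    (hab : 0 < a ^ 2 + 12 * b ^ 2) (k i : ℤ) : ∃ (C : ℕ) (Y0 : ℝ), 0 ≤ Y0 ∧ ∀ Y : ℝ, Y0 ≤ Y →
    40 ≤ Y → k ≠ 0 → |k| ≤ 13 → ∀ S : Finset V,
    (∀ P ∈ S, Near k (3 * k / (2 * π ^ 2)) K Y P ∧ P 0 * b - P 1 * a = i) → S.card ≤ C := by
  classical
  by_cases hk' : k ≠ 0 ∧ |k| ≤ 13
  swap
  · exact ⟨0, 0, le_rfl, fun _ _ _ h1 h2 => absurd ⟨h1, h2⟩ hk'⟩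
  obtain ⟨hk0, hk⟩ := hk'
  obtain ⟨M, Y1, h1⟩ := line_pair (i := i) hK ha hb hab hk0 hk
  obtain ⟨R, x0, Y2, R0, h2⟩ := line_labels (i := i) hK ha hb hab hk0 hk
  obtain ⟨L, hL⟩ : ∃ L : ℕ, L = ⌈2 * K + 60⌉₊ := ⟨_, rfl⟩
  refine ⟨(2 * M + 1) * (2 * L + 1) ^ 4 * (2 * 2 * (⌈2 * R⌉₊ + 2)), |Y1| + |Y2|, by positivity, ?_⟩
  intro Y hY Y0 _ _ S hS
  have y1 : Y1 ≤ Y := by linarith [le_abs_self Y1, abs_nonneg Y2]
  have y2 : Y2 ≤ Y := by linarith [le_abs_self Y2, abs_nonneg Y1]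
  have hPP : ∀ P ∈ S, BB P P = k := fun P hP => by rw [BB_self, (hS P hP).1.2.1]; ring
  obtain ⟨A, hA⟩ : ∃ A : ℕ, A = ⌊√Y * x0 - R⌋₊ := ⟨_, rfl⟩
  have c1 := Finset.card_le_mul_card_image_of_maps_to (s := S) (f := lab Y)
    (t := (Finset.univ : Finset (Bool × Bool)) ×ˢ Finset.Icc A (A + ⌈2 * R⌉₊ + 1))
    (fun P hP => by
      obtain ⟨x1, x2⟩ := abs_le.mp (h2 Y y2 Y0 P (hS P hP).1 (hS P hP).2)
      simp only [Finset.mem_product, Finset.mem_univ, true_and, Finset.mem_Icc, lab]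
      refine ⟨hA ▸ Nat.floor_le_floor (by linarith), Nat.floor_le_of_le ?_⟩
      have x3 := Nat.lt_floor_add_one (√Y * x0 - R)
      have x4 := Nat.le_ceil (2 * R)
      rw [← hA] at x3
      push_cast; linarith) ((2 * M + 1) * (2 * L + 1) ^ 4) (by
      intro t _
      apply classes
      · intro P hP Q hQ
        obtain ⟨p1, p2⟩ := Finset.mem_filter.mp hP
        obtain ⟨q1, q2⟩ := Finset.mem_filter.mp hQ
        have := (gram hk Y0 hK (hS P p1).1 (hS Q q1).1 (p2.trans q2.symm)).1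
        have h2 : |(BB P Q : ℝ)| ≤ (L : ℝ) := by rw [hL]; exact this.trans (Nat.le_ceil _)
        exact_mod_cast h2
      · intro S' hS' hB
        rcases S'.eq_empty_or_nonempty with rfl | ⟨Q, hQ⟩
        · simp
        have mem : ∀ P ∈ S', P ∈ S := fun P hP => (Finset.mem_filter.mp (hS' hP)).1
        have hB' : ∀ P ∈ S', ∀ Q ∈ S', BB P Q = k := fun P hP Q hQ =>
          (hB P hP Q hQ).trans (hPP P (mem P hP))
        obtain ⟨σ, hσ⟩ : ∃ σ, σ = Q 0 * a + 12 * (Q 1 * b) := ⟨_, rfl⟩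
        have c2 := Finset.card_le_card_of_injOn (s := S') (t := Finset.Icc (σ - M) (σ + M))
          (fun P => P 0 * a + 12 * (P 1 * b)) (by
            intro P hP
            have hP' : P ∈ S' := hP
            have := abs_le.mp (h1 Y y1 P Q (hS P (mem P hP')).1 (hS Q (mem Q hQ)).1
              (hS P (mem P hP')).2 (hS Q (mem Q hQ)).2 (hB' P hP' Q hQ))
            simp only [Finset.coe_Icc, Set.mem_Icc]
            constructor <;> linarith [this.1, this.2]) (by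
            intro P hP P' hP' h
            have m1 : P ∈ S' := hP
            have m2 : P' ∈ S' := hP'
            simp only at h
            have l1 := (hS P (mem P m1)).2
            have l2 := (hS P' (mem P' m2)).2
            have e0 : P 0 = P' 0 := by
              apply mul_left_cancel₀ hab.ne'
              linear_combination a * h + 12 * b * l1 - 12 * b * l2
            have e1 : P 1 = P' 1 := by
              apply mul_left_cancel₀ hab.ne'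
              linear_combination b * h - a * l1 + a * l2
            have z1 := hB' P m1 P m1
            have z2 := hB' P' m2 P' m2
            have z3 := hB' P m1 P' m2
            unfold BB at z1 z2 z3
            rw [← e0, ← e1] at z2 z3
            have z4 : (P 2 - P' 2) ^ 2 + 12 * (P 3 - P' 3) ^ 2 = 0 := by
              linear_combination z1 + z2 - 2 * z3
            have e2 : P 2 = P' 2 := sub_eq_zero.mp (pow_eq_zero_iff two_ne_zero |>.mp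
              (by linarith [sq_nonneg (P 2 - P' 2), sq_nonneg (P 3 - P' 3)]))
            have e3 : P 3 = P' 3 := sub_eq_zero.mp (pow_eq_zero_iff two_ne_zero |>.mp
              (by linarith [sq_nonneg (P 2 - P' 2), sq_nonneg (P 3 - P' 3)]))
            funext j
            fin_cases j
            exacts [e0, e1, e2, e3])
        rw [Int.card_Icc] at c2
        omega)
  simp only [Finset.card_product, Finset.card_univ, Fintype.card_prod, Fintype.card_bool,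
    Nat.card_Icc] at c1
  rwa [show A + ⌈2 * R⌉₊ + 1 + 1 - A = ⌈2 * R⌉₊ + 2 by omega] at c1

end Pool.Agent.P.MP_858e15_gt
end

-- part Pool.Agent.P.MP_858e15_gt.Lines3
section

namespace Pool.Agent.P.MP_858e15_gt

open Real

theorem partner : ∃ K M : ℝ, 0 ≤ K ∧ ∀ s : ℤ × ℤ, ∃ (k : ℤ) (P : V), P 0 = |s.1| ∧ P 1 = |s.2| ∧
    (M ≤ (s.1 : ℝ) ^ 2 + 12 * (s.2 : ℝ) ^ 2 → ¬ ((∃ v, FillVol s.1 s.2 v) ∧
      ∀ (p' q' : ℤ) (v : ℝ), FillVol s.1 s.2 v → FillVol p' q' v → |p'| = |s.1| ∧ |q'| = |s.2|) →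
      k ≠ 0 ∧ |k| ≤ 13 ∧ Near k (3 * k / (2 * π ^ 2)) K (2 ^ Nat.log 2 (NN P).toNat) P) := by
  obtain ⟨K, N1, hK, h40, hc⟩ := compare
  refine ⟨K, N1, hK.le, fun s => ?_⟩
  by_cases h : N1 ≤ (s.1 : ℝ) ^ 2 + 12 * (s.2 : ℝ) ^ 2 ∧ ¬ ((∃ v, FillVol s.1 s.2 v) ∧
      ∀ (p' q' : ℤ) (v : ℝ), FillVol s.1 s.2 v → FillVol p' q' v → |p'| = |s.1| ∧ |q'| = |s.2|)
  swap
  · exact ⟨0, ![|s.1|, |s.2|, 0, 0], rfl, rfl, fun h1 h2 => absurd ⟨h1, h2⟩ h⟩
  obtain ⟨m2, c3⟩ := h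
  obtain ⟨c1, c2⟩ := hc s.1 s.2 m2
  rw [not_and] at c3
  have c5 := c3 c1
  simp only [not_forall] at c5
  obtain ⟨p', q', v, f1, f2, f3⟩ := c5
  obtain ⟨k, k1, k2, k3, k4⟩ := (c2 p' q' v f1 f2).resolve_left f3
  obtain ⟨P, hP⟩ : ∃ P : V, P = ![|s.1|, |s.2|, |p'|, |q'|] := ⟨_, rfl⟩
  have f0 : P 0 = |s.1| := by rw [hP]; rfl
  have f1 : P 1 = |s.2| := by rw [hP]; rfl
  have f2 : P 2 = |p'| := by rw [hP]; rfl
  have f3 : P 3 = |q'| := by rw [hP]; rfl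
  have nf : (NN P : ℝ) = (s.1 : ℝ) ^ 2 + 12 * (s.2 : ℝ) ^ 2 := by
    rw [NN_cast, f0, f1]; push_cast; simp only [sq_abs]
  have pos : 0 < NN P := by
    have : (0 : ℝ) < NN P := by linarith
    exact_mod_cast this
  obtain ⟨w3, w4⟩ := dyadic pos
  refine ⟨k, P, f0, f1, fun _ _ => ⟨k1, k2, fun j => ?_, ?_, w3, w4, ?_⟩⟩
  · fin_cases j
    · exact f0.ge.trans' (abs_nonneg _)
    · exact f1.ge.trans' (abs_nonneg _)
    · exact f2.ge.trans' (abs_nonneg _)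
    · exact f3.ge.trans' (abs_nonneg _)
  · unfold NN NN'
    rw [f0, f1, f2, f3]
    simp only [sq_abs]
    exact k3
  · rw [f0, f1, f2, f3, c4_absV, c4_absV]
    refine k4.trans ?_
    rw [← nf]
    exact div_le_div_of_nonneg_left hK.le (by positivity) w3

theorem on_lines (a b i : ℤ) (hab : a ≠ 0 ∨ b ≠ 0) : ∃ C : ℝ, ∀ X : ℝ, 1 ≤ X →
    ∀ S : Finset (ℤ × ℤ), (∀ s ∈ S, s.1 * b - s.2 * a = i ∧
      (s.1 : ℝ) ^ 2 + 12 * (s.2 : ℝ) ^ 2 ≤ X ∧ ¬ ((∃ v, FillVol s.1 s.2 v) ∧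
      ∀ (p' q' : ℤ) (v : ℝ), FillVol s.1 s.2 v → FillVol p' q' v → |p'| = |s.1| ∧ |q'| = |s.2|)) →
    (S.card : ℝ) ≤ C * (1 + log X) := by
  classical
  obtain ⟨K, N1, hK, hc⟩ := partner
  choose kk f f0 f1 ht using hc
  have hab' : 0 < |a| ^ 2 + 12 * |b| ^ 2 := by
    rcases hab with h | h <;> positivity
  choose C Y0 Y00 hs using line_shell hK (abs_nonneg a) (abs_nonneg b) hab'
  obtain ⟨F, hF⟩ : ∃ F : Finset (ℤ × ℤ), F = Finset.Icc (-13 : ℤ) 13 ×ˢ Finset.Icc (-|i|) |i| :=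
    ⟨_, rfl⟩
  obtain ⟨Z, hZ⟩ : ∃ Z : ℝ, Z = ∑ x ∈ F, Y0 x.1 x.2 := ⟨_, rfl⟩
  have Z0 : 0 ≤ Z := by rw [hZ]; exact Finset.sum_nonneg fun x _ => Y00 _ _
  obtain ⟨B, hB⟩ : ∃ B : ℝ, B = ∑ x ∈ F, 4 * (C x.1 x.2 : ℝ) := ⟨_, rfl⟩
  have B0 : 0 ≤ B := by rw [hB]; positivity
  obtain ⟨M, hM⟩ : ∃ M : ℝ, M = |N1| + 80 + 2 * Z := ⟨_, rfl⟩
  have M1 : N1 ≤ M := by linarith [le_abs_self N1]
  have M2 : 80 + 2 * Z ≤ M := by linarith [abs_nonneg N1]
  obtain ⟨E, hE⟩ : ∃ E : ℝ, E = ((2 * ⌈M⌉₊ + 1) * (2 * ⌈M⌉₊ + 1) : ℕ) := ⟨_, rfl⟩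
  have E0 : 0 ≤ E := by rw [hE]; positivity
  refine ⟨E + 2 * B, ?_⟩
  intro X hX S hS
  have lg0 : 0 ≤ log X := log_nonneg hX
  have split := Finset.card_filter_add_card_filter_not (s := S)
    (fun s => (s.1 : ℝ) ^ 2 + 12 * (s.2 : ℝ) ^ 2 < M)
  set S1 := S.filter fun s => (s.1 : ℝ) ^ 2 + 12 * (s.2 : ℝ) ^ 2 < M with hS1
  set S2 := S.filter fun s => ¬ (s.1 : ℝ) ^ 2 + 12 * (s.2 : ℝ) ^ 2 < M with hS2
  have b1 : (S1.card : ℝ) ≤ E := by
    rw [hE]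
    exact_mod_cast small_card M S1 fun s hs => (Finset.mem_filter.mp hs).2
  have nf : ∀ s, (NN (f s) : ℝ) = (s.1 : ℝ) ^ 2 + 12 * (s.2 : ℝ) ^ 2 := fun s => by
    rw [NN_cast, f0, f1]; push_cast; simp only [sq_abs]
  have big : ∀ s ∈ S2, 80 + 2 * Z ≤ (NN (f s) : ℝ) ∧ (NN (f s) : ℝ) ≤ X ∧ kk s ≠ 0 ∧ |kk s| ≤ 13 ∧
      Near (kk s) (3 * kk s / (2 * π ^ 2)) K (2 ^ Nat.log 2 (NN (f s)).toNat) (f s) := by
    intro s hs
    obtain ⟨m1, m2⟩ := Finset.mem_filter.mp hs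
    refine ⟨?_, ?_, ht s (M1.trans (not_lt.mp m2)) (hS s m1).2.2⟩ <;> rw [nf]
    exacts [M2.trans (not_lt.mp m2), (hS s m1).2.1]
  obtain ⟨n, hn⟩ : ∃ n, n = ⌊2 * log X⌋₊ := ⟨_, rfl⟩
  have n1 : (n : ℝ) ≤ 2 * log X := by rw [hn]; exact Nat.floor_le (by positivity)
  have b2 : (S2.card : ℝ) ≤ 2 * B * (1 + log X) := by
    rw [Finset.card_eq_sum_card_fiberwise
      (f := fun s => ((kk s, f s 0 * |b| - f s 1 * |a|), Nat.log 2 (NN (f s)).toNat))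
      (t := F ×ˢ Finset.range (n + 1)) (by
        intro s hs
        have hs' : s ∈ S2 := by exact_mod_cast hs
        obtain ⟨-, u2, -, u4, u5⟩ := big s hs'
        simp only [hF, Finset.coe_product, Set.mem_prod, Finset.mem_coe, Finset.mem_Icc,
          Finset.mem_range]
        refine ⟨⟨abs_le.mp u4, abs_le.mp ?_⟩, Nat.lt_succ_of_le ?_⟩
        · rw [f0, f1, ← abs_mul, ← abs_mul, ← (hS s (Finset.mem_filter.mp hs').1).1]
          exact abs_abs_sub_abs_le_abs_sub _ _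
        · rw [hn]
          exact Nat.le_floor (log_index (u5.2.2.1.trans u2)))]
    push_cast
    have each : ∀ x ∈ F ×ˢ Finset.range (n + 1), ((S2.filter fun s =>
        ((kk s, f s 0 * |b| - f s 1 * |a|), Nat.log 2 (NN (f s)).toNat) = x).card : ℝ)
          ≤ 4 * (C x.1.1 x.1.2 : ℝ) := by
      rintro ⟨⟨k, j⟩, l⟩ hx
      set T := S2.filter fun s =>
        ((kk s, f s 0 * |b| - f s 1 * |a|), Nat.log 2 (NN (f s)).toNat) = ((k, j), l) with hT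
      rcases T.eq_empty_or_nonempty with he | ⟨s0, hs0⟩
      · rw [he]; simp
      have mem : ∀ s ∈ T, 80 + 2 * Z ≤ 2 * (2 : ℝ) ^ l ∧ k ≠ 0 ∧ |k| ≤ 13 ∧
          Near k (3 * k / (2 * π ^ 2)) K (2 ^ l) (f s) ∧ f s 0 * |b| - f s 1 * |a| = j := by
        intro s hs
        obtain ⟨m1, m2⟩ := Finset.mem_filter.mp hs
        obtain ⟨m3, m4⟩ := Prod.mk.inj m2
        obtain ⟨m5, m6⟩ := Prod.mk.inj m3
        obtain ⟨u1, -, u3, u4, u5⟩ := big s m1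
        rw [m4, m5] at u5
        exact ⟨u1.trans u5.2.2.2.1, m5 ▸ u3, m5 ▸ u4, u5, m6⟩
      obtain ⟨u1, u2, u3, -⟩ := mem s0 hs0
      have z1 : Y0 k j ≤ Z := by
        rw [hZ]
        exact Finset.single_le_sum (f := fun x : ℤ × ℤ => Y0 x.1 x.2) (fun x _ => Y00 _ _)
          (Finset.mem_product.mp hx).1
      have c1 := hs k j (2 ^ l) (by linarith) (by linarith) u2 u3 (T.image f) (by
        intro P hP
        obtain ⟨s, hs, rfl⟩ := Finset.mem_image.mp hP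
        exact (mem s hs).2.2.2)
      exact_mod_cast (four_card T f f0 f1).trans (Nat.mul_le_mul_left 4 c1)
    refine (Finset.sum_le_sum each).trans ?_
    rw [Finset.sum_product_right]
    simp only [← hB, Finset.sum_const, Finset.card_range, nsmul_eq_mul]
    push_cast
    nlinarith
  have tot : (S.card : ℝ) = S1.card + S2.card := by exact_mod_cast split.symm
  have w : E ≤ E * (1 + log X) := le_mul_of_one_le_right E0 (by linarith)
  rw [tot]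
  linarith

end Pool.Agent.P.MP_858e15_gt
end
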